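import Mathlib

set_option autoImplicit false

/-!
# Sums over a complete system of residues of products of two discrepancies
-/

namespace Pool.Agent.Run7.h129.LG

open Finset

/-- the number of the `h < H` with `D ∣ u + h` -/
def cD (H D u : ℕ) : ℕ := ((range H).filter (fun h => D ∣ u + h)).card

/-- its deviation from the mean -/
noncomputable def fD (H D u : ℕ) : ℝ := (cD H D u : ℝ) - (H : ℝ) / D

/-- the number of the elements of `range N` in a residue class -/
lemma count_mod {r : ℕ} (hr : 0 < r) (v N : ℕ) :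
    ((range N).filter (fun x => x ≡ v [MOD r])).card = N / r + if v % r < N % r then 1 else 0 := by
  rw [← Nat.count_eq_card_filter_range]
  exact Nat.count_modEq_card N hr v

lemma neg_class {D : ℕ} (hD : 0 < D) (u : ℕ) : ∃ v : ℕ, ∀ h : ℕ, D ∣ u + h ↔ h ≡ v [MOD D] := by
  refine ⟨D - u % D, fun h => ?_⟩
  have h1 : u % D < D := Nat.mod_lt _ hD
  have h2 : u + (D - u % D) ≡ 0 [MOD D] := by
    have e : u + (D - u % D) = D * (u / D) + D := by
      have := Nat.div_add_mod u D
      omega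
    rw [e]
    exact (Nat.modEq_zero_iff_dvd).2 ⟨u / D + 1, by ring⟩
  constructor
  · intro h3
    have h4 : u + h ≡ 0 [MOD D] := (Nat.modEq_zero_iff_dvd).2 h3
    exact Nat.ModEq.add_left_cancel' u (h4.trans h2.symm)
  · intro h3
    have h4 : u + h ≡ u + (D - u % D) [MOD D] := h3.add_left u
    exact (Nat.modEq_zero_iff_dvd).1 (h4.trans h2)

lemma cD_near {D : ℕ} (hD : 0 < D) (H u : ℕ) : |(cD H D u : ℝ) - (H : ℝ) / D| ≤ 1 := by
  obtain ⟨v, hv⟩ := neg_class hD u
  have e : cD H D u = H / D + if v % D < H % D then 1 else 0 := by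
    unfold cD
    rw [← count_mod hD]
    congr 1
    exact filter_congr fun h _ => hv h
  have hD0 : (0 : ℝ) < D := by exact_mod_cast hD
  have h1 : ((H / D : ℕ) : ℝ) ≤ (H : ℝ) / D := Nat.cast_div_le
  have h2 : (H : ℝ) / D < ((H / D : ℕ) : ℝ) + 1 := by
    rw [div_lt_iff₀ hD0]
    have := Nat.lt_mul_div_succ H hD
    have h6 : (H : ℝ) < ((D * (H / D + 1) : ℕ) : ℝ) := by exact_mod_cast this
    push_cast at h6
    linarith
  rw [e, abs_le]
  push_cast
  split_ifs <;> constructor <;> linarith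

lemma fD_abs {D : ℕ} (hD : 0 < D) (H u : ℕ) : |fD H D u| ≤ 1 := cD_near hD H u

lemma cD_periodic {H D L : ℕ} (hL : D ∣ L) (u : ℕ) : cD H D (u + L) = cD H D u := by
  unfold cD
  congr 1
  refine filter_congr fun h _ => ?_
  have e : u + L + h = (u + h) + L := by ring
  rw [e]
  exact (Nat.dvd_add_iff_left hL).symm

lemma fD_periodic {H D L : ℕ} (hL : D ∣ L) (u : ℕ) : fD H D (u + L) = fD H D u := by
  unfold fD
  rw [cD_periodic hL]

/-- one point of a complete system of residues satisfies two compatible congruences -/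
lemma crt_count {D E h k : ℕ} (hD : 0 < D) (hE : 0 < E) :
    ((range (Nat.lcm D E)).filter (fun u => D ∣ u + h ∧ E ∣ u + k)).card =
      if h ≡ k [MOD Nat.gcd D E] then 1 else 0 := by
  have hL : 0 < Nat.lcm D E := Nat.lcm_pos hD hE
  obtain ⟨a, ha⟩ := neg_class hD h
  obtain ⟨c, hc⟩ := neg_class hE k
  have ha' : ∀ u, D ∣ u + h ↔ u ≡ a [MOD D] := fun u => by rw [add_comm]; exact ha u
  have hc' : ∀ u, E ∣ u + k ↔ u ≡ c [MOD E] := fun u => by rw [add_comm]; exact hc u
  have hg1 : Nat.gcd D E ∣ D := Nat.gcd_dvd_left _ _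
  have hg2 : Nat.gcd D E ∣ E := Nat.gcd_dvd_right _ _
  have hiff : ∀ u, D ∣ u + h → E ∣ u + k → h ≡ k [MOD Nat.gcd D E] := by
    intro u h1 h2
    have h3 : u + h ≡ 0 [MOD Nat.gcd D E] := Nat.modEq_zero_iff_dvd.2 (hg1.trans h1)
    have h4 : u + k ≡ 0 [MOD Nat.gcd D E] := Nat.modEq_zero_iff_dvd.2 (hg2.trans h2)
    exact Nat.ModEq.add_left_cancel' u (h3.trans h4.symm)
  split_ifs with hcomp
  · -- compatible
    have hac : a ≡ c [MOD Nat.gcd D E] := by
      have h1 : D ∣ a + h := (ha' a).2 (Nat.ModEq.refl a)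
      have h2 : E ∣ c + k := (hc' c).2 (Nat.ModEq.refl c)
      have h3 : a + h ≡ 0 [MOD Nat.gcd D E] := Nat.modEq_zero_iff_dvd.2 (hg1.trans h1)
      have h4 : c + k ≡ 0 [MOD Nat.gcd D E] := Nat.modEq_zero_iff_dvd.2 (hg2.trans h2)
      have h5 : c + h ≡ c + k [MOD Nat.gcd D E] := hcomp.add_left c
      have h6 : a + h ≡ c + h [MOD Nat.gcd D E] := h3.trans (h4.symm.trans h5.symm)
      exact Nat.ModEq.add_right_cancel' h h6
    obtain ⟨x, hx1, hx2⟩ := Nat.chineseRemainder' hac
    have e : (range (Nat.lcm D E)).filter (fun u => D ∣ u + h ∧ E ∣ u + k) =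
        (range (Nat.lcm D E)).filter (fun u => u ≡ x [MOD Nat.lcm D E]) := by
      refine filter_congr fun u _ => ?_
      rw [ha' u, hc' u]
      constructor
      · rintro ⟨h1, h2⟩
        exact Nat.mod_lcm (h1.trans hx1.symm) (h2.trans hx2.symm)
      · intro h1
        exact ⟨(h1.of_dvd (Nat.dvd_lcm_left D E)).trans hx1, (h1.of_dvd (Nat.dvd_lcm_right D E)).trans hx2⟩
    rw [e, count_mod hL, Nat.div_self hL, Nat.mod_self]
    simp
  · rw [card_eq_zero, filter_eq_empty_iff]
    rintro u _ ⟨h1, h2⟩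
    exact hcomp (hiff u h1 h2)

lemma sum_cD {H D L : ℕ} (hD : 0 < D) (hL : D ∣ L) :
    ∑ u ∈ range L, (cD H D u : ℝ) = H * ((L : ℝ) / D) := by
  have h1 : ∑ u ∈ range L, cD H D u = ∑ h ∈ range H, L / D := by
    unfold cD
    simp only [card_filter]
    rw [sum_comm]
    refine sum_congr rfl fun h _ => ?_
    rw [← card_filter]
    obtain ⟨a, ha⟩ := neg_class hD h
    have e : (range L).filter (fun u => D ∣ u + h) = (range L).filter (fun u => u ≡ a [MOD D]) := by
      refine filter_congr fun u _ => ?_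
      rw [add_comm]
      exact ha u
    rw [e, count_mod hD, Nat.mod_eq_zero_of_dvd hL]
    simp
  have h2 : ((∑ u ∈ range L, cD H D u : ℕ) : ℝ) = ((∑ h ∈ range H, L / D : ℕ) : ℝ) := by rw [h1]
  push_cast at h2
  rw [h2, sum_const, card_range, nsmul_eq_mul]
  congr 1
  obtain ⟨k, rfl⟩ := hL
  rw [Nat.mul_div_cancel_left _ hD]
  push_cast
  have hD0 : (0 : ℝ) < D := by exact_mod_cast hD
  field_simp

/-- the covariance over a complete system of residues -/
theorem cov {H D E : ℕ} (hD : 0 < D) (hE : 0 < E) :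
    |∑ u ∈ range (Nat.lcm D E), fD H D u * fD H E u| ≤ H := by
  have hD0 : (0 : ℝ) < D := by exact_mod_cast hD
  have hE0 : (0 : ℝ) < E := by exact_mod_cast hE
  have hg : 0 < Nat.gcd D E := Nat.gcd_pos_of_pos_left _ hD
  have hg0 : (0 : ℝ) < Nat.gcd D E := by exact_mod_cast hg
  have hgl : ((Nat.gcd D E : ℕ) : ℝ) * (Nat.lcm D E : ℕ) = D * E := by
    exact_mod_cast Nat.gcd_mul_lcm D E
  set L := Nat.lcm D E with hLdef
  -- the products of the counts
  have h1 : ∑ u ∈ range L, cD H D u * cD H E u =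
      ∑ h ∈ range H, ((range H).filter (fun k => k ≡ h [MOD Nat.gcd D E])).card := by
    have e1 : ∀ u, cD H D u * cD H E u = ∑ h ∈ range H, ∑ k ∈ range H,
        if (D ∣ u + h ∧ E ∣ u + k) then 1 else 0 := by
      intro u
      unfold cD
      rw [card_filter, card_filter, sum_mul_sum]
      refine sum_congr rfl fun h _ => sum_congr rfl fun k _ => ?_
      by_cases h1 : D ∣ u + h <;> by_cases h2 : E ∣ u + k <;> simp [h1, h2]
    simp only [e1]
    rw [sum_comm]
    refine sum_congr rfl fun h _ => ?_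
    rw [sum_comm, card_filter]
    refine sum_congr rfl fun k _ => ?_
    rw [← card_filter, hLdef, crt_count hD hE]
    have : h ≡ k [MOD Nat.gcd D E] ↔ k ≡ h [MOD Nat.gcd D E] := ⟨Nat.ModEq.symm, Nat.ModEq.symm⟩
    simp only [this]
  have h2 : |(∑ u ∈ range L, (cD H D u : ℝ) * cD H E u) - H * ((H : ℝ) / Nat.gcd D E)| ≤ H := by
    have e1 : (∑ u ∈ range L, (cD H D u : ℝ) * cD H E u) =
        ∑ h ∈ range H, (((range H).filter (fun k => k ≡ h [MOD Nat.gcd D E])).card : ℝ) := by
      exact_mod_cast h1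
    rw [e1]
    have e2 : (H : ℝ) * ((H : ℝ) / Nat.gcd D E) = ∑ h ∈ range H, ((H : ℝ) / Nat.gcd D E) := by
      rw [sum_const, card_range, nsmul_eq_mul]
    rw [e2, ← sum_sub_distrib]
    refine (abs_sum_le_sum_abs _ _).trans ?_
    calc ∑ h ∈ range H, |(((range H).filter (fun k => k ≡ h [MOD Nat.gcd D E])).card : ℝ) -
          (H : ℝ) / Nat.gcd D E| ≤ ∑ h ∈ range H, (1 : ℝ) := by
          refine sum_le_sum fun h _ => ?_
          rw [count_mod hg]
          have h3 : ((H / Nat.gcd D E : ℕ) : ℝ) ≤ (H : ℝ) / Nat.gcd D E := Nat.cast_div_le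
          have h4 : (H : ℝ) / Nat.gcd D E < ((H / Nat.gcd D E : ℕ) : ℝ) + 1 := by
            rw [div_lt_iff₀ hg0]
            have := Nat.lt_mul_div_succ H hg
            have h6 : (H : ℝ) < ((Nat.gcd D E * (H / Nat.gcd D E + 1) : ℕ) : ℝ) := by
              exact_mod_cast this
            push_cast at h6
            linarith
          rw [abs_le]
          push_cast
          split_ifs <;> constructor <;> linarith
      _ = H := by rw [sum_const, card_range, nsmul_eq_mul, mul_one]
  have hLD : D ∣ L := Nat.dvd_lcm_left D E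
  have hLE : E ∣ L := Nat.dvd_lcm_right D E
  have e3 : ∑ u ∈ range L, fD H D u * fD H E u =
      (∑ u ∈ range L, (cD H D u : ℝ) * cD H E u) - H * ((H : ℝ) / Nat.gcd D E) := by
    unfold fD
    have e4 : ∀ u, ((cD H D u : ℝ) - (H : ℝ) / D) * ((cD H E u : ℝ) - (H : ℝ) / E) =
        (cD H D u : ℝ) * cD H E u - (H : ℝ) / E * cD H D u - (H : ℝ) / D * cD H E u +
          (H : ℝ) / D * ((H : ℝ) / E) := fun u => by ring
    simp only [e4]
    rw [sum_add_distrib, sum_sub_distrib, sum_sub_distrib, ← mul_sum, ← mul_sum, sum_cD hD hLD,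
      sum_cD hE hLE, sum_const, card_range, nsmul_eq_mul]
    have e5 : (L : ℝ) / D / E = 1 / (Nat.gcd D E : ℕ) := by
      rw [div_div, ← hgl]
      have : (L : ℝ) ≠ 0 := by
        have : 0 < L := Nat.lcm_pos hD hE
        positivity
      field_simp
    have e6 : (H : ℝ) / E * (H * ((L : ℝ) / D)) = H * H * ((L : ℝ) / D / E) := by field_simp
    have e7 : (H : ℝ) / D * (H * ((L : ℝ) / E)) = H * H * ((L : ℝ) / D / E) := by field_simp
    have e8 : (L : ℝ) * ((H : ℝ) / D * ((H : ℝ) / E)) = H * H * ((L : ℝ) / D / E) := by field_simp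
    rw [e6, e7, e8, e5]
    ring
  rw [e3]
  exact h2

/-- sums of a periodic function -/
lemma sum_periodic {L : ℕ} (hL : 0 < L) {G : ℕ → ℝ} (hG : ∀ u, G (u + L) = G u)
    (hG1 : ∀ u, |G u| ≤ 1) (J : ℕ) :
    |∑ j ∈ range J, G j| ≤ (J : ℝ) / L * |∑ j ∈ range L, G j| + L := by
  have hL0 : (0 : ℝ) < L := by exact_mod_cast hL
  have hper : ∀ k u, G (u + L * k) = G u := by
    intro k
    induction k with
    | zero => intro u; simp
    | succ k ih =>
      intro u
      rw [mul_add, mul_one, ← add_assoc, hG, ih]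
  have h1 : ∀ k r, ∑ j ∈ range (L * k + r), G j = k * ∑ j ∈ range L, G j + ∑ j ∈ range r, G j := by
    intro k r
    induction k with
    | zero => simp
    | succ k ih =>
      have e : L * (k + 1) + r = L + (L * k + r) := by ring
      rw [e, Finset.sum_range_add]
      have e2 : ∀ x, G (L + x) = G x := fun x => by rw [add_comm]; exact hG x
      simp only [e2]
      rw [ih]
      push_cast
      ring
  have h2 := h1 (J / L) (J % L)
  rw [Nat.div_add_mod] at h2
  rw [h2]
  have h3 : |∑ j ∈ range (J % L), G j| ≤ L := by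
    refine (abs_sum_le_sum_abs _ _).trans ?_
    calc ∑ j ∈ range (J % L), |G j| ≤ ∑ j ∈ range (J % L), (1 : ℝ) := sum_le_sum fun j _ => hG1 j
      _ = ((J % L : ℕ) : ℝ) := by rw [sum_const, card_range, nsmul_eq_mul, mul_one]
      _ ≤ L := by exact_mod_cast (Nat.mod_lt _ hL).le
  refine (abs_add_le _ _).trans (add_le_add ?_ h3)
  rw [abs_mul, abs_of_nonneg (Nat.cast_nonneg _)]
  exact mul_le_mul_of_nonneg_right Nat.cast_div_le (abs_nonneg _)

/-- multiplication by a unit permutes the residues -/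
lemma sum_mul_perm {L H : ℕ} (hL : 0 < L) (hc : Nat.Coprime H L) {F : ℕ → ℝ}
    (hF : ∀ u, F (u + L) = F u) : ∑ j ∈ range L, F (j * H) = ∑ u ∈ range L, F u := by
  have hper : ∀ u, F (u % L) = F u := by
    intro u
    have : Function.Periodic F L := hF
    exact this.map_mod_nat u
  refine sum_bij (fun j _ => (j * H) % L) ?_ ?_ ?_ ?_
  · intro j _
    exact mem_range.2 (Nat.mod_lt _ hL)
  · intro a ha c hc' h
    rw [mem_range] at ha hc'
    have h1 : a * H ≡ c * H [MOD L] := h
    have h2 : a ≡ c [MOD L] := Nat.ModEq.cancel_right_of_coprime (by rwa [Nat.gcd_comm]) h1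
    have h3 : a % L = c % L := h2
    rwa [Nat.mod_eq_of_lt ha, Nat.mod_eq_of_lt hc'] at h3
  · intro u hu
    rw [mem_range] at hu
    have hinj : Set.InjOn (fun j => (j * H) % L) (range L : Set ℕ) := by
      intro a ha c hc' h
      rw [coe_range, Set.mem_Iio] at ha hc'
      have h1 : a * H ≡ c * H [MOD L] := h
      have h2 : a ≡ c [MOD L] := Nat.ModEq.cancel_right_of_coprime (by rwa [Nat.gcd_comm]) h1
      have h3 : a % L = c % L := h2
      rwa [Nat.mod_eq_of_lt ha, Nat.mod_eq_of_lt hc'] at h3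
    have himg : (range L).image (fun j => (j * H) % L) = range L := by
      refine eq_of_subset_of_card_le ?_ ?_
      · intro x hx
        rw [mem_image] at hx
        obtain ⟨j, _, rfl⟩ := hx
        exact mem_range.2 (Nat.mod_lt _ hL)
      · rw [card_image_of_injOn hinj]
    have h4 : u ∈ (range L).image (fun j => (j * H) % L) := by rw [himg]; exact mem_range.2 hu
    rw [mem_image] at h4
    obtain ⟨j, hj, hju⟩ := h4
    exact ⟨j, hj, hju⟩
  · intro j _
    exact (hper (j * H)).symm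

/-- the covariance over an interval of cells -/
theorem cov_cells {H D E : ℕ} (hD : 0 < D) (hE : 0 < E) (hHD : Nat.Coprime H D)
    (hHE : Nat.Coprime H E) (J : ℕ) :
    |∑ j ∈ range J, fD H D (j * H) * fD H E (j * H)| ≤
      (J : ℝ) * H / (Nat.lcm D E : ℕ) + (Nat.lcm D E : ℕ) := by
  set L := Nat.lcm D E with hLdef
  have hL : 0 < L := Nat.lcm_pos hD hE
  have hLD : D ∣ L := Nat.dvd_lcm_left D E
  have hLE : E ∣ L := Nat.dvd_lcm_right D E
  have hcop : Nat.Coprime H L := by
    have h := Nat.Coprime.mul_right hHD hHE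
    exact Nat.Coprime.coprime_dvd_right (Nat.lcm_dvd_mul D E) h
  have h1 := sum_periodic hL (G := fun j => fD H D (j * H) * fD H E (j * H)) (fun u => by
    have e : (u + L) * H = u * H + L * H := by ring
    simp only [e]
    rw [fD_periodic (hLD.mul_right H), fD_periodic (hLE.mul_right H)]) (fun u => by
    rw [abs_mul]
    have h1 := fD_abs hD H (u * H)
    have h2 := fD_abs hE H (u * H)
    have h3 := abs_nonneg (fD H D (u * H))
    have h4 := abs_nonneg (fD H E (u * H))
    nlinarith) J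
  have h2 : ∑ j ∈ range L, fD H D (j * H) * fD H E (j * H) =
      ∑ u ∈ range L, fD H D u * fD H E u :=
    sum_mul_perm hL hcop (F := fun u => fD H D u * fD H E u) (fun u => by
      simp only [fD_periodic hLD, fD_periodic hLE])
  rw [h2] at h1
  have h3 := cov (H := H) hD hE
  rw [← hLdef] at h3
  refine h1.trans (add_le_add ?_ le_rfl)
  have hL0 : (0 : ℝ) < L := by exact_mod_cast hL
  rw [mul_div_right_comm]
  exact mul_le_mul_of_nonneg_left h3 (by positivity)

/-- the variance of a combination of such discrepancies -/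
theorem variance {ι : Type*} (s : Finset ι) (w : ι → ℝ) (D : ι → ℕ) (H J : ℕ)
    (hD : ∀ i ∈ s, 0 < D i) (hc : ∀ i ∈ s, Nat.Coprime H (D i)) :
    ∑ j ∈ range J, (∑ i ∈ s, w i * fD H (D i) (j * H)) ^ 2 ≤
      ∑ i ∈ s, ∑ k ∈ s, |w i| * |w k| *
        ((J : ℝ) * H / (Nat.lcm (D i) (D k) : ℕ) + (Nat.lcm (D i) (D k) : ℕ)) := by
  have e : ∑ j ∈ range J, (∑ i ∈ s, w i * fD H (D i) (j * H)) ^ 2 =
      ∑ i ∈ s, ∑ k ∈ s, w i * w k * ∑ j ∈ range J, fD H (D i) (j * H) * fD H (D k) (j * H) := by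
    simp only [sq, sum_mul_sum]
    rw [sum_comm]
    refine sum_congr rfl fun i _ => ?_
    rw [sum_comm]
    refine sum_congr rfl fun k _ => ?_
    rw [mul_sum]
    refine sum_congr rfl fun j _ => ?_
    ring
  rw [e]
  refine sum_le_sum fun i hi => sum_le_sum fun k hk => ?_
  refine (le_abs_self _).trans ?_
  rw [abs_mul, abs_mul]
  exact mul_le_mul_of_nonneg_left (cov_cells (hD i hi) (hD k hk) (hc i hi) (hc k hk) J) (by positivity)

end Pool.Agent.Run7.h129.LG
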