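import Mathlib
import Pool.Agent.Y328.RSZ.SelB
import Pool.Agent.H305R2.Smooth
import Pool.Agent.W66.RC

set_option autoImplicit false

/-!
# Selberg's weights on the integers whose prime factors are larger than `q`
-/

namespace Pool.Agent.Run7.h129.LG

open Finset Filter Topology
open Pool.Agent.Y677.RSZ (rs qfr PR)
open Pool.Agent.H305R2 (VV VV_tendsto log_nat_tendsto roughPart)

/-- the sieve product -/
lemma PR_le : ∃ C : ℝ, 0 < C ∧ ∃ P : ℕ, ∀ q ≥ P, ∀ R : ℕ, q ≤ R →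
    PR (fun _ => 1) q R ≤ C * (Real.log q / Real.log R) := by
  obtain ⟨P, hP⟩ := ((VV_tendsto.eventually_lt_const (lt_add_one _)).and
    ((VV_tendsto.eventually_const_lt (show (1 : ℝ) < Real.exp Real.eulerMascheroniConstant by
      rw [Real.one_lt_exp_iff]
      exact lt_trans (by norm_num) Real.one_half_lt_eulerMascheroniConstant)).and
    (log_nat_tendsto.eventually_ge_atTop 1))).exists_forall_of_atTop
  refine ⟨Real.exp Real.eulerMascheroniConstant + 1, by positivity, P, fun q hq R hqR => ?_⟩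
  obtain ⟨h1, -, h2⟩ := hP q hq
  obtain ⟨-, h3, h4⟩ := hP R (hq.trans hqR)
  have hlq : 0 < Real.log q := by linarith
  have hlR : 0 < Real.log R := by linarith
  rw [div_lt_iff₀ hlq] at h1
  rw [lt_div_iff₀ hlR, one_mul] at h3
  have hVq : 0 ≤ VV q := Pool.Agent.H305R2.VV_nonneg q
  have hfac : ∀ r : ℕ, r.Prime → 0 < (1 - (r : ℝ)⁻¹) := by
    intro r hr
    have : (1 : ℝ) < r := by exact_mod_cast hr.one_lt
    have := inv_lt_one_of_one_lt₀ this
    linarith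
  have hsplit : VV R = VV q * (PR (fun _ => 1) q R)⁻¹ := by
    unfold VV PR
    rw [← prod_inv_distrib]
    have e1 : (Icc 1 R).filter Nat.Prime = (Icc 1 q).filter Nat.Prime ∪ (Ioc q R).filter Nat.Prime := by
      ext x
      simp only [mem_filter, mem_union, mem_Icc, mem_Ioc]
      constructor
      · rintro ⟨⟨h1, h2⟩, h3⟩
        rcases Nat.lt_or_ge q x with h4 | h4
        · exact Or.inr ⟨⟨h4, h2⟩, h3⟩
        · exact Or.inl ⟨⟨h1, h4⟩, h3⟩
      · rintro (⟨⟨h1, h2⟩, h3⟩ | ⟨⟨h1, h2⟩, h3⟩)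
        · exact ⟨⟨h1, h2.trans hqR⟩, h3⟩
        · exact ⟨⟨by omega, h2⟩, h3⟩
    have hdisj : Disjoint ((Icc 1 q).filter Nat.Prime) ((Ioc q R).filter Nat.Prime) := by
      rw [disjoint_left]
      intro x hx hx'
      rw [mem_filter, mem_Icc] at hx
      rw [mem_filter, mem_Ioc] at hx'
      omega
    rw [e1, prod_union hdisj]
    congr 1
    refine prod_congr rfl fun p _ => ?_
    norm_num
  have hPR : 0 < PR (fun _ => 1) q R := by
    unfold PR
    refine prod_pos fun p hp => ?_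
    have := hfac p (mem_filter.1 hp).2
    simpa using this
  have h5 : Real.log R * PR (fun _ => 1) q R ≤ VV q := by
    have h6 : VV R * PR (fun _ => 1) q R = VV q := by
      rw [hsplit, mul_assoc, inv_mul_cancel₀ hPR.ne', mul_one]
    rw [← h6]
    exact mul_le_mul_of_nonneg_right h3.le hPR.le
  calc PR (fun _ => 1) q R = Real.log R * PR (fun _ => 1) q R / Real.log R := by field_simp
    _ ≤ VV q / Real.log R := by gcongr
    _ ≤ ((Real.exp Real.eulerMascheroniConstant + 1) * Real.log q) / Real.log R := by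
        gcongr
    _ = _ := by ring

/-- the properties of the weights -/
structure Wt (lam : ℕ → ℝ) (q R : ℕ) (M : ℝ) : Prop where
  one : lam 1 = 1
  le : ∀ d, |lam d| ≤ 1
  supp : ∀ d, lam d ≠ 0 → 1 ≤ d ∧ d ≤ R ∧ Squarefree d ∧ ∀ p : ℕ, p.Prime → p ∣ d → q < p
  form : ∑ d ∈ Icc 1 R, ∑ e ∈ Icc 1 R, lam d * lam e / (Nat.lcm d e : ℕ) = M

theorem weights : ∃ C : ℝ, 0 < C ∧ ∃ P : ℕ, ∀ q ≥ P, ∀ R : ℕ, q ≤ R →
    ∃ (lam : ℕ → ℝ) (M : ℝ), Wt lam q R M ∧ M ≤ C * (Real.log q / Real.log R) := by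
  obtain ⟨C1, hC1, hsel⟩ := Pool.Agent.Y328.RSZ.sel 1
  obtain ⟨C2, hC2, P, hP⟩ := PR_le
  refine ⟨C1 * C2, by positivity, max P 4, fun q hq R hqR => ?_⟩
  obtain ⟨lam, h1, h2, h3, h4, h5⟩ := hsel (fun _ => 1) q R (by
    have := (le_max_right _ _).trans hq
    omega) hqR (fun _ _ => le_rfl)
  refine ⟨lam, _, ⟨h1, h2, h3, rfl⟩, ?_⟩
  have e : qfr (fun _ => 1) R lam = ∑ d ∈ Icc 1 R, ∑ e ∈ Icc 1 R, lam d * lam e / (Nat.lcm d e : ℕ) := by
    unfold qfr rs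
    refine sum_congr rfl fun d _ => sum_congr rfl fun e _ => ?_
    simp only [prod_const_one, Nat.cast_one]
    ring
  rw [← e]
  refine h5.trans ?_
  rw [mul_assoc]
  exact mul_le_mul_of_nonneg_left (hP q ((le_max_left _ _).trans hq) R hqR) hC1.le

/-- the number of divisors of a squarefree number without small prime factors -/
lemma card_div_le {q L : ℕ} {B : ℝ} (hq : 2 ≤ q) (hL : Squarefree L)
    (hp : ∀ p : ℕ, p.Prime → p ∣ L → q < p) (hB : Real.log L ≤ B) :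
    ((Nat.divisors L).card : ℝ) ≤ Real.exp (Real.log 2 * (B / Real.log q)) := by
  have hq2 : (2 : ℝ) ≤ q := by exact_mod_cast hq
  have hlq : 0 < Real.log q := Real.log_pos (by linarith)
  have h1 : (Nat.divisors L).card = 2 ^ L.primeFactors.card := by
    rw [Nat.card_divisors hL.ne_zero, ← prod_const]
    refine prod_congr rfl fun p hp => ?_
    rw [Nat.factorization_eq_one_of_squarefree hL (Nat.prime_of_mem_primeFactors hp)
      (Nat.dvd_of_mem_primeFactors hp)]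
  have h2 : q ^ L.primeFactors.card ≤ L := by
    calc q ^ L.primeFactors.card = ∏ p ∈ L.primeFactors, q := by rw [prod_const]
      _ ≤ ∏ p ∈ L.primeFactors, p := prod_le_prod' fun p hp' =>
          (hp p (Nat.prime_of_mem_primeFactors hp') (Nat.dvd_of_mem_primeFactors hp')).le
      _ = L := Nat.prod_primeFactors_of_squarefree hL
  have h3 : (L.primeFactors.card : ℝ) * Real.log q ≤ B := by
    refine le_trans ?_ hB
    rw [← Real.log_pow]
    refine Real.log_le_log (by positivity) ?_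
    exact_mod_cast h2
  rw [h1]
  push_cast
  have h4 : (2 : ℝ) ^ L.primeFactors.card = Real.exp (Real.log 2 * L.primeFactors.card) := by
    rw [Real.exp_mul, Real.exp_log two_pos, Real.rpow_natCast]
  rw [h4, Real.exp_le_exp]
  refine mul_le_mul_of_nonneg_left ?_ (Real.log_nonneg (by norm_num))
  rw [le_div_iff₀ hlq]
  exact h3

/-- the sum over quadruples -/
lemma quad {q R : ℕ} {M : ℝ} {lam : ℕ → ℝ} (h : Wt lam q R M) (hq : 2 ≤ q) (hR : 1 ≤ R)
    (A : Finset ℕ) (hA : A = (Icc 1 R).filter (fun d => lam d ≠ 0)) :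
    ∑ i ∈ A ×ˢ A, ∑ k ∈ A ×ˢ A, 1 / ((Nat.lcm (Nat.lcm i.1 i.2) (Nat.lcm k.1 k.2) : ℕ) : ℝ) ≤
      Real.exp (4 * (Real.log 2 * (4 * Real.log R / Real.log q))) * (1 + 4 * Real.log R) := by
  classical
  have hR1 : (1 : ℝ) ≤ R := by exact_mod_cast hR
  have hAm : ∀ d ∈ A, 1 ≤ d ∧ d ≤ R ∧ Squarefree d ∧ ∀ p : ℕ, p.Prime → p ∣ d → q < p := by
    intro d hd
    rw [hA, mem_filter] at hd
    exact h.supp d hd.2
  set g : (ℕ × ℕ) × (ℕ × ℕ) → ℕ := fun x => Nat.lcm (Nat.lcm x.1.1 x.1.2) (Nat.lcm x.2.1 x.2.2) with hg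
  set Pr : Finset ℕ := (Ioc q R).filter Nat.Prime with hPr
  have hPrp : ∀ p ∈ Pr, p.Prime := fun p hp => (mem_filter.1 hp).2
  have hdvd : ∀ d ∈ A, d ∣ ∏ p ∈ Pr, p := by
    intro d hd
    obtain ⟨h1, h2, h3, h4⟩ := hAm d hd
    refine (Pool.Agent.Y328.RSZ.dvd_iff Pr hPrp d).2 ⟨h3, fun p hp hpd => ?_⟩
    rw [hPr, mem_filter, mem_Ioc]
    exact ⟨⟨h4 p hp hpd, (Nat.le_of_dvd (by omega) hpd).trans h2⟩, hp⟩
  have hgd : ∀ x ∈ (A ×ˢ A) ×ˢ (A ×ˢ A), g x ∣ ∏ p ∈ Pr, p := by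
    intro x hx
    simp only [mem_product] at hx
    exact Nat.lcm_dvd (Nat.lcm_dvd (hdvd _ hx.1.1) (hdvd _ hx.1.2))
      (Nat.lcm_dvd (hdvd _ hx.2.1) (hdvd _ hx.2.2))
  have hlcm_le : ∀ a c : ℕ, 1 ≤ a → 1 ≤ c → Nat.lcm a c ≤ a * c := by
    intro a c ha hc
    exact Nat.le_of_dvd (by positivity) (Nat.lcm_dvd_mul a c)
  have hgle : ∀ x ∈ (A ×ˢ A) ×ˢ (A ×ˢ A), g x ∈ Icc 1 (R ^ 4) := by
    intro x hx
    simp only [mem_product] at hx
    obtain ⟨a1, a2, -, -⟩ := hAm _ hx.1.1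
    obtain ⟨b1, b2, -, -⟩ := hAm _ hx.1.2
    obtain ⟨c1, c2, -, -⟩ := hAm _ hx.2.1
    obtain ⟨d1, d2, -, -⟩ := hAm _ hx.2.2
    have p1 : 0 < Nat.lcm x.1.1 x.1.2 := Nat.lcm_pos a1 b1
    have p2 : 0 < Nat.lcm x.2.1 x.2.2 := Nat.lcm_pos c1 d1
    rw [mem_Icc]
    refine ⟨Nat.lcm_pos p1 p2, ?_⟩
    calc g x ≤ Nat.lcm x.1.1 x.1.2 * Nat.lcm x.2.1 x.2.2 := hlcm_le _ _ p1 p2
      _ ≤ (x.1.1 * x.1.2) * (x.2.1 * x.2.2) := Nat.mul_le_mul (hlcm_le _ _ a1 b1) (hlcm_le _ _ c1 d1)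
      _ ≤ (R * R) * (R * R) := Nat.mul_le_mul (Nat.mul_le_mul a2 b2) (Nat.mul_le_mul c2 d2)
      _ = R ^ 4 := by ring
  have e1 : ∑ i ∈ A ×ˢ A, ∑ k ∈ A ×ˢ A, 1 / ((Nat.lcm (Nat.lcm i.1 i.2) (Nat.lcm k.1 k.2) : ℕ) : ℝ) =
      ∑ x ∈ (A ×ˢ A) ×ˢ (A ×ˢ A), 1 / ((g x : ℕ) : ℝ) :=
    (sum_product (A ×ˢ A) (A ×ˢ A) (fun x => 1 / ((g x : ℕ) : ℝ))).symm
  rw [e1, ← sum_fiberwise_of_maps_to hgle]
  set B := Real.exp (4 * (Real.log 2 * (4 * Real.log R / Real.log q))) with hB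
  have hB0 : 0 < B := Real.exp_pos _
  have hfib : ∀ L ∈ Icc 1 (R ^ 4), ∑ x ∈ ((A ×ˢ A) ×ˢ (A ×ˢ A)).filter (fun x => g x = L),
      1 / ((g x : ℕ) : ℝ) ≤ B * (1 / (L : ℝ)) := by
    intro L hL
    rw [mem_Icc] at hL
    have hL0 : (0 : ℝ) < L := by exact_mod_cast hL.1
    have e2 : ∑ x ∈ ((A ×ˢ A) ×ˢ (A ×ˢ A)).filter (fun x => g x = L), 1 / ((g x : ℕ) : ℝ) =
        ((((A ×ˢ A) ×ˢ (A ×ˢ A)).filter (fun x => g x = L)).card : ℝ) * (1 / (L : ℝ)) := by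
      rw [← nsmul_eq_mul, ← sum_const]
      refine sum_congr rfl fun x hx => ?_
      rw [(mem_filter.1 hx).2]
    rw [e2]
    refine mul_le_mul_of_nonneg_right ?_ (by positivity)
    rcases (((A ×ˢ A) ×ˢ (A ×ˢ A)).filter (fun x => g x = L)).eq_empty_or_nonempty with h0 | ⟨y, hy⟩
    · rw [h0, card_empty, Nat.cast_zero]
      exact hB0.le
    · rw [mem_filter] at hy
      have hLd : L ∣ ∏ p ∈ Pr, p := hy.2 ▸ hgd y hy.1
      obtain ⟨hsq, hpr⟩ := (Pool.Agent.Y328.RSZ.dvd_iff Pr hPrp L).1 hLd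
      have hsub : ((A ×ˢ A) ×ˢ (A ×ˢ A)).filter (fun x => g x = L) ⊆
          (Nat.divisors L ×ˢ Nat.divisors L) ×ˢ (Nat.divisors L ×ˢ Nat.divisors L) := by
        intro x hx
        rw [mem_filter] at hx
        have hLne : L ≠ 0 := by omega
        have d1 : Nat.lcm x.1.1 x.1.2 ∣ L := hx.2 ▸ Nat.dvd_lcm_left _ _
        have d2 : Nat.lcm x.2.1 x.2.2 ∣ L := hx.2 ▸ Nat.dvd_lcm_right _ _
        simp only [mem_product, Nat.mem_divisors]
        exact ⟨⟨⟨(Nat.dvd_lcm_left _ _).trans d1, hLne⟩, ⟨(Nat.dvd_lcm_right _ _).trans d1, hLne⟩⟩,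
          ⟨⟨(Nat.dvd_lcm_left _ _).trans d2, hLne⟩, ⟨(Nat.dvd_lcm_right _ _).trans d2, hLne⟩⟩⟩
      have hc := card_le_card hsub
      rw [card_product, card_product] at hc
      have hlogL : Real.log L ≤ 4 * Real.log R := by
        have h5 : (L : ℝ) ≤ (R : ℝ) ^ 4 := by exact_mod_cast hL.2
        calc Real.log L ≤ Real.log ((R : ℝ) ^ 4) := Real.log_le_log hL0 h5
          _ = 4 * Real.log R := by rw [Real.log_pow]; norm_num
      have hd := card_div_le hq hsq (fun p hp hpL => by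
        have h6 := hpr p hp hpL
        rw [hPr, mem_filter, mem_Ioc] at h6
        exact h6.1.1) hlogL
      have h7 : ((((A ×ˢ A) ×ˢ (A ×ˢ A)).filter (fun x => g x = L)).card : ℝ) ≤
          ((Nat.divisors L).card : ℝ) ^ 4 := by
        have h8 : (((A ×ˢ A) ×ˢ (A ×ˢ A)).filter (fun x => g x = L)).card ≤
            (Nat.divisors L).card ^ 4 := by
          refine hc.trans (le_of_eq ?_)
          ring
        exact_mod_cast h8
      refine h7.trans ?_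
      calc ((Nat.divisors L).card : ℝ) ^ 4 ≤ (Real.exp (Real.log 2 * (4 * Real.log R / Real.log q))) ^ 4 := by
            gcongr
        _ = B := by
            rw [hB, ← Real.exp_nat_mul]
            norm_num
  calc ∑ L ∈ Icc 1 (R ^ 4), ∑ x ∈ ((A ×ˢ A) ×ˢ (A ×ˢ A)).filter (fun x => g x = L), 1 / ((g x : ℕ) : ℝ)
      ≤ ∑ L ∈ Icc 1 (R ^ 4), B * (1 / (L : ℝ)) := sum_le_sum hfib
    _ = B * ∑ L ∈ Icc 1 (R ^ 4), (1 / (L : ℝ)) := by rw [mul_sum]
    _ ≤ B * (1 + 4 * Real.log R) := by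
        refine mul_le_mul_of_nonneg_left ?_ hB0.le
        have h1 := harmonic_le_one_add_log (R ^ 4)
        rw [harmonic_eq_sum_Icc] at h1
        push_cast at h1
        rw [Real.log_pow] at h1
        simp only [one_div]
        push_cast at h1
        exact h1

end Pool.Agent.Run7.h129.LG
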