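import Mathlib
import Pool.Agent.N176.GP.Pair
import Pool.Agent.Run7.h129.LG.Per
import Pool.Agent.Run7.h129.LG.Sel

set_option autoImplicit false

/-!
# Integers with prime rough part in almost all cells: an upper bound with an absolute constant

For almost all the cells of length `b ^ (q - z) ≥ b ^ (ε q)` the number of the integers with prime
`q`-rough part is at most `C (log q / q) b ^ (q - z)`, where `C` does not depend on `ε`.
-/

namespace Pool.Agent.Run7.h129.LG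

open Finset Filter Topology
open Pool.Agent.H305R2 (VV VV_tendsto log_nat_tendsto roughPart ZZ ZZ_nonneg ZZ_le_exp)
open Pool.Agent.N176.GP (cnt XX XX_nonneg cnt_eq sum_cells sum_div bexp)
open Pool.Agent.W66 (large_smooth_count no_mid_prime)

/-- the sieve weight -/
noncomputable def aw (lam : ℕ → ℝ) (R n : ℕ) : ℝ := (∑ d ∈ (Icc 1 R).filter (fun d => d ∣ n), lam d) ^ 2

lemma aw_nonneg (lam : ℕ → ℝ) (R n : ℕ) : 0 ≤ aw lam R n := sq_nonneg _

lemma aw_one {lam : ℕ → ℝ} {q R : ℕ} {M : ℝ} (h : Wt lam q R M) (hR : 1 ≤ R) {n : ℕ}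
    (hn : ∀ l : ℕ, l.Prime → q < l → l ≤ R → ¬ l ∣ n) : aw lam R n = 1 := by
  unfold aw
  have e : ∑ d ∈ (Icc 1 R).filter (fun d => d ∣ n), lam d = lam 1 := by
    refine sum_eq_single_of_mem 1 (by rw [mem_filter, mem_Icc]; exact ⟨⟨le_rfl, hR⟩, one_dvd n⟩) ?_
    intro d hd hd1
    by_contra hne
    obtain ⟨h1, h2, h3, h4⟩ := h.supp d hne
    obtain ⟨l, hl, hld⟩ := Nat.exists_prime_and_dvd hd1
    rw [mem_filter] at hd
    exact hn l hl (h4 l hl hld) ((Nat.le_of_dvd (by omega) hld).trans h2) (hld.trans hd.2)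
  rw [e, h.one, one_pow]

/-- the sums of the sieve weight over a cell -/
lemma aw_cell {lam : ℕ → ℝ} {R H j : ℕ} (A : Finset ℕ)
    (hA : A = (Icc 1 R).filter (fun d => lam d ≠ 0)) :
    ∑ n ∈ Ico (j * H) ((j + 1) * H), aw lam R n =
      ∑ i ∈ A ×ˢ A, (lam i.1 * lam i.2) * (cD H (Nat.lcm i.1 i.2) (j * H) : ℝ) := by
  classical
  have e0 : ∀ n, aw lam R n = ∑ i ∈ A ×ˢ A, (lam i.1 * lam i.2) * (if Nat.lcm i.1 i.2 ∣ n then 1 else 0) := by
    intro n
    unfold aw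
    have e1 : ∑ d ∈ (Icc 1 R).filter (fun d => d ∣ n), lam d =
        ∑ d ∈ A, if d ∣ n then lam d else 0 := by
      rw [hA, sum_filter, sum_filter]
      refine sum_congr rfl fun d _ => ?_
      by_cases h1 : lam d ≠ 0
      · rw [if_pos h1]
      · rw [if_neg h1]
        push Not at h1
        rw [h1]
        simp
    rw [e1, sq, sum_mul_sum, sum_product]
    refine sum_congr rfl fun d _ => sum_congr rfl fun e _ => ?_
    by_cases h1 : d ∣ n
    · by_cases h2 : e ∣ n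
      · rw [if_pos h1, if_pos h2, if_pos (Nat.lcm_dvd h1 h2), mul_one]
      · rw [if_pos h1, if_neg h2, if_neg (fun h => h2 ((Nat.dvd_lcm_right d e).trans h)), mul_zero,
          mul_zero]
    · rw [if_neg h1, if_neg (fun h => h1 ((Nat.dvd_lcm_left d e).trans h)), mul_zero, zero_mul]
  simp only [e0]
  rw [sum_comm]
  refine sum_congr rfl fun i _ => ?_
  rw [← mul_sum]
  congr 1
  unfold cD
  rw [card_filter]
  push_cast
  have e2 : (j + 1) * H = j * H + H := by ring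
  rw [e2, Finset.sum_Ico_eq_sum_range, Nat.add_sub_cancel_left]

/-- the deviations from the mean -/
lemma dev {lam : ℕ → ℝ} {q R : ℕ} {M : ℝ} (h : Wt lam q R M) {b : ℕ} (hb : 2 ≤ b) (hbq : b ≤ q)
    (hR : 1 ≤ R) (k J : ℕ) {H : ℕ} (hH : H = b ^ k) :
    ∑ j ∈ range J, |∑ n ∈ Ico (j * H) ((j + 1) * H), aw lam R n - M * H| ≤
      √(J * ((J : ℝ) * H * (Real.exp (4 * (Real.log 2 * (4 * Real.log R / Real.log q))) *
        (1 + 4 * Real.log R)) + (R : ℝ) ^ 8)) := by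
  classical
  obtain ⟨A, hA⟩ : ∃ A : Finset ℕ, A = (Icc 1 R).filter (fun d => lam d ≠ 0) := ⟨_, rfl⟩
  have hAm : ∀ d ∈ A, 1 ≤ d ∧ d ≤ R ∧ Squarefree d ∧ ∀ p : ℕ, p.Prime → p ∣ d → q < p := by
    intro d hd
    rw [hA, mem_filter] at hd
    exact h.supp d hd.2
  have hcop : ∀ d ∈ A, Nat.Coprime H d := by
    intro d hd
    rw [hH]
    refine Nat.Coprime.pow_left k ?_
    rw [Nat.coprime_iff_gcd_eq_one]
    by_contra hne
    obtain ⟨p, hp, hpd⟩ := Nat.exists_prime_and_dvd hne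
    have h1 := (hAm d hd).2.2.2 p hp (hpd.trans (Nat.gcd_dvd_right b d))
    have h2 := Nat.le_of_dvd (by omega) (hpd.trans (Nat.gcd_dvd_left b d))
    omega
  have hlpos : ∀ i ∈ A ×ˢ A, 0 < Nat.lcm i.1 i.2 := by
    intro i hi
    rw [mem_product] at hi
    exact Nat.lcm_pos (hAm _ hi.1).1 (hAm _ hi.2).1
  have hMe : ∑ i ∈ A ×ˢ A, (lam i.1 * lam i.2) / (Nat.lcm i.1 i.2 : ℕ) = M := by
    rw [← h.form, sum_product, hA, sum_filter]
    refine sum_congr rfl fun d _ => ?_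
    by_cases h1 : lam d ≠ 0
    · rw [if_pos h1, sum_filter]
      refine sum_congr rfl fun e _ => ?_
      by_cases h2 : lam e ≠ 0
      · rw [if_pos h2]
      · rw [if_neg h2]
        push Not at h2
        rw [h2]
        simp
    · rw [if_neg h1]
      push Not at h1
      rw [h1]
      simp
  have hdev : ∀ j, ∑ n ∈ Ico (j * H) ((j + 1) * H), aw lam R n - M * H =
      ∑ i ∈ A ×ˢ A, (lam i.1 * lam i.2) * fD H (Nat.lcm i.1 i.2) (j * H) := by
    intro j
    rw [aw_cell A hA, ← hMe, sum_mul, ← sum_sub_distrib]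
    refine sum_congr rfl fun i _ => ?_
    unfold fD
    ring
  have hvar := variance (A ×ˢ A) (fun i => lam i.1 * lam i.2) (fun i => Nat.lcm i.1 i.2) H J hlpos
    (fun i hi => by
      rw [mem_product] at hi
      exact Nat.Coprime.coprime_dvd_right (Nat.lcm_dvd_mul i.1 i.2)
        (Nat.Coprime.mul_right (hcop _ hi.1) (hcop _ hi.2)))
  have hq2 : 2 ≤ q := hb.trans hbq
  have hquad := quad h hq2 hR A hA
  have hR1 : (1 : ℝ) ≤ R := by exact_mod_cast hR
  have hlcm_le : ∀ a c : ℕ, 1 ≤ a → 1 ≤ c → Nat.lcm a c ≤ a * c := by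
    intro a c ha hc
    exact Nat.le_of_dvd (by positivity) (Nat.lcm_dvd_mul a c)
  have hbound : ∑ i ∈ A ×ˢ A, ∑ k ∈ A ×ˢ A, |lam i.1 * lam i.2| * |lam k.1 * lam k.2| *
        ((J : ℝ) * H / (Nat.lcm (Nat.lcm i.1 i.2) (Nat.lcm k.1 k.2) : ℕ) +
          (Nat.lcm (Nat.lcm i.1 i.2) (Nat.lcm k.1 k.2) : ℕ)) ≤
      (J : ℝ) * H * (Real.exp (4 * (Real.log 2 * (4 * Real.log R / Real.log q))) *
        (1 + 4 * Real.log R)) + (R : ℝ) ^ 8 := by
    have h1 : ∀ i ∈ A ×ˢ A, ∀ k ∈ A ×ˢ A, |lam i.1 * lam i.2| * |lam k.1 * lam k.2| *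
        ((J : ℝ) * H / (Nat.lcm (Nat.lcm i.1 i.2) (Nat.lcm k.1 k.2) : ℕ) +
          (Nat.lcm (Nat.lcm i.1 i.2) (Nat.lcm k.1 k.2) : ℕ)) ≤
        (J : ℝ) * H * (1 / ((Nat.lcm (Nat.lcm i.1 i.2) (Nat.lcm k.1 k.2) : ℕ) : ℝ)) + (R : ℝ) ^ 4 := by
      intro i hi k hk
      have hi' := mem_product.1 hi
      have hk' := mem_product.1 hk
      have hw : ∀ x : ℕ × ℕ, |lam x.1 * lam x.2| ≤ 1 := by
        intro x
        rw [abs_mul]
        have h1 := h.le x.1
        have h2 := h.le x.2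
        have h3 := abs_nonneg (lam x.1)
        have h4 := abs_nonneg (lam x.2)
        nlinarith
      have hL : ((Nat.lcm (Nat.lcm i.1 i.2) (Nat.lcm k.1 k.2) : ℕ) : ℝ) ≤ (R : ℝ) ^ 4 := by
        have : Nat.lcm (Nat.lcm i.1 i.2) (Nat.lcm k.1 k.2) ≤ R ^ 4 := by
          calc Nat.lcm (Nat.lcm i.1 i.2) (Nat.lcm k.1 k.2) ≤ Nat.lcm i.1 i.2 * Nat.lcm k.1 k.2 :=
                hlcm_le _ _ (hlpos i hi) (hlpos k hk)
            _ ≤ (i.1 * i.2) * (k.1 * k.2) := Nat.mul_le_mul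
                (hlcm_le _ _ (hAm _ hi'.1).1 (hAm _ hi'.2).1) (hlcm_le _ _ (hAm _ hk'.1).1 (hAm _ hk'.2).1)
            _ ≤ (R * R) * (R * R) := Nat.mul_le_mul
                (Nat.mul_le_mul (hAm _ hi'.1).2.1 (hAm _ hi'.2).2.1)
                (Nat.mul_le_mul (hAm _ hk'.1).2.1 (hAm _ hk'.2).2.1)
            _ = R ^ 4 := by ring
        exact_mod_cast this
      have hX : 0 ≤ (J : ℝ) * H / (Nat.lcm (Nat.lcm i.1 i.2) (Nat.lcm k.1 k.2) : ℕ) +
          (Nat.lcm (Nat.lcm i.1 i.2) (Nat.lcm k.1 k.2) : ℕ) := by positivity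
      calc _ ≤ 1 * ((J : ℝ) * H / (Nat.lcm (Nat.lcm i.1 i.2) (Nat.lcm k.1 k.2) : ℕ) +
          (Nat.lcm (Nat.lcm i.1 i.2) (Nat.lcm k.1 k.2) : ℕ)) := by
            refine mul_le_mul_of_nonneg_right ?_ hX
            have h1 := hw i
            have h2 := hw k
            have h3 := abs_nonneg (lam i.1 * lam i.2)
            have h4 := abs_nonneg (lam k.1 * lam k.2)
            nlinarith
        _ ≤ _ := by
            rw [one_mul, mul_one_div]
            exact add_le_add le_rfl hL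
    refine (sum_le_sum fun i hi => sum_le_sum fun k hk => h1 i hi k hk).trans ?_
    simp only [sum_add_distrib, ← mul_sum]
    refine add_le_add (mul_le_mul_of_nonneg_left hquad (by positivity)) ?_
    rw [sum_const, sum_const, nsmul_eq_mul, nsmul_eq_mul]
    have hcA : (A.card : ℝ) ≤ R := by
      have h2 : A.card ≤ R := by
        calc A.card ≤ (Icc 1 R).card := by rw [hA]; exact card_filter_le _ _
          _ = R := by rw [Nat.card_Icc]; omega
      exact_mod_cast h2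
    rw [card_product]
    push_cast
    have h3 : (0 : ℝ) ≤ A.card := Nat.cast_nonneg _
    calc (A.card : ℝ) * A.card * ((A.card : ℝ) * A.card * (R : ℝ) ^ 4)
        ≤ (R : ℝ) * R * ((R : ℝ) * R * (R : ℝ) ^ 4) := by gcongr
      _ = (R : ℝ) ^ 8 := by ring
  set V := (J : ℝ) * H * (Real.exp (4 * (Real.log 2 * (4 * Real.log R / Real.log q))) *
        (1 + 4 * Real.log R)) + (R : ℝ) ^ 8 with hV
  refine Real.le_sqrt_of_sq_le ?_
  have hcs := sq_sum_le_card_mul_sum_sq (s := range J)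
    (f := fun j => |∑ n ∈ Ico (j * H) ((j + 1) * H), aw lam R n - M * H|)
  rw [card_range] at hcs
  refine hcs.trans ?_
  refine mul_le_mul_of_nonneg_left ?_ (Nat.cast_nonneg _)
  refine le_trans (le_of_eq ?_) (hvar.trans hbound)
  refine sum_congr rfl fun j _ => ?_
  rw [sq_abs, hdev]

end Pool.Agent.Run7.h129.LG
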