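import Mathlib
import Pool.Agent.Run7.h129.LG.UB

set_option autoImplicit false

/-!
# The upper bound in almost all cells
-/

namespace Pool.Agent.Run7.h129.LG

open Finset Filter Topology
open Pool.Agent.H305R2 (VV VV_tendsto log_nat_tendsto roughPart ZZ ZZ_nonneg ZZ_le_exp)
open Pool.Agent.N176.GP (cnt XX XX_nonneg cnt_eq sum_cells sum_div bexp grow)
open Pool.Agent.W66 (large_smooth_count no_mid_prime)

lemma sum_cells' (B a c : ℕ) (hac : a ≤ c) (g : ℕ → ℝ) :
    ∑ j ∈ Ico a c, ∑ n ∈ Ico (j * B) ((j + 1) * B), g n = ∑ n ∈ Ico (a * B) (c * B), g n := by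
  induction c, hac using Nat.le_induction with
  | base => simp
  | succ c hac ih =>
    rw [Finset.sum_Ico_succ_top hac, ih,
      ← Finset.sum_Ico_consecutive g (Nat.mul_le_mul_right B hac) (Nat.mul_le_mul_right B (Nat.le_succ c))]

/-- the logarithm is small -/
lemma log_small (a : ℝ) (ha : 0 < a) : ∀ᶠ q : ℕ in atTop, Real.log q ≤ a * q := by
  have h := (Real.isLittleO_log_id_atTop.bound ha)
  filter_upwards [tendsto_natCast_atTop_atTop.eventually h, eventually_ge_atTop 1] with q hq hq1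
  have h1 : 0 ≤ Real.log q := Real.log_natCast_nonneg q
  rw [Real.norm_of_nonneg h1] at hq
  simpa using hq

lemma log_large (a : ℝ) : ∀ᶠ q : ℕ in atTop, a ≤ Real.log q := log_nat_tendsto.eventually_ge_atTop a

lemma mul_large (a : ℝ) (ha : 0 < a) (C : ℝ) : ∀ᶠ q : ℕ in atTop, C ≤ a * q := by
  have h := ((tendsto_natCast_atTop_atTop (R := ℝ)).const_mul_atTop ha)
  exact h.eventually_ge_atTop C

/-- a bound for each cell -/
lemma cell_bound {b : ℕ} (hb : 2 ≤ b) {lam : ℕ → ℝ} {q R z : ℕ} {M S D : ℝ} (h : Wt lam q R M)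
    (hR : 1 ≤ R) (hM : M ≤ D) (j : ℕ) :
    max 0 ((cnt b z j q : ℝ) - D * (b : ℝ) ^ (q - z)) ≤
      |∑ n ∈ Ico (j * b ^ (q - z)) ((j + 1) * b ^ (q - z)), aw lam R n - M * (b ^ (q - z) : ℕ)| +
      ∑ n ∈ Ico (j * b ^ (q - z)) ((j + 1) * b ^ (q - z)),
        ((if (roughPart q n).Prime ∧ S ≤ ((n / roughPart q n : ℕ) : ℝ) then (1 : ℝ) else 0) +
          (if (n : ℝ) < R * S then (1 : ℝ) else 0)) := by
  classical
  set H := b ^ (q - z) with hH
  have hHr : ((b ^ (q - z) : ℕ) : ℝ) = (b : ℝ) ^ (q - z) := by push_cast; rfl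
  have hH0 : (0 : ℝ) ≤ (b : ℝ) ^ (q - z) := by positivity
  have hpt : ∀ n, XX q n ≤ aw lam R n +
      ((if (roughPart q n).Prime ∧ S ≤ ((n / roughPart q n : ℕ) : ℝ) then (1 : ℝ) else 0) +
          (if (n : ℝ) < R * S then (1 : ℝ) else 0)) := by
    intro n
    have ha := aw_nonneg lam R n
    unfold XX
    by_cases h1 : (roughPart q n).Prime
    · rw [if_pos h1]
      rcases lt_or_ge ((n / roughPart q n : ℕ) : ℝ) S with h2 | h2
      · rcases lt_or_ge (n : ℝ) (R * S) with h3 | h3
        · rw [if_pos h3]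
          split_ifs <;> linarith
        · have h4 := aw_one h hR (n := n) (fun l hl hql hlR =>
            no_mid_prime h1 h2 h3 hl hql (by exact_mod_cast hlR))
          rw [h4]
          split_ifs <;> linarith
      · rw [if_pos (And.intro h1 h2)]
        split_ifs <;> linarith
    · rw [if_neg h1]
      split_ifs <;> linarith
  rw [cnt_eq]
  have h5 : ∑ n ∈ Ico (j * H) ((j + 1) * H), XX q n ≤
      ∑ n ∈ Ico (j * H) ((j + 1) * H), aw lam R n +
      ∑ n ∈ Ico (j * H) ((j + 1) * H),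
        ((if (roughPart q n).Prime ∧ S ≤ ((n / roughPart q n : ℕ) : ℝ) then (1 : ℝ) else 0) +
          (if (n : ℝ) < R * S then (1 : ℝ) else 0)) := by
    rw [← sum_add_distrib]
    exact sum_le_sum fun n _ => hpt n
  have h6 : 0 ≤ ∑ n ∈ Ico (j * H) ((j + 1) * H),
        ((if (roughPart q n).Prime ∧ S ≤ ((n / roughPart q n : ℕ) : ℝ) then (1 : ℝ) else 0) +
          (if (n : ℝ) < R * S then (1 : ℝ) else 0)) := by
    refine sum_nonneg fun n _ => ?_
    split_ifs <;> norm_num
  have h7 : M * (H : ℕ) ≤ D * (b : ℝ) ^ (q - z) := by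
    rw [hHr]
    exact mul_le_mul_of_nonneg_right hM hH0
  have h8 := le_abs_self (∑ n ∈ Ico (j * H) ((j + 1) * H), aw lam R n - M * (H : ℕ))
  have h9 := abs_nonneg (∑ n ∈ Ico (j * H) ((j + 1) * H), aw lam R n - M * (H : ℕ))
  exact max_le (by linarith) (by linarith)

theorem ub {b : ℕ} (hb : 2 ≤ b) : ∃ C : ℝ, 0 < C ∧ ∀ ε : ℝ, 0 < ε → ε ≤ 1 → ∃ δ : ℝ, 0 < δ ∧
    ∃ P : ℕ, ∀ q ≥ P, ∀ z : ℕ, (z : ℝ) ≤ (1 - ε) * q → ∀ m : ℕ, (m : ℝ) ≤ δ * q →
    ∑ j ∈ Ico 1 (b ^ (z + m)), max 0 ((cnt b z j q : ℝ) - C * (Real.log q / q) * (b : ℝ) ^ (q - z)) ≤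
      (b : ℝ) ^ q * Real.exp (-(δ * q)) := by
  classical
  obtain ⟨C1, hC1, P1, hw⟩ := weights
  have hL0 : 0 < Real.log b := Real.log_pos (by exact_mod_cast hb)
  set L := Real.log b with hL
  refine ⟨32 * C1 / L, by positivity, fun ε hε hε1 => ?_⟩
  set δ := L * ε / (16 * (3 + L)) with hδ
  have hδ0 : 0 < δ := by positivity
  have hδe : δ * (3 + L) = L * ε / 16 := by rw [hδ]; field_simp
  refine ⟨δ, hδ0, ?_⟩
  obtain ⟨P, hP⟩ := ((eventually_ge_atTop (max P1 b)).and ((grow (L / 16) 1 (by positivity)).and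
    ((mul_large (L / 32) (by positivity) (Real.log 2)).and ((log_large (Real.log 2 * L / δ)).and
    ((grow δ (2 + L) hδ0).and ((ZZ_le_exp hδ0).and (mul_large δ hδ0 5))))))).exists_forall_of_atTop
  refine ⟨P, fun q hq z hz m hm => ?_⟩
  obtain ⟨g1, g2, g3, g4, g5, g6, g7⟩ := hP q hq
  have hqP1 : P1 ≤ q := (le_max_left _ _).trans g1
  have hqb : b ≤ q := (le_max_right _ _).trans g1
  have hq2 : 2 ≤ q := hb.trans hqb
  have hq2r : (2 : ℝ) ≤ q := by exact_mod_cast hq2
  have hq0 : (0 : ℝ) < q := by linarith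
  have hz0 : (0 : ℝ) ≤ z := Nat.cast_nonneg z
  have hm0 : (0 : ℝ) ≤ m := Nat.cast_nonneg m
  have hzq : z ≤ q := by
    have : (z : ℝ) ≤ q := by nlinarith
    exact_mod_cast this
  -- the level of the sieve
  set R := ⌊Real.exp (L / 16 * q)⌋₊ with hRdef
  have hRle : (R : ℝ) ≤ Real.exp (L / 16 * q) := Nat.floor_le (Real.exp_pos _).le
  have hRgt : Real.exp (L / 16 * q) < R + 1 := Nat.lt_floor_add_one _
  have hqR : q ≤ R := by
    rw [hRdef, Nat.le_floor_iff (Real.exp_pos _).le]
    nlinarith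
  have hR1 : 1 ≤ R := by omega
  have hR1r : (1 : ℝ) ≤ R := by exact_mod_cast hR1
  have hlogR1 : Real.log R ≤ L / 16 * q := by
    rw [Real.log_le_iff_le_exp (by linarith)]
    exact hRle
  have hlogR2 : L / 32 * q ≤ Real.log R := by
    rw [Real.le_log_iff_exp_le (by linarith)]
    have h1 : Real.exp (L / 16 * q) = Real.exp (L / 32 * q) * Real.exp (L / 32 * q) := by
      rw [← Real.exp_add]; congr 1; ring
    have h2 : 2 ≤ Real.exp (L / 32 * q) := by
      calc (2 : ℝ) = Real.exp (Real.log 2) := (Real.exp_log two_pos).symm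
        _ ≤ _ := Real.exp_le_exp.2 g3
    nlinarith
  obtain ⟨lam, M, hWt, hM⟩ := hw q hqP1 R hqR
  have hlq : 0 < Real.log q := Real.log_pos (by linarith)
  have hMD : M ≤ 32 * C1 / L * (Real.log q / q) := by
    refine hM.trans ?_
    have h1 : 0 < L / 32 * q := by positivity
    calc C1 * (Real.log q / Real.log R) ≤ C1 * (Real.log q / (L / 32 * q)) := by gcongr
      _ = _ := by field_simp
  set S := Real.exp (L / 4 * q) with hS
  have hS0 : 0 < S := Real.exp_pos _
  set H := b ^ (q - z) with hH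
  set J := b ^ (z + m) with hJ
  have hJ1 : 1 ≤ J := Nat.one_le_pow _ _ (by omega)
  have hHr : (H : ℝ) = Real.exp (((q : ℝ) - z) * L) := by
    rw [hH]; push_cast; rw [bexp hb, Nat.cast_sub hzq]
  have hJr : (J : ℝ) = Real.exp (((z : ℝ) + m) * L) := by
    rw [hJ]; push_cast; rw [bexp hb]; push_cast; rfl
  have hbq : (b : ℝ) ^ q = Real.exp (q * L) := bexp hb q
  -- sum of the bounds for the cells
  have hstep : ∑ j ∈ Ico 1 J, max 0 ((cnt b z j q : ℝ) -
      32 * C1 / L * (Real.log q / q) * (b : ℝ) ^ (q - z)) ≤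
      ∑ j ∈ Ico 1 J, |∑ n ∈ Ico (j * H) ((j + 1) * H), aw lam R n - M * H| +
      ∑ n ∈ Ico (1 * H) (J * H),
        ((if (roughPart q n).Prime ∧ S ≤ ((n / roughPart q n : ℕ) : ℝ) then (1 : ℝ) else 0) +
          (if (n : ℝ) < R * S then (1 : ℝ) else 0)) := by
    rw [← sum_cells' H 1 J hJ1, ← sum_add_distrib]
    exact sum_le_sum fun j _ => cell_bound hb hWt hR1 hMD j
  refine hstep.trans ?_
  -- the first sum
  have hT1 : ∑ j ∈ Ico 1 J, |∑ n ∈ Ico (j * H) ((j + 1) * H), aw lam R n - M * H| ≤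
      2 * Real.exp (q * L - 2 * (δ * q)) := by
    have h1 : ∑ j ∈ Ico 1 J, |∑ n ∈ Ico (j * H) ((j + 1) * H), aw lam R n - M * H| ≤
        ∑ j ∈ range J, |∑ n ∈ Ico (j * H) ((j + 1) * H), aw lam R n - M * H| := by
      refine sum_le_sum_of_subset_of_nonneg ?_ fun _ _ _ => abs_nonneg _
      intro j hj
      rw [mem_Ico] at hj
      exact mem_range.2 hj.2
    refine h1.trans ((dev hWt hb hqb hR1 (q - z) J hH).trans ?_)
    rw [Real.sqrt_le_left (by positivity)]
    set E := Real.exp (4 * (Real.log 2 * (4 * Real.log R / Real.log q))) * (1 + 4 * Real.log R) with hE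
    have hE1 : E ≤ Real.exp (2 * (δ * q)) := by
      have h2 : 4 * (Real.log 2 * (4 * Real.log R / Real.log q)) ≤ δ * q := by
        have h3 : 4 * (Real.log 2 * (4 * Real.log R / Real.log q)) ≤
            4 * (Real.log 2 * (4 * (L / 16 * q) / Real.log q)) := by
          have := Real.log_nonneg (by norm_num : (1 : ℝ) ≤ 2)
          gcongr
        refine h3.trans ?_
        rw [div_le_iff₀ hδ0] at g4
        have h4 : 4 * (Real.log 2 * (4 * (L / 16 * q) / Real.log q)) = Real.log 2 * L * q / Real.log q := by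
          field_simp
          ring
        rw [h4, div_le_iff₀ hlq]
        nlinarith
      have h5 : 1 + 4 * Real.log R ≤ Real.exp (δ * q) := by
        refine le_trans ?_ g5
        nlinarith
      calc E ≤ Real.exp (δ * q) * Real.exp (δ * q) := by
            rw [hE]
            have h6 : 0 ≤ 1 + 4 * Real.log R := by
              have := Real.log_nonneg hR1r
              linarith
            exact mul_le_mul (Real.exp_le_exp.2 h2) h5 h6 (Real.exp_pos _).le
        _ = _ := by rw [← Real.exp_add]; congr 1; ring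
    have hR8 : (R : ℝ) ^ 8 ≤ Real.exp (L / 2 * q) := by
      calc (R : ℝ) ^ 8 ≤ (Real.exp (L / 16 * q)) ^ 8 := by gcongr
        _ = _ := by rw [← Real.exp_nat_mul]; congr 1; push_cast; ring
    have hA : (J : ℝ) * ((J : ℝ) * H * E) ≤ Real.exp (2 * (q * L - 2 * (δ * q))) := by
      calc (J : ℝ) * ((J : ℝ) * H * E) ≤ J * (J * H * Real.exp (2 * (δ * q))) := by gcongr
        _ = Real.exp (((z : ℝ) + m) * L + (((z : ℝ) + m) * L + ((q : ℝ) - z) * L + 2 * (δ * q))) := by
            rw [hJr, hHr, ← Real.exp_add, ← Real.exp_add, ← Real.exp_add]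
        _ ≤ _ := by
            rw [Real.exp_le_exp]
            have h7 : (z : ℝ) * L ≤ (1 - ε) * q * L := mul_le_mul_of_nonneg_right hz hL0.le
            have h8 : (m : ℝ) * L ≤ δ * q * L := mul_le_mul_of_nonneg_right hm hL0.le
            have h9 : δ * (3 + L) * q = L * ε / 16 * q := by rw [hδe]
            have h10 : 0 ≤ L * ε * q := by positivity
            have h11 : 0 ≤ δ * q := by positivity
            have h12 : 0 ≤ δ * q * L := by positivity
            nlinarith
    have hB : (J : ℝ) * (R : ℝ) ^ 8 ≤ Real.exp (2 * (q * L - 2 * (δ * q))) := by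
      calc (J : ℝ) * (R : ℝ) ^ 8 ≤ J * Real.exp (L / 2 * q) := by gcongr
        _ = Real.exp (((z : ℝ) + m) * L + L / 2 * q) := by rw [hJr, ← Real.exp_add]
        _ ≤ _ := by
            rw [Real.exp_le_exp]
            have h7 : (z : ℝ) * L ≤ (1 - ε) * q * L := mul_le_mul_of_nonneg_right hz hL0.le
            have h8 : (m : ℝ) * L ≤ δ * q * L := mul_le_mul_of_nonneg_right hm hL0.le
            have h9 : δ * (3 + L) * q = L * ε / 16 * q := by rw [hδe]
            have h10 : 0 ≤ L * ε * q := by positivity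
            have h11 : 0 ≤ δ * q := by positivity
            have h12 : 0 ≤ δ * q * L := by positivity
            have h13 : L * ε * q ≤ L * q := by nlinarith [mul_pos hL0 hq0]
            nlinarith
    have hC : (2 * Real.exp (q * L - 2 * (δ * q))) ^ 2 = 4 * Real.exp (2 * (q * L - 2 * (δ * q))) := by
      rw [mul_pow, ← Real.exp_nat_mul]
      push_cast
      norm_num
    rw [hC]
    have h14 := Real.exp_pos (2 * (q * L - 2 * (δ * q)))
    calc (J : ℝ) * ((J : ℝ) * H * E + (R : ℝ) ^ 8) = J * ((J : ℝ) * H * E) + J * (R : ℝ) ^ 8 := by ring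
      _ ≤ _ := by linarith
  -- the second sum
  have hT2 : ∑ n ∈ Ico (1 * H) (J * H),
        ((if (roughPart q n).Prime ∧ S ≤ ((n / roughPart q n : ℕ) : ℝ) then (1 : ℝ) else 0) +
          (if (n : ℝ) < R * S then (1 : ℝ) else 0)) ≤ 3 * Real.exp (q * L - 2 * (δ * q)) := by
    rw [sum_add_distrib]
    have h1 : ∑ n ∈ Ico (1 * H) (J * H),
        (if (roughPart q n).Prime ∧ S ≤ ((n / roughPart q n : ℕ) : ℝ) then (1 : ℝ) else 0) ≤
        Real.exp (q * L - 2 * (δ * q)) := by
      have hHpos : 0 < H := by positivity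
      have h2 : ∑ n ∈ Ico (1 * H) (J * H),
        (if (roughPart q n).Prime ∧ S ≤ ((n / roughPart q n : ℕ) : ℝ) then (1 : ℝ) else 0) ≤
          (((Icc 1 (J * H)).filter (fun n => (roughPart q n).Prime ∧
            S ≤ ((n / roughPart q n : ℕ) : ℝ))).card : ℝ) := by
        rw [← sum_filter, sum_const, nsmul_eq_mul, mul_one]
        have hsub : (Ico (1 * H) (J * H)).filter (fun n => (roughPart q n).Prime ∧
            S ≤ ((n / roughPart q n : ℕ) : ℝ)) ⊆ (Icc 1 (J * H)).filter (fun n => (roughPart q n).Prime ∧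
            S ≤ ((n / roughPart q n : ℕ) : ℝ)) := by
          intro n hn
          rw [mem_filter, mem_Ico] at hn
          rw [mem_filter, mem_Icc]
          exact ⟨by omega, hn.2⟩
        exact_mod_cast card_le_card hsub
      refine h2.trans ((large_smooth_count q (J * H) hS0).trans ?_)
      have h3 : S ^ (-(1 / 2) : ℝ) = Real.exp (-(L / 8 * q)) := by
        rw [hS, ← Real.exp_mul]; congr 1; ring
      rw [h3]
      push_cast
      calc (J : ℝ) * H * (Real.exp (-(L / 8 * q)) * ZZ q) ≤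
            J * H * (Real.exp (-(L / 8 * q)) * Real.exp (δ * q)) := by gcongr
        _ = Real.exp (((z : ℝ) + m) * L + ((q : ℝ) - z) * L + (-(L / 8 * q) + δ * q)) := by
            rw [hJr, hHr, ← Real.exp_add, ← Real.exp_add, ← Real.exp_add]
        _ ≤ _ := by
            rw [Real.exp_le_exp]
            have h8 : (m : ℝ) * L ≤ δ * q * L := mul_le_mul_of_nonneg_right hm hL0.le
            have h9 : δ * (3 + L) * q = L * ε / 16 * q := by rw [hδe]
            have h10 : 0 ≤ L * ε * q := by positivity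
            have h13 : L * ε * q ≤ L * q := by nlinarith [mul_pos hL0 hq0]
            nlinarith
    have h4 : ∑ n ∈ Ico (1 * H) (J * H), (if (n : ℝ) < R * S then (1 : ℝ) else 0) ≤
        2 * Real.exp (q * L - 2 * (δ * q)) := by
      rw [← sum_filter, sum_const, nsmul_eq_mul, mul_one]
      have hsub : (Ico (1 * H) (J * H)).filter (fun n : ℕ => (n : ℝ) < R * S) ⊆ range ⌈(R : ℝ) * S⌉₊ := by
        intro n hn
        rw [mem_filter] at hn
        rw [mem_range, Nat.lt_ceil]
        exact hn.2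
      have h5 := card_le_card hsub
      rw [card_range] at h5
      have h6 : ((⌈(R : ℝ) * S⌉₊ : ℕ) : ℝ) ≤ R * S + 1 := (Nat.ceil_lt_add_one (by positivity)).le
      have h7 : (R : ℝ) * S ≤ Real.exp (q * L - 2 * (δ * q)) := by
        calc (R : ℝ) * S ≤ Real.exp (L / 16 * q) * Real.exp (L / 4 * q) := by
              rw [hS]; gcongr
          _ = Real.exp (L / 16 * q + L / 4 * q) := (Real.exp_add _ _).symm
          _ ≤ _ := by
              rw [Real.exp_le_exp]
              have h9 : δ * (3 + L) * q = L * ε / 16 * q := by rw [hδe]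
              have h13 : L * ε * q ≤ L * q := by nlinarith [mul_pos hL0 hq0]
              have h12 : 0 ≤ δ * q * L := by positivity
              have h11 : 0 ≤ L * q := by positivity
              nlinarith
      have h8 : (1 : ℝ) ≤ Real.exp (q * L - 2 * (δ * q)) := by
        refine le_trans ?_ h7
        have : 1 ≤ S := Real.one_le_exp (by positivity)
        nlinarith
      have h9 : ((((Ico (1 * H) (J * H)).filter (fun n : ℕ => (n : ℝ) < R * S)).card : ℕ) : ℝ) ≤
          ((⌈(R : ℝ) * S⌉₊ : ℕ) : ℝ) := by exact_mod_cast h5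
      linarith
    linarith
  have hfin : 5 * Real.exp (q * L - 2 * (δ * q)) ≤ (b : ℝ) ^ q * Real.exp (-(δ * q)) := by
    rw [hbq, ← Real.exp_add]
    have e : q * L + -(δ * q) = (q * L - 2 * (δ * q)) + δ * q := by ring
    rw [e, Real.exp_add, mul_comm]
    refine mul_le_mul_of_nonneg_left ?_ (Real.exp_pos _).le
    have := Real.add_one_le_exp (δ * q)
    linarith
  linarith

end Pool.Agent.Run7.h129.LG
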