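import Mathlib
import Pool.Agent.Run7.h129.LG.UB2

set_option autoImplicit false

/-!
# Decoupling: an event of lower level and an exponent
-/

namespace Pool.Agent.Run7.h129.LG

open Finset Filter Topology
open Pool.Agent.H305R2 (roughPart)
open Pool.Agent.N176.GP (cnt XX XX_nonneg cnt_eq bexp)

/-- the integers of level `t` in the cell of level `z` with number `j` -/
def cel (b z t j : ℕ) : Finset ℕ := Ico (j * b ^ (t - z)) ((j + 1) * b ^ (t - z))

lemma cel_card (b z t j : ℕ) : (cel b z t j).card = b ^ (t - z) := by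
  unfold cel
  rw [Nat.card_Ico, add_mul, one_mul]
  omega

lemma cel_div {b : ℕ} (hb : 2 ≤ b) {u t m n : ℕ} (hn : n ∈ cel b u t m) : n / b ^ (t - u) = m := by
  unfold cel at hn
  rw [mem_Ico] at hn
  have hB : 0 < b ^ (t - u) := by positivity
  rw [Nat.div_eq_iff hB]
  constructor
  · exact hn.1
  · have := hn.2
    rw [add_mul, one_mul] at this
    omega

lemma mem_cel {b : ℕ} (hb : 2 ≤ b) {u t n : ℕ} : n ∈ cel b u t (n / b ^ (t - u)) := by
  unfold cel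
  rw [mem_Ico]
  have hB : 0 < b ^ (t - u) := by positivity
  exact ⟨Nat.div_mul_le_self _ _, by
    have := Nat.lt_div_mul_add hB (a := n)
    rw [add_mul, one_mul]
    exact this⟩

lemma cel_sum {b z u t : ℕ} (hzu : z ≤ u) (hut : u ≤ t) (j : ℕ) (g : ℕ → ℝ) :
    ∑ n ∈ cel b z t j, g n = ∑ m ∈ cel b z u j, ∑ n ∈ cel b u t m, g n := by
  have e : b ^ (t - z) = b ^ (u - z) * b ^ (t - u) := by rw [← pow_add]; congr 1; omega
  unfold cel
  rw [sum_cells' _ _ _ (Nat.mul_le_mul_right _ (Nat.le_succ j)), e, ← mul_assoc, ← mul_assoc]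

lemma sum_cel_div {b : ℕ} (hb : 2 ≤ b) {z u t : ℕ} (hzu : z ≤ u) (hut : u ≤ t) (j : ℕ) (g : ℕ → ℝ) :
    ∑ n ∈ cel b z t j, g (n / b ^ (t - u)) = (b : ℝ) ^ (t - u) * ∑ m ∈ cel b z u j, g m := by
  rw [cel_sum hzu hut, mul_sum]
  refine sum_congr rfl fun m _ => ?_
  rw [sum_congr rfl fun n hn => by rw [cel_div hb hn], sum_const, cel_card, nsmul_eq_mul]
  push_cast
  rfl

lemma cel_range {b : ℕ} (hb : 2 ≤ b) {z u j m : ℕ} (hzu : z ≤ u) (hj1 : 1 ≤ j) (hj2 : j ≤ b ^ (2 * z))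
    (hm : m ∈ cel b z u j) : 1 ≤ m ∧ m < b ^ (u + (z + 1)) := by
  unfold cel at hm
  rw [mem_Ico] at hm
  have hB : 0 < b ^ (u - z) := by positivity
  have h1 : 1 ≤ j * b ^ (u - z) := Nat.mul_pos hj1 hB
  have h2 : (j + 1) * b ^ (u - z) ≤ b ^ (u + (z + 1)) := by
    have h3 : 1 ≤ b ^ (2 * z) := Nat.one_le_pow _ _ (by omega)
    calc (j + 1) * b ^ (u - z) ≤ (b * b ^ (2 * z)) * b ^ (u - z) := by
          refine Nat.mul_le_mul_right _ ?_
          nlinarith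
      _ = b ^ (u + (z + 1)) := by
          rw [← pow_succ', ← pow_add]
          congr 1
          omega
  omega

/-- an event of level `z ≤ (1 - ε) q` and the exponent `q` -/
theorem dec {b : ℕ} (hb : 2 ≤ b) : ∃ C : ℝ, 0 < C ∧ ∀ ε : ℝ, 0 < ε → ε ≤ 1 → ∃ δ : ℝ, 0 < δ ∧
    ∃ K P : ℕ, 1 ≤ K ∧ ∀ q ≥ P, ∀ z : ℕ, (z : ℝ) ≤ (1 - ε) * q → ∀ z0 : ℕ, K * z0 ≤ q → z0 ≤ z →
    ∀ j : ℕ, 1 ≤ j → j ≤ b ^ (2 * z0) → ∀ φ : ℕ → ℝ, (∀ n, 0 ≤ φ n) → (∀ n, φ n ≤ 1) →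
    ∀ t : ℕ, q ≤ t →
    ∑ n ∈ cel b z0 t j, φ (n / b ^ (t - z)) * XX q (n / b ^ (t - q)) ≤
      C * (Real.log q / q) * ∑ n ∈ cel b z0 t j, φ (n / b ^ (t - z)) +
        (b : ℝ) ^ (t - z0) * Real.exp (-(δ * q)) := by
  obtain ⟨C, hC, hub⟩ := ub hb
  refine ⟨C, hC, fun ε hε hε1 => ?_⟩
  obtain ⟨δ, hδ, P, hP⟩ := hub ε hε hε1
  have hL0 : 0 < Real.log b := Real.log_pos (by exact_mod_cast hb)
  set L := Real.log b with hL
  set K := ⌈2 * (L + 1) / δ⌉₊ with hK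
  have hKr : 2 * (L + 1) / δ ≤ K := Nat.le_ceil _
  have hK1 : 1 ≤ K := by
    rw [hK, Nat.one_le_ceil_iff]; positivity
  obtain ⟨P2, hP2⟩ := (mul_large (δ / 2) (by positivity) 1).exists_forall_of_atTop
  refine ⟨δ / 2, by positivity, K, max P P2, hK1, fun q hq z hz z0 hz0 hz0z j hj1 hj2 φ hφ0 hφ1 t ht => ?_⟩
  have hqP : P ≤ q := (le_max_left _ _).trans hq
  have hq2 := hP2 q ((le_max_right _ _).trans hq)
  have hq0 : (0 : ℝ) ≤ q := Nat.cast_nonneg q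
  have hzq : z ≤ q := by
    have h1 : (z : ℝ) ≤ q := by nlinarith
    exact_mod_cast h1
  have hz0r : (K : ℝ) * z0 ≤ q := by exact_mod_cast hz0
  have hz00 : (0 : ℝ) ≤ z0 := Nat.cast_nonneg z0
  have hKz : 2 * (L + 1) * z0 ≤ δ * q := by
    rw [div_le_iff₀ hδ] at hKr
    nlinarith
  have hBq : (0 : ℝ) < (b : ℝ) ^ (q - z) := by positivity
  -- reduction to the level `q`
  have e1 : ∑ n ∈ cel b z0 t j, φ (n / b ^ (t - z)) * XX q (n / b ^ (t - q)) =
      (b : ℝ) ^ (t - q) * ∑ n ∈ cel b z0 q j, φ (n / b ^ (q - z)) * XX q n := by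
    rw [← sum_cel_div hb (hz0z.trans hzq) ht j (fun n => φ (n / b ^ (q - z)) * XX q n)]
    refine sum_congr rfl fun n _ => ?_
    rw [Nat.div_div_eq_div_mul, ← pow_add]
    have : t - q + (q - z) = t - z := by omega
    rw [this]
  have e2 : ∑ n ∈ cel b z0 q j, φ (n / b ^ (q - z)) * XX q n =
      ∑ m ∈ cel b z0 z j, φ m * (cnt b z m q : ℝ) := by
    rw [cel_sum hz0z hzq]
    refine sum_congr rfl fun m _ => ?_
    rw [cnt_eq, mul_sum]
    refine sum_congr rfl fun n hn => ?_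
    rw [cel_div hb hn]
  have e3 : ∑ n ∈ cel b z0 t j, φ (n / b ^ (t - z)) = (b : ℝ) ^ (t - z) * ∑ m ∈ cel b z0 z j, φ m :=
    sum_cel_div hb hz0z (hzq.trans ht) j φ
  -- the main bound at the level `z`
  set D := C * (Real.log q / q) with hD
  have hmain : ∑ m ∈ cel b z0 z j, φ m * (cnt b z m q : ℝ) ≤
      D * (b : ℝ) ^ (q - z) * ∑ m ∈ cel b z0 z j, φ m + (b : ℝ) ^ q * Real.exp (-(δ * q)) := by
    have h1 : ∀ m, φ m * (cnt b z m q : ℝ) ≤ D * (b : ℝ) ^ (q - z) * φ m +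
        max 0 ((cnt b z m q : ℝ) - D * (b : ℝ) ^ (q - z)) := by
      intro m
      have h2 := hφ0 m
      have h3 := hφ1 m
      have h4 := le_max_left 0 ((cnt b z m q : ℝ) - D * (b : ℝ) ^ (q - z))
      have h5 := le_max_right 0 ((cnt b z m q : ℝ) - D * (b : ℝ) ^ (q - z))
      nlinarith
    refine (sum_le_sum fun m _ => h1 m).trans ?_
    rw [sum_add_distrib, ← mul_sum]
    refine add_le_add le_rfl ?_
    have h6 := hP q hqP z hz (z0 + 1) (by
      push_cast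
      nlinarith)
    refine le_trans (sum_le_sum_of_subset_of_nonneg ?_ fun _ _ _ => le_max_left _ _) h6
    intro m hm
    have h7 := cel_range hb hz0z hj1 hj2 hm
    rw [mem_Ico]
    exact h7
  rw [e1, e2, e3]
  have hBt : (0 : ℝ) < (b : ℝ) ^ (t - q) := by positivity
  calc (b : ℝ) ^ (t - q) * ∑ m ∈ cel b z0 z j, φ m * (cnt b z m q : ℝ)
      ≤ (b : ℝ) ^ (t - q) * (D * (b : ℝ) ^ (q - z) * ∑ m ∈ cel b z0 z j, φ m +
          (b : ℝ) ^ q * Real.exp (-(δ * q))) := mul_le_mul_of_nonneg_left hmain hBt.le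
    _ = D * ((b : ℝ) ^ (t - q) * (b : ℝ) ^ (q - z) * ∑ m ∈ cel b z0 z j, φ m) +
          (b : ℝ) ^ (t - q) * (b : ℝ) ^ q * Real.exp (-(δ * q)) := by ring
    _ ≤ _ := by
        rw [← pow_add, ← pow_add]
        have e4 : t - q + (q - z) = t - z := by omega
        have e5 : t - q + q = t := by omega
        rw [e4, e5]
        refine add_le_add le_rfl ?_
        have e6 : (b : ℝ) ^ t = (b : ℝ) ^ (t - z0) * (b : ℝ) ^ z0 := by
          rw [← pow_add]; congr 1; omega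
        rw [e6, mul_assoc]
        refine mul_le_mul_of_nonneg_left ?_ (by positivity)
        rw [bexp hb, ← Real.exp_add, Real.exp_le_exp]
        nlinarith

end Pool.Agent.Run7.h129.LG
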