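import Mathlib
import Pool.Agent.N176.GP.Block
import Pool.Agent.Run7.h129.LG.Dec

set_option autoImplicit false

/-!
# Long windows without exponents
-/

namespace Pool.Agent.Run7.h129.LG

open Finset Filter Topology
open Pool.Agent.H305R2 (roughPart)
open Pool.Agent.N176.GP (cnt XX XX_nonneg cnt_eq bexp)

/-- the primes in `(u, v]` -/
def Tp (u v : ℕ) : Finset ℕ := (Ioc u v).filter Nat.Prime

lemma mem_Tp {u v p : ℕ} : p ∈ Tp u v ↔ (u < p ∧ p ≤ v) ∧ p.Prime := by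
  unfold Tp
  rw [mem_filter, mem_Ioc]

lemma XX_cases (p n : ℕ) : XX p n = 0 ∨ XX p n = 1 := by
  unfold XX
  split_ifs
  · exact Or.inr rfl
  · exact Or.inl rfl

/-- indicator of no exponent in `A` -/
noncomputable def Vd (A : Finset ℕ) (b t n : ℕ) : ℝ := ∏ p ∈ A, (1 - XX p (n / b ^ (t - p)))

lemma Vd_eq_one {A : Finset ℕ} {b t n : ℕ} (h : ∀ p ∈ A, XX p (n / b ^ (t - p)) = 0) : Vd A b t n = 1 := by
  unfold Vd
  refine prod_eq_one fun p hp => ?_
  rw [h p hp, sub_zero]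

lemma Vd_eq_zero {A : Finset ℕ} {b t n : ℕ} (h : ∃ p ∈ A, XX p (n / b ^ (t - p)) = 1) : Vd A b t n = 0 := by
  obtain ⟨p, hp, h1⟩ := h
  unfold Vd
  refine prod_eq_zero hp ?_
  rw [h1, sub_self]

lemma Vd_dich (A : Finset ℕ) (b t n : ℕ) : (∀ p ∈ A, XX p (n / b ^ (t - p)) = 0) ∨
    (∃ p ∈ A, XX p (n / b ^ (t - p)) = 1) := by
  by_cases h : ∃ p ∈ A, XX p (n / b ^ (t - p)) = 1
  · exact Or.inr h
  · left
    intro p hp
    rcases XX_cases p (n / b ^ (t - p)) with h1 | h1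
    · exact h1
    · exact absurd ⟨p, hp, h1⟩ h

lemma Vd_nonneg (A : Finset ℕ) (b t n : ℕ) : 0 ≤ Vd A b t n := by
  rcases Vd_dich A b t n with h | h
  · rw [Vd_eq_one h]; norm_num
  · rw [Vd_eq_zero h]

lemma Vd_le_one (A : Finset ℕ) (b t n : ℕ) : Vd A b t n ≤ 1 := by
  rcases Vd_dich A b t n with h | h
  · rw [Vd_eq_one h]
  · rw [Vd_eq_zero h]; norm_num

lemma Vd_anti {A B : Finset ℕ} (hAB : A ⊆ B) (b t n : ℕ) : Vd B b t n ≤ Vd A b t n := by
  rcases Vd_dich B b t n with h | h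
  · rw [Vd_eq_one h, Vd_eq_one fun p hp => h p (hAB hp)]
  · rw [Vd_eq_zero h]
    exact Vd_nonneg A b t n

lemma Vd_union (A B : Finset ℕ) (b t n : ℕ) :
    Vd A b t n - Vd A b t n * ∑ q ∈ B, XX q (n / b ^ (t - q)) ≤ Vd (A ∪ B) b t n := by
  rcases Vd_dich A b t n with hA | hA
  · rcases Vd_dich B b t n with hB | hB
    · have : Vd (A ∪ B) b t n = 1 := by
        refine Vd_eq_one fun p hp => ?_
        rcases mem_union.1 hp with h | h
        · exact hA p h
        · exact hB p h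
      rw [this, Vd_eq_one hA, sum_eq_zero hB]
      norm_num
    · obtain ⟨q, hq, h1⟩ := hB
      have h2 : (1 : ℝ) ≤ ∑ q ∈ B, XX q (n / b ^ (t - q)) := by
        rw [← h1]
        exact single_le_sum (f := fun q => XX q (n / b ^ (t - q))) (fun q _ => XX_nonneg _ _) hq
      have h3 := Vd_nonneg (A ∪ B) b t n
      rw [Vd_eq_one hA]
      linarith
  · rw [Vd_eq_zero hA]
    have := Vd_nonneg (A ∪ B) b t n
    linarith

/-- `Vd` depends only on the digits up to the level of the elements of `A` -/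
lemma Vd_level {A : Finset ℕ} {b z t : ℕ} (hA : ∀ p ∈ A, p ≤ z) (hzt : z ≤ t) (n : ℕ) :
    Vd A b z (n / b ^ (t - z)) = Vd A b t n := by
  unfold Vd
  refine prod_congr rfl fun p hp => ?_
  have := hA p hp
  rw [Nat.div_div_eq_div_mul, ← pow_add]
  have e : t - z + (z - p) = t - p := by omega
  rw [e]

/-- the number of primes in a short interval -/
lemma wt_le : ∃ C : ℝ, 0 < C ∧ ∀ M : ℕ, 1 ≤ M → ∃ P : ℕ, ∀ u ≥ P, ∀ v : ℕ,
    (v : ℝ) ≤ u + 2 * u / M → ∑ q ∈ Tp u v, Real.log q / q ≤ C / M := by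
  obtain ⟨C0, hC01, hBT⟩ := Pool.Agent.Helper601.brun_titchmarsh
  refine ⟨12 * C0, by linarith, fun M hM => ⟨max (M ^ 2) 4, fun u hu v hv => ?_⟩⟩
  have hM1 : (1 : ℝ) ≤ M := by exact_mod_cast hM
  have hM0 : (0 : ℝ) < M := by linarith
  have hu2 : (M : ℝ) ^ 2 ≤ u := by exact_mod_cast (le_max_left _ _).trans hu
  have hu4 : (4 : ℝ) ≤ u := by exact_mod_cast (le_max_right _ _).trans hu
  have hu0 : (0 : ℝ) < u := by linarith
  have hMu : (M : ℝ) ≤ u := by nlinarith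
  set h := ⌈2 * (u : ℝ) / M⌉₊ with hh
  have hhr1 : 2 * (u : ℝ) / M ≤ h := Nat.le_ceil _
  have hhr2 : (h : ℝ) < 2 * u / M + 1 := Nat.ceil_lt_add_one (by positivity)
  have hM2 : 2 ≤ 2 * (u : ℝ) / M := by
    rw [le_div_iff₀ hM0]; linarith
  have hh2r : (2 : ℝ) ≤ h := hM2.trans hhr1
  have hh2 : 2 ≤ h := by exact_mod_cast hh2r
  have hh3 : (h : ℝ) ≤ 3 * u / M := by
    have h1 : (1 : ℝ) ≤ u / M := by rw [le_div_iff₀ hM0]; linarith
    have h2 : 2 * (u : ℝ) / M = 2 * (u / M) := by ring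
    have h3 : 3 * (u : ℝ) / M = 3 * (u / M) := by ring
    rw [h2] at hhr2
    rw [h3]
    linarith
  have hlogu : 0 < Real.log u := Real.log_pos (by linarith)
  have hlogh : Real.log u / 2 ≤ Real.log h := by
    have h1 : √(u : ℝ) ≤ h := by
      refine le_trans ?_ hhr1
      rw [Real.sqrt_le_left (by positivity), div_pow, le_div_iff₀ (by positivity)]
      nlinarith
    calc Real.log u / 2 = Real.log (√u) := by rw [Real.log_sqrt hu0.le]
      _ ≤ _ := Real.log_le_log (Real.sqrt_pos.2 hu0) h1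
  have hlogh0 : 0 < Real.log h := by linarith
  -- the count
  have hcard : ((Tp u v).card : ℝ) ≤ C0 * h / Real.log h := by
    refine le_trans ?_ (hBT (u + 1) 1 h hh2 (Or.inl rfl))
    have hsub : Tp u v ⊆ ((Finset.range h).filter (fun k => (u + 1 + k * 1).Prime)).image
        (fun k => u + 1 + k) := by
      intro p hp
      obtain ⟨⟨h1, h2⟩, h3⟩ := mem_Tp.1 hp
      rw [mem_image]
      refine ⟨p - (u + 1), ?_, by omega⟩
      rw [mem_filter, mem_range]
      have e : u + 1 + (p - (u + 1)) * 1 = p := by omega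
      rw [e]
      refine ⟨?_, h3⟩
      have h4 : (p : ℝ) ≤ u + h := by
        have : (p : ℝ) ≤ v := by exact_mod_cast h2
        linarith
      have h5 : p ≤ u + h := by exact_mod_cast h4
      omega
    exact_mod_cast (Finset.card_le_card hsub).trans Finset.card_image_le
  have hlogv : ∀ q ∈ Tp u v, Real.log q / q ≤ 2 * Real.log u / u := by
    intro q hq
    obtain ⟨⟨h1, h2⟩, h3⟩ := mem_Tp.1 hq
    have hqu : (u : ℝ) ≤ q := by exact_mod_cast h1.le
    have hq0 : (0 : ℝ) < q := by linarith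
    have hqv : (q : ℝ) ≤ 3 * u := by
      have h4 : (q : ℝ) ≤ v := by exact_mod_cast h2
      have h5 : 2 * (u : ℝ) / M ≤ 2 * u := by
        rw [div_le_iff₀ hM0]; nlinarith
      linarith
    have h6 : Real.log q ≤ 2 * Real.log u := by
      calc Real.log q ≤ Real.log ((u : ℝ) * u) := Real.log_le_log hq0 (by nlinarith)
        _ = _ := by rw [Real.log_mul hu0.ne' hu0.ne']; ring
    have h7 : 0 ≤ Real.log q := Real.log_natCast_nonneg q
    exact div_le_div₀ (by linarith) h6 hu0 hqu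
  calc ∑ q ∈ Tp u v, Real.log q / q ≤ ∑ q ∈ Tp u v, 2 * Real.log u / u := sum_le_sum hlogv
    _ = (Tp u v).card * (2 * Real.log u / u) := by rw [sum_const, nsmul_eq_mul]
    _ ≤ (C0 * h / Real.log h) * (2 * Real.log u / u) := by gcongr
    _ ≤ (C0 * (3 * u / M) / (Real.log u / 2)) * (2 * Real.log u / u) := by gcongr
    _ = 12 * C0 / M := by field_simp; ring

/-- the points of the subdivision -/
noncomputable def xs (r : ℝ) (x i : ℕ) : ℕ := ⌊(x : ℝ) * r ^ i⌋₊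

lemma xs_zero (r : ℝ) (x : ℕ) : xs r x 0 = x := by unfold xs; simp

lemma xs_le {r : ℝ} (hr : 0 ≤ r) (x i : ℕ) : (xs r x i : ℝ) ≤ x * r ^ i := Nat.floor_le (by positivity)

lemma lt_xs (r : ℝ) (x i : ℕ) : (x : ℝ) * r ^ i < xs r x i + 1 := Nat.lt_floor_add_one _

lemma xs_mono {r : ℝ} (hr : 1 ≤ r) (x : ℕ) : Monotone (xs r x) := by
  intro i j hij
  unfold xs
  exact Nat.floor_le_floor (mul_le_mul_of_nonneg_left (pow_le_pow_right₀ hr hij) (Nat.cast_nonneg _))

lemma xs_succ {M : ℕ} (hM : 1 ≤ M) {x : ℕ} (hx : M + 1 ≤ x) (i : ℕ) :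
    (xs (1 + 1 / (M : ℝ)) x (i + 1) : ℝ) ≤
      xs (1 + 1 / (M : ℝ)) x i + 2 * (xs (1 + 1 / (M : ℝ)) x i) / M := by
  have hM0 : (0 : ℝ) < M := by exact_mod_cast hM
  have hr : (1 : ℝ) ≤ 1 + 1 / (M : ℝ) := by
    have : (0 : ℝ) < 1 / M := by positivity
    linarith
  have h0 : x ≤ xs (1 + 1 / (M : ℝ)) x i := by
    have := xs_mono hr x (Nat.zero_le i)
    rwa [xs_zero] at this
  set u := xs (1 + 1 / (M : ℝ)) x i with hu
  have h1 := lt_xs (1 + 1 / (M : ℝ)) x i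
  rw [← hu] at h1
  have h2 := xs_le (r := 1 + 1 / (M : ℝ)) (by linarith) x (i + 1)
  have h3 : (M : ℝ) + 1 ≤ u := by exact_mod_cast hx.trans h0
  refine h2.trans ?_
  rw [pow_succ, ← mul_assoc]
  have h4 : (x : ℝ) * (1 + 1 / (M : ℝ)) ^ i * (1 + 1 / (M : ℝ)) ≤ (u + 1) * (1 + 1 / (M : ℝ)) :=
    mul_le_mul_of_nonneg_right h1.le (by linarith)
  refine h4.trans ?_
  have h5 : ((u : ℝ) + 1) * (1 + 1 / (M : ℝ)) = u + (u + M + 1) / M := by field_simp; ring
  rw [h5]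
  refine add_le_add le_rfl ?_
  gcongr
  linarith

/-- geometric sums -/
lemma geom_tail {δ : ℝ} (hδ : 0 < δ) {x : ℕ} (F : Finset ℕ) (hF : ∀ q ∈ F, x < q) :
    ∑ q ∈ F, Real.exp (-(δ * q)) ≤ Real.exp (-(δ * x)) / (1 - Real.exp (-δ)) := by
  have h1 : Real.exp (-δ) < 1 := by rw [Real.exp_lt_one_iff]; linarith
  have h0 : 0 ≤ Real.exp (-δ) := (Real.exp_pos _).le
  have hinj : Set.InjOn (fun q => q - x) (F : Set ℕ) := by
    intro a ha c hc h
    have h2 := hF a ha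
    have h3 := hF c hc
    simp only at h
    omega
  have e1 : ∑ q ∈ F, Real.exp (-(δ * q)) = Real.exp (-(δ * x)) * ∑ d ∈ F.image (fun q => q - x),
      (Real.exp (-δ)) ^ d := by
    rw [sum_image hinj, mul_sum]
    refine sum_congr rfl fun q hq => ?_
    have h2 := hF q hq
    rw [← Real.exp_nat_mul, ← Real.exp_add, Nat.cast_sub h2.le]
    congr 1
    ring
  rw [e1, div_eq_mul_inv, ← tsum_geometric_of_lt_one h0 h1]
  refine mul_le_mul_of_nonneg_left ?_ (Real.exp_pos _).le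
  exact (summable_geometric_of_lt_one h0 h1).sum_le_tsum _ fun _ _ => by positivity

end Pool.Agent.Run7.h129.LG
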