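import Mathlib
import Pool.Agent.Run7.h129.LG.Rec

set_option autoImplicit false

/-!
# Long windows without exponents: the recursion
-/

namespace Pool.Agent.Run7.h129.LG

open Finset Filter Topology
open Pool.Agent.H305R2 (roughPart)
open Pool.Agent.N176.GP (cnt XX XX_nonneg cnt_eq bexp)

/-- the ratio of the subdivision -/
noncomputable def rr (M : ℕ) : ℝ := 1 + 1 / (M : ℝ)

lemma rr_gt {M : ℕ} (hM : 1 ≤ M) : 1 < rr M := by
  have hM0 : (0 : ℝ) < M := by exact_mod_cast hM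
  unfold rr
  have : (0 : ℝ) < 1 / M := by positivity
  linarith

lemma rr_le {M : ℕ} (hM : 1 ≤ M) : rr M ≤ 2 := by
  have hM0 : (1 : ℝ) ≤ M := by exact_mod_cast hM
  unfold rr
  have : (1 : ℝ) / M ≤ 1 := by rw [div_le_one (by linarith)]; exact hM0
  linarith

/-- the window between the points `1` and `i` of the subdivision -/
noncomputable def Wn (M x i : ℕ) : Finset ℕ := Tp (xs (rr M) x 1) (xs (rr M) x i)

/-- the sum over a cell of a function of level `x`, restricted to the integers without exponents in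
the window -/
noncomputable def GG (M b z0 j t x : ℕ) (φ : ℕ → ℝ) (i : ℕ) : ℝ :=
  ∑ n ∈ cel b z0 t j, φ (n / b ^ (t - x)) * Vd (Wn M x i) b t n

lemma Wn_zero (M x : ℕ) (hM : 1 ≤ M) : Wn M x 0 = ∅ := by
  unfold Wn Tp
  rw [filter_eq_empty_iff]
  intro p hp
  rw [mem_Ioc] at hp
  have := xs_mono (rr_gt hM).le x (Nat.zero_le 1)
  omega

lemma Wn_one (M x : ℕ) : Wn M x 1 = ∅ := by
  unfold Wn Tp
  rw [Ioc_self, filter_empty]

lemma Wn_le {M x i p : ℕ} (hp : p ∈ Wn M x i) : p ≤ xs (rr M) x i := by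
  unfold Wn at hp
  exact (mem_Tp.1 hp).1.2

lemma Wn_succ {M x i : ℕ} (hM : 1 ≤ M) : Wn M x (i + 2) =
    Wn M x (i + 1) ∪ Tp (xs (rr M) x (i + 1)) (xs (rr M) x (i + 2)) := by
  have h1 := xs_mono (rr_gt hM).le x (show 1 ≤ i + 1 by omega)
  have h2 := xs_mono (rr_gt hM).le x (show i + 1 ≤ i + 2 by omega)
  ext p
  unfold Wn
  rw [mem_union, mem_Tp, mem_Tp, mem_Tp]
  constructor
  · rintro ⟨⟨h3, h4⟩, h5⟩
    rcases Nat.lt_or_ge (xs (rr M) x (i + 1)) p with h6 | h6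
    · exact Or.inr ⟨⟨h6, h4⟩, h5⟩
    · exact Or.inl ⟨⟨h3, h6⟩, h5⟩
  · rintro (⟨⟨h3, h4⟩, h5⟩ | ⟨⟨h3, h4⟩, h5⟩)
    · exact ⟨⟨h3, h4.trans h2⟩, h5⟩
    · exact ⟨⟨lt_of_le_of_lt h1 h3, h4⟩, h5⟩

lemma Wn_mono {M x i k : ℕ} (hM : 1 ≤ M) (hik : i ≤ k) : Wn M x i ⊆ Wn M x k := by
  intro p hp
  unfold Wn at hp ⊢
  rw [mem_Tp] at hp ⊢
  exact ⟨⟨hp.1.1, hp.1.2.trans (xs_mono (rr_gt hM).le x hik)⟩, hp.2⟩

lemma GG_nonneg {M b z0 j t x : ℕ} {φ : ℕ → ℝ} (hφ : ∀ n, 0 ≤ φ n) (i : ℕ) :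
    0 ≤ GG M b z0 j t x φ i := sum_nonneg fun n _ => mul_nonneg (hφ _) (Vd_nonneg _ _ _ _)

/-- the level condition -/
lemma level_ok {M x i q : ℕ} (hM : 1 ≤ M) (hq : xs (rr M) x (i + 1) < q) :
    (xs (rr M) x i : ℝ) ≤ (1 - 1 / ((M : ℝ) + 1)) * q := by
  have hM0 : (0 : ℝ) < M := by exact_mod_cast hM
  have h1 := xs_le (r := rr M) (by linarith [rr_gt hM]) x i
  have h2 := lt_xs (rr M) x (i + 1)
  have h3 : (xs (rr M) x (i + 1) : ℝ) + 1 ≤ q := by exact_mod_cast hq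
  have h4 : (x : ℝ) * rr M ^ i * rr M ≤ q := by
    rw [mul_assoc, ← pow_succ]
    linarith
  have h5 : 1 - 1 / ((M : ℝ) + 1) = (rr M)⁻¹ := by
    unfold rr
    field_simp
    ring
  rw [h5]
  have h6 : 0 < rr M := by linarith [rr_gt hM]
  calc (xs (rr M) x i : ℝ) ≤ x * rr M ^ i := h1
    _ = (rr M)⁻¹ * (x * rr M ^ i * rr M) := by field_simp
    _ ≤ _ := mul_le_mul_of_nonneg_left h4 (by positivity)

/-- the constants -/
structure Cst (b M : ℕ) (C δ : ℝ) (K P : ℕ) : Prop where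
  hM : 1 ≤ M
  hC : 0 < C
  hδ : 0 < δ
  hK : 1 ≤ K
  /-- the weight of a piece of the subdivision -/
  wt : ∀ x ≥ P, ∀ i, C * ∑ q ∈ Tp (xs (rr M) x i) (xs (rr M) x (i + 1)), Real.log q / q ≤ 1 / 8
  /-- the errors -/
  err : ∀ x ≥ P, ∀ F : Finset ℕ, (∀ q ∈ F, x < q) →
    ∑ q ∈ F, Real.exp (-(2 * δ * q)) ≤ Real.exp (-(δ * x))
  /-- decoupling -/
  dc : ∀ q ≥ P, ∀ z : ℕ, (z : ℝ) ≤ (1 - 1 / ((M : ℝ) + 1)) * q → ∀ z0 : ℕ, K * z0 ≤ q → z0 ≤ z →
    ∀ j : ℕ, 1 ≤ j → j ≤ b ^ (2 * z0) → ∀ φ : ℕ → ℝ, (∀ n, 0 ≤ φ n) → (∀ n, φ n ≤ 1) →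
    ∀ t : ℕ, q ≤ t →
    ∑ n ∈ cel b z0 t j, φ (n / b ^ (t - z)) * XX q (n / b ^ (t - q)) ≤
      C * (Real.log q / q) * ∑ n ∈ cel b z0 t j, φ (n / b ^ (t - z)) +
        (b : ℝ) ^ (t - z0) * Real.exp (-(2 * δ * q))

theorem exists_cst {b : ℕ} (hb : 2 ≤ b) : ∃ (M : ℕ) (C δ : ℝ) (K P : ℕ), Cst b M C δ K P := by
  obtain ⟨C, hC, hdec⟩ := dec hb
  obtain ⟨C4, hC4, hwt⟩ := wt_le
  set M := ⌈8 * C * C4⌉₊ with hMdef
  have hMr : 8 * C * C4 ≤ M := Nat.le_ceil _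
  have hM1 : 1 ≤ M := by rw [hMdef, Nat.one_le_ceil_iff]; positivity
  have hM0 : (0 : ℝ) < M := by exact_mod_cast hM1
  obtain ⟨P1, hP1⟩ := hwt M hM1
  obtain ⟨δ, hδ, K, P2, hK, hP2⟩ := hdec (1 / ((M : ℝ) + 1)) (by positivity) (by
    rw [div_le_one (by positivity)]; linarith)
  have hlt : Real.exp (-δ) < 1 := by rw [Real.exp_lt_one_iff]; linarith
  have hpos : 0 < 1 - Real.exp (-δ) := by linarith
  obtain ⟨P3, hP3⟩ := (mul_large (δ / 2) (by positivity) (1 / (1 - Real.exp (-δ)))).exists_forall_of_atTop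
  refine ⟨M, C, δ / 2, K, max (max P1 P2) (max P3 (M + 1)), hM1, hC, by positivity, hK, ?_, ?_, ?_⟩
  · intro x hx i
    have hxP1 : P1 ≤ x := ((le_max_left _ _).trans (le_max_left _ _)).trans hx
    have hxM : M + 1 ≤ x := ((le_max_right _ _).trans (le_max_right _ _)).trans hx
    have h0 : x ≤ xs (rr M) x i := by
      have := xs_mono (rr_gt hM1).le x (Nat.zero_le i)
      rwa [xs_zero] at this
    have h1 := hP1 (xs (rr M) x i) (hxP1.trans h0) (xs (rr M) x (i + 1)) (xs_succ hM1 hxM i)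
    calc C * ∑ q ∈ Tp (xs (rr M) x i) (xs (rr M) x (i + 1)), Real.log q / q ≤ C * (C4 / M) :=
          mul_le_mul_of_nonneg_left h1 hC.le
      _ ≤ 1 / 8 := by
          rw [← mul_div_assoc, div_le_div_iff₀ hM0 (by norm_num)]
          linarith
  · intro x hx F hF
    have hxP3 : P3 ≤ x := ((le_max_left _ _).trans (le_max_right _ _)).trans hx
    have h1 := geom_tail hδ F hF
    have e : ∀ q : ℕ, 2 * (δ / 2) * q = δ * q := fun q => by ring
    simp only [e]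
    refine h1.trans ?_
    rw [div_le_iff₀ hpos]
    have h2 := hP3 x hxP3
    have h3 := Real.add_one_le_exp (δ / 2 * x)
    have h4 : 1 / (1 - Real.exp (-δ)) ≤ Real.exp (δ / 2 * x) := by linarith
    rw [div_le_iff₀ hpos] at h4
    have h5 : Real.exp (-(δ * x)) = Real.exp (-(δ / 2 * x)) * Real.exp (-(δ / 2 * x)) := by
      rw [← Real.exp_add]; congr 1; ring
    have h6 : Real.exp (-(δ / 2 * x)) * Real.exp (δ / 2 * x) = 1 := by
      rw [← Real.exp_add]; simp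
    have h7 := Real.exp_pos (-(δ / 2 * x))
    rw [h5]
    calc Real.exp (-(δ / 2 * x)) * Real.exp (-(δ / 2 * x))
        ≤ Real.exp (-(δ / 2 * x)) * (Real.exp (-(δ / 2 * x)) *
          (Real.exp (δ / 2 * x) * (1 - Real.exp (-δ)))) := by
          refine mul_le_mul_of_nonneg_left ?_ h7.le
          nlinarith
      _ = Real.exp (-(δ / 2 * x)) * (1 - Real.exp (-δ)) *
          (Real.exp (-(δ / 2 * x)) * Real.exp (δ / 2 * x)) := by ring
      _ = _ := by rw [h6, mul_one]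
  · intro q hq z hz z0 hz0 hz0z j hj1 hj2 φ hφ0 hφ1 t ht
    have hqP2 : P2 ≤ q := ((le_max_right _ _).trans (le_max_left _ _)).trans hq
    have h := hP2 q hqP2 z hz z0 hz0 hz0z j hj1 hj2 φ hφ0 hφ1 t ht
    have e : 2 * (δ / 2) * (q : ℝ) = δ * q := by ring
    rw [e]
    exact h

section

variable {b M : ℕ} {C δ : ℝ} {K P : ℕ}

/-- one piece of the subdivision -/
lemma Cst.piece (hc : Cst b M C δ K P) {x : ℕ} (hx : P ≤ x) {z0 : ℕ} (hz0 : K * z0 ≤ x) {j : ℕ}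
    (hj1 : 1 ≤ j) (hj2 : j ≤ b ^ (2 * z0)) {φ : ℕ → ℝ} (hφ0 : ∀ n, 0 ≤ φ n) (hφ1 : ∀ n, φ n ≤ 1)
    {t i : ℕ} (ht : xs (rr M) x (i + 2) ≤ t) :
    GG M b z0 j t x φ (i + 1) - 1 / 8 * GG M b z0 j t x φ i - (b : ℝ) ^ (t - z0) * Real.exp (-(δ * x)) ≤
      GG M b z0 j t x φ (i + 2) := by
  have hM := hc.hM
  set z := xs (rr M) x i with hz
  have hxz : x ≤ z := by
    have := xs_mono (rr_gt hM).le x (Nat.zero_le i)
    rwa [xs_zero] at this
  have hzt : z ≤ t := (xs_mono (rr_gt hM).le x (show i ≤ i + 2 by omega)).trans ht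
  have hz0x : z0 ≤ x := le_trans (Nat.le_mul_of_pos_left z0 hc.hK) hz0
  set T := Tp (xs (rr M) x (i + 1)) (xs (rr M) x (i + 2)) with hT
  have hTx : ∀ q ∈ T, x < q := by
    intro q hq
    have h1 := (mem_Tp.1 hq).1.1
    have h2 := xs_mono (rr_gt hM).le x (Nat.zero_le (i + 1))
    rw [xs_zero] at h2
    omega
  -- the new window
  have h1 : ∀ n, φ (n / b ^ (t - x)) * Vd (Wn M x (i + 1)) b t n -
      ∑ q ∈ T, φ (n / b ^ (t - x)) * Vd (Wn M x i) b t n * XX q (n / b ^ (t - q)) ≤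
      φ (n / b ^ (t - x)) * Vd (Wn M x (i + 2)) b t n := by
    intro n
    have h2 := Vd_union (Wn M x (i + 1)) T b t n
    rw [← Wn_succ hM] at h2
    have h3 := Vd_anti (Wn_mono hM (x := x) (show i ≤ i + 1 by omega)) b t n
    have h4 : 0 ≤ ∑ q ∈ T, XX q (n / b ^ (t - q)) := sum_nonneg fun q _ => XX_nonneg _ _
    have h5 := hφ0 (n / b ^ (t - x))
    have h6 : Vd (Wn M x (i + 1)) b t n - Vd (Wn M x i) b t n * ∑ q ∈ T, XX q (n / b ^ (t - q)) ≤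
        Vd (Wn M x (i + 2)) b t n := by
      have := mul_le_mul_of_nonneg_right h3 h4
      linarith
    have h7 := mul_le_mul_of_nonneg_left h6 h5
    refine le_trans (le_of_eq ?_) h7
    rw [mul_sub, ← mul_assoc, mul_sum]
  have h2 : GG M b z0 j t x φ (i + 1) - ∑ q ∈ T, ∑ n ∈ cel b z0 t j,
      φ (n / b ^ (t - x)) * Vd (Wn M x i) b t n * XX q (n / b ^ (t - q)) ≤
      GG M b z0 j t x φ (i + 2) := by
    unfold GG
    rw [sum_comm, ← sum_sub_distrib]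
    exact sum_le_sum fun n _ => h1 n
  -- decoupling
  have h3 : ∀ q ∈ T, ∑ n ∈ cel b z0 t j,
      φ (n / b ^ (t - x)) * Vd (Wn M x i) b t n * XX q (n / b ^ (t - q)) ≤
      C * (Real.log q / q) * GG M b z0 j t x φ i + (b : ℝ) ^ (t - z0) * Real.exp (-(2 * δ * q)) := by
    intro q hq
    have hq1 := (mem_Tp.1 hq).1
    have hqx := hTx q hq
    have h4 := hc.dc q (by omega) z (level_ok hM hq1.1) z0 (by omega) (by omega) j hj1 hj2
      (fun m => φ (m / b ^ (z - x)) * Vd (Wn M x i) b z m)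
      (fun m => mul_nonneg (hφ0 _) (Vd_nonneg _ _ _ _))
      (fun m => mul_le_one₀ (hφ1 _) (Vd_nonneg _ _ _ _) (Vd_le_one _ _ _ _)) t (hq1.2.trans ht)
    have e : ∀ n, φ (n / b ^ (t - z) / b ^ (z - x)) * Vd (Wn M x i) b z (n / b ^ (t - z)) =
        φ (n / b ^ (t - x)) * Vd (Wn M x i) b t n := by
      intro n
      rw [Vd_level (fun p hp => Wn_le hp) hzt, Nat.div_div_eq_div_mul, ← pow_add]
      have : t - z + (z - x) = t - x := by omega
      rw [this]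
    simp only [e] at h4
    exact h4
  have h4 : ∑ q ∈ T, ∑ n ∈ cel b z0 t j,
      φ (n / b ^ (t - x)) * Vd (Wn M x i) b t n * XX q (n / b ^ (t - q)) ≤
      1 / 8 * GG M b z0 j t x φ i + (b : ℝ) ^ (t - z0) * Real.exp (-(δ * x)) := by
    refine (sum_le_sum h3).trans ?_
    rw [sum_add_distrib, ← mul_sum, ← sum_mul, ← mul_sum]
    refine add_le_add ?_ ?_
    · exact mul_le_mul_of_nonneg_right (hc.wt x hx (i + 1)) (GG_nonneg hφ0 i)
    · exact mul_le_mul_of_nonneg_left (hc.err x hx T hTx) (by positivity)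
  linarith

theorem Cst.step (hc : Cst b M C δ K P) {x : ℕ} (hx : P ≤ x) {z0 : ℕ} (hz0 : K * z0 ≤ x) {j : ℕ}
    (hj1 : 1 ≤ j) (hj2 : j ≤ b ^ (2 * z0)) {φ : ℕ → ℝ} (hφ0 : ∀ n, 0 ≤ φ n) (hφ1 : ∀ n, φ n ≤ 1)
    {t : ℕ} : ∀ i : ℕ, xs (rr M) x (i + 1) ≤ t →
    3 / 4 * GG M b z0 j t x φ i - 2 * ((b : ℝ) ^ (t - z0) * Real.exp (-(δ * x))) ≤
      GG M b z0 j t x φ (i + 1) := by
  intro i
  set E := (b : ℝ) ^ (t - z0) * Real.exp (-(δ * x)) with hE
  have hE0 : 0 ≤ E := by positivity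
  induction i with
  | zero =>
    intro _
    have e : GG M b z0 j t x φ 0 = GG M b z0 j t x φ (0 + 1) := by
      unfold GG
      rw [Wn_zero M x hc.hM, zero_add, Wn_one]
    rw [← e]
    have := GG_nonneg (M := M) (b := b) (z0 := z0) (j := j) (t := t) (x := x) hφ0 0
    linarith
  | succ i ih =>
    intro ht
    have ht' : xs (rr M) x (i + 1) ≤ t := (xs_mono (rr_gt hc.hM).le x (by omega)).trans ht
    have h1 := ih ht'
    have h2 := hc.piece hx hz0 hj1 hj2 hφ0 hφ1 (i := i) ht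
    rw [← hE] at h2
    have h3 := GG_nonneg (M := M) (b := b) (z0 := z0) (j := j) (t := t) (x := x) hφ0 (i + 1)
    linarith

theorem Cst.low (hc : Cst b M C δ K P) {x : ℕ} (hx : P ≤ x) {z0 : ℕ} (hz0 : K * z0 ≤ x) {j : ℕ}
    (hj1 : 1 ≤ j) (hj2 : j ≤ b ^ (2 * z0)) {φ : ℕ → ℝ} (hφ0 : ∀ n, 0 ≤ φ n) (hφ1 : ∀ n, φ n ≤ 1)
    {t : ℕ} : ∀ i : ℕ, xs (rr M) x i ≤ t →
    (3 / 4) ^ i * ∑ n ∈ cel b z0 t j, φ (n / b ^ (t - x)) -
      8 * ((b : ℝ) ^ (t - z0) * Real.exp (-(δ * x))) ≤ GG M b z0 j t x φ i := by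
  intro i
  set E := (b : ℝ) ^ (t - z0) * Real.exp (-(δ * x)) with hE
  have hE0 : 0 ≤ E := by positivity
  induction i with
  | zero =>
    intro _
    have e : GG M b z0 j t x φ 0 = ∑ n ∈ cel b z0 t j, φ (n / b ^ (t - x)) := by
      unfold GG
      rw [Wn_zero M x hc.hM]
      refine sum_congr rfl fun n _ => ?_
      rw [Vd_eq_one (A := ∅) (by simp), mul_one]
    rw [e, pow_zero, one_mul]
    linarith
  | succ i ih =>
    intro ht
    have ht' : xs (rr M) x i ≤ t := (xs_mono (rr_gt hc.hM).le x (by omega)).trans ht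
    have h1 := ih ht'
    have h2 := hc.step hx hz0 hj1 hj2 hφ0 hφ1 i ht
    rw [← hE] at h2
    rw [pow_succ]
    linarith

end

end Pool.Agent.Run7.h129.LG
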