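import Mathlib
import Pool.Agent.N176.GP.Fin
import Pool.Agent.Run7.h129.LG.Rec2

set_option autoImplicit false

/-!
# Windows with an exponent
-/

namespace Pool.Agent.Run7.h129.LG

open Finset Filter Topology
open Pool.Agent.H305R2 (roughPart)
open Pool.Agent.N176.GP (cnt XX XX_nonneg cnt_eq bexp)

/-- in every cell of level `z` a positive proportion has an exponent in `(z, D z]` -/
theorem hit_cell {b : ℕ} (hb : 2 ≤ b) : ∃ (D : ℕ) (δ : ℝ) (P : ℕ), 2 ≤ D ∧ 0 < δ ∧ δ < 1 ∧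
    ∀ z ≥ P, ∀ j : ℕ, 1 ≤ j → j ≤ b ^ (2 * z) →
    ∑ n ∈ cel b z (D * z) j, Vd (Tp z (D * z)) b (D * z) n ≤ (1 - δ) * (b : ℝ) ^ (D * z - z) := by
  classical
  obtain ⟨K, hK, hwin⟩ := Pool.Agent.N176.GP.window hb
  obtain ⟨A, hA⟩ := Pool.Agent.N176.GP.thick_univ
  obtain ⟨δ, hδ, hδ1, hw⟩ := hwin 1 one_pos (A + 1) (by omega)
  obtain ⟨z1, hz1⟩ := hw Set.univ 1 (by
    intro x hx
    have h1 := hA x hx
    have e1 : (Ioc x (A * x)).filter (fun p => p.Prime ∧ p ∈ (Set.univ : Set ℕ)) = Tp x (A * x) := by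
      ext p
      rw [mem_filter, mem_Tp, mem_Ioc]
      exact ⟨fun ⟨h1, h2, _⟩ => ⟨h1, h2⟩, fun ⟨h1, h2⟩ => ⟨h1, h2, trivial⟩⟩
    have e2 : (Ioc x (2 ^ (A + 1) * x)).filter (fun p => p.Prime ∧ p ∈ (Set.univ : Set ℕ)) =
        Tp x (2 ^ (A + 1) * x) := by
      ext p
      rw [mem_filter, mem_Tp, mem_Ioc]
      exact ⟨fun ⟨h1, h2, _⟩ => ⟨h1, h2⟩, fun ⟨h1, h2⟩ => ⟨h1, h2, trivial⟩⟩
    have h2 : (1 : ℝ) ≤ ∑ p ∈ Tp x (A * x), Real.log p / p := by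
      rw [← e1]
      convert h1
    have h3 : (1 : ℝ) ≤ ∑ p ∈ Tp x (2 ^ (A + 1) * x), Real.log p / p := by
      refine h2.trans ?_
      refine Finset.sum_le_sum_of_subset_of_nonneg ?_ fun p _ _ => by
        have := Real.log_natCast_nonneg p
        positivity
      intro p hp
      rw [mem_Tp] at hp ⊢
      refine ⟨⟨hp.1.1, hp.1.2.trans (Nat.mul_le_mul_right x ?_)⟩, hp.2⟩
      exact (Nat.lt_two_pow_self.le.trans (Nat.pow_le_pow_right (by norm_num) (Nat.le_succ A)))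
    rw [← e2] at h3
    convert h3)
  refine ⟨2 ^ (A + 1) * K, δ, z1, ?_, hδ, hδ1, fun z hz j hj1 hj2 => ?_⟩
  · calc 2 = 2 ^ 1 * 1 := rfl
      _ ≤ 2 ^ (A + 1) * K := Nat.mul_le_mul (Nat.pow_le_pow_right (by norm_num) (by omega)) hK
  · refine le_trans (le_of_eq ?_) (hz1 z hz j hj1 hj2)
    have e : ∀ n, Vd (Tp z (2 ^ (A + 1) * K * z)) b (2 ^ (A + 1) * K * z) n =
        if (∀ p ∈ Ioc z (2 ^ (A + 1) * K * z), p.Prime → p ∈ Set.univ →
          ¬ (roughPart p (n / b ^ (2 ^ (A + 1) * K * z - p))).Prime) then (1 : ℝ) else 0 := by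
      intro n
      rcases Vd_dich (Tp z (2 ^ (A + 1) * K * z)) b (2 ^ (A + 1) * K * z) n with h | h
      · rw [Vd_eq_one h, if_pos]
        intro p hp hpp _ hr
        rw [mem_Ioc] at hp
        have h1 := h p (mem_Tp.2 ⟨hp, hpp⟩)
        unfold XX at h1
        rw [if_pos hr] at h1
        exact one_ne_zero h1
      · rw [Vd_eq_zero h, if_neg]
        intro h1
        obtain ⟨p, hp, h2⟩ := h
        obtain ⟨h3, h4⟩ := mem_Tp.1 hp
        have h5 := h1 p (mem_Ioc.2 h3) h4 trivial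
        unfold XX at h2
        rw [if_neg h5] at h2
        exact zero_ne_one h2
    simp only [e]
    rw [← sum_filter, sum_const, nsmul_eq_mul, mul_one]
    congr 2
    ext n
    simp only [mem_filter, cel]

/-- the data of the windows with an exponent -/
structure Hc (b D : ℕ) (δ : ℝ) (P : ℕ) : Prop where
  hb : 2 ≤ b
  hD : 2 ≤ D
  h0 : 0 < δ
  h1 : δ < 1
  cell : ∀ z ≥ P, ∀ j : ℕ, 1 ≤ j → j ≤ b ^ (2 * z) →
    ∑ n ∈ cel b z (D * z) j, Vd (Tp z (D * z)) b (D * z) n ≤ (1 - δ) * (b : ℝ) ^ (D * z - z)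

lemma Hc.low {b D : ℕ} {δ : ℝ} {P : ℕ} (h : Hc b D δ P) {z0 z t j : ℕ} (hz : P ≤ z) (hz0 : z0 + 1 ≤ z)
    (ht : D * z ≤ t) (hj1 : 1 ≤ j) (hj2 : j ≤ b ^ (2 * z0)) {φ : ℕ → ℝ} (hφ0 : ∀ n, 0 ≤ φ n) :
    δ * ∑ n ∈ cel b z0 t j, φ (n / b ^ (t - z)) ≤
      ∑ n ∈ cel b z0 t j, φ (n / b ^ (t - z)) * (1 - Vd (Tp z (D * z)) b t n) := by
  have hD := h.hD
  have hzD : z ≤ D * z := Nat.le_mul_of_pos_left z (by omega)
  have hb := h.hb
  have hzt : z ≤ t := hzD.trans ht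
  rw [cel_sum (show z0 ≤ z by omega) hzt, cel_sum (show z0 ≤ z by omega) hzt, mul_sum]
  refine sum_le_sum fun m hm => ?_
  obtain ⟨hm1, hm2⟩ := cel_range hb (show z0 ≤ z by omega) hj1 hj2 hm
  have hm3 : m ≤ b ^ (2 * z) := hm2.le.trans (Nat.pow_le_pow_right (by omega) (by omega))
  have e1 : ∑ n ∈ cel b z t m, φ (n / b ^ (t - z)) = φ m * (b : ℝ) ^ (t - z) := by
    rw [sum_congr rfl fun n hn => by rw [cel_div hb hn], sum_const, cel_card, nsmul_eq_mul]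
    push_cast
    ring
  have e2 : ∑ n ∈ cel b z t m, φ (n / b ^ (t - z)) * (1 - Vd (Tp z (D * z)) b t n) =
      φ m * ((b : ℝ) ^ (t - z) - ∑ n ∈ cel b z t m, Vd (Tp z (D * z)) b t n) := by
    rw [sum_congr rfl fun n hn => by rw [cel_div hb hn], ← mul_sum, sum_sub_distrib, sum_const, cel_card,
      nsmul_eq_mul, mul_one]
    push_cast
    rfl
  have e3 : ∑ n ∈ cel b z t m, Vd (Tp z (D * z)) b t n ≤ (1 - δ) * (b : ℝ) ^ (t - z) := by
    have e4 : ∑ n ∈ cel b z t m, Vd (Tp z (D * z)) b t n =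
        (b : ℝ) ^ (t - D * z) * ∑ n ∈ cel b z (D * z) m, Vd (Tp z (D * z)) b (D * z) n := by
      rw [← sum_cel_div hb hzD ht]
      refine sum_congr rfl fun n _ => ?_
      rw [Vd_level (fun p hp => (mem_Tp.1 hp).1.2) ht]
    rw [e4]
    have h1 := h.cell z hz m hm1 hm3
    calc (b : ℝ) ^ (t - D * z) * ∑ n ∈ cel b z (D * z) m, Vd (Tp z (D * z)) b (D * z) n
        ≤ (b : ℝ) ^ (t - D * z) * ((1 - δ) * (b : ℝ) ^ (D * z - z)) :=
          mul_le_mul_of_nonneg_left h1 (by positivity)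
      _ = (1 - δ) * ((b : ℝ) ^ (t - D * z) * (b : ℝ) ^ (D * z - z)) := by ring
      _ = _ := by
          rw [← pow_add]
          congr 2
          omega
  rw [e1, e2]
  have h5 := hφ0 m
  nlinarith

end Pool.Agent.Run7.h129.LG
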