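import Mathlib
import Pool.Agent.Run7.h129.LG.Hit

set_option autoImplicit false

/-!
# Consecutive exponents with a long window between them, and ratio outside a given set
-/

namespace Pool.Agent.Run7.h129.LG

open Finset Filter Topology
open Pool.Agent.H305R2 (roughPart)
open Pool.Agent.N176.GP (cnt XX XX_nonneg cnt_eq bexp)

lemma XX_le_one (p n : ℕ) : XX p n ≤ 1 := by
  rcases XX_cases p n with h | h
  · rw [h]; norm_num
  · rw [h]

/-- `p` is the last exponent up to `x1` -/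
noncomputable def Lp (b x1 t p n : ℕ) : ℝ := XX p (n / b ^ (t - p)) * Vd (Tp p x1) b t n

lemma Lp_nonneg (b x1 t p n : ℕ) : 0 ≤ Lp b x1 t p n := mul_nonneg (XX_nonneg _ _) (Vd_nonneg _ _ _ _)

lemma Lp_le_one (b x1 t p n : ℕ) : Lp b x1 t p n ≤ 1 :=
  mul_le_one₀ (XX_le_one _ _) (Vd_nonneg _ _ _ _) (Vd_le_one _ _ _ _)

lemma exists_last {b y x1 t n : ℕ} (h : ∃ p ∈ Tp y x1, XX p (n / b ^ (t - p)) = 1) :
    ∃ p ∈ Tp y x1, XX p (n / b ^ (t - p)) = 1 ∧ ∀ s ∈ Tp p x1, XX s (n / b ^ (t - s)) = 0 := by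
  classical
  set F := (Tp y x1).filter (fun p => XX p (n / b ^ (t - p)) = 1) with hF
  have hne : F.Nonempty := by
    obtain ⟨p, hp, h1⟩ := h
    exact ⟨p, mem_filter.2 ⟨hp, h1⟩⟩
  have hmax := F.max'_mem hne
  obtain ⟨h1, h2⟩ := mem_filter.1 hmax
  refine ⟨F.max' hne, h1, h2, fun s hs => ?_⟩
  rcases XX_cases s (n / b ^ (t - s)) with h3 | h3
  · exact h3
  · exfalso
    obtain ⟨⟨h4, h5⟩, h6⟩ := mem_Tp.1 hs
    have h7 : s ∈ F := mem_filter.2 ⟨mem_Tp.2 ⟨⟨(mem_Tp.1 h1).1.1.trans h4, h5⟩, h6⟩, h3⟩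
    have := F.le_max' s h7
    omega

lemma exists_first {b u v t n : ℕ} (h : ∃ q ∈ Tp u v, XX q (n / b ^ (t - q)) = 1) :
    ∃ q ∈ Tp u v, XX q (n / b ^ (t - q)) = 1 ∧ ∀ s, s.Prime → u < s → s < q →
      XX s (n / b ^ (t - s)) = 0 := by
  classical
  set F := (Tp u v).filter (fun p => XX p (n / b ^ (t - p)) = 1) with hF
  have hne : F.Nonempty := by
    obtain ⟨p, hp, h1⟩ := h
    exact ⟨p, mem_filter.2 ⟨hp, h1⟩⟩
  have hmin := F.min'_mem hne
  obtain ⟨h1, h2⟩ := mem_filter.1 hmin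
  refine ⟨F.min' hne, h1, h2, fun s hs hus hsq => ?_⟩
  rcases XX_cases s (n / b ^ (t - s)) with h3 | h3
  · exact h3
  · exfalso
    have h4 := (mem_Tp.1 h1).1.2
    have h7 : s ∈ F := mem_filter.2 ⟨mem_Tp.2 ⟨⟨hus, by omega⟩, hs⟩, h3⟩
    have := F.min'_le s h7
    omega

lemma sum_Lp {b y x1 t n : ℕ} : ∑ p ∈ Tp y x1, Lp b x1 t p n ≤ 1 := by
  by_cases h : ∃ p ∈ Tp y x1, XX p (n / b ^ (t - p)) = 1
  · obtain ⟨p, hp, h1, h2⟩ := exists_last h
    have e : ∑ s ∈ Tp y x1, Lp b x1 t s n = Lp b x1 t p n := by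
      refine sum_eq_single_of_mem p hp fun s hs hsp => ?_
      unfold Lp
      rcases Nat.lt_or_gt_of_ne hsp with h3 | h3
      · have h4 : Vd (Tp s x1) b t n = 0 := Vd_eq_zero ⟨p, mem_Tp.2 ⟨⟨h3, (mem_Tp.1 hp).1.2⟩,
          (mem_Tp.1 hp).2⟩, h1⟩
        rw [h4, mul_zero]
      · rw [h2 s (mem_Tp.2 ⟨⟨h3, (mem_Tp.1 hs).1.2⟩, (mem_Tp.1 hs).2⟩), zero_mul]
    rw [e]
    exact Lp_le_one _ _ _ _ _
  · have e : ∑ s ∈ Tp y x1, Lp b x1 t s n = 0 := by
      refine sum_eq_zero fun s hs => ?_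
      unfold Lp
      rcases XX_cases s (n / b ^ (t - s)) with h3 | h3
      · rw [h3, zero_mul]
      · exact absurd ⟨s, hs, h3⟩ h
    rw [e]
    norm_num

/-- there are consecutive exponents `p ∈ (y, x1]` and `q ∈ (X, X']` with `log (q / p)` not in `U` -/
def Gd (b y x1 X X' t : ℕ) (U : Set ℝ) (n : ℕ) : Prop :=
  ∃ p ∈ Tp y x1, ∃ q ∈ Tp X X', XX p (n / b ^ (t - p)) = 1 ∧ XX q (n / b ^ (t - q)) = 1 ∧
    (∀ s, s.Prime → p < s → s < q → XX s (n / b ^ (t - s)) = 0) ∧ Real.log ((q : ℝ) / p) ∉ U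

open Classical in
/-- the primes `q` in `(X, X']` with `log (q / p)` in `U` -/
noncomputable def QU (U : Set ℝ) (p X X' : ℕ) : Finset ℕ :=
  (Tp X X').filter (fun q : ℕ => Real.log ((q : ℝ) / p) ∈ U)

open Classical in
lemma mem_QU {U : Set ℝ} {p X X' q : ℕ} : q ∈ QU U p X X' ↔ q ∈ Tp X X' ∧ Real.log ((q : ℝ) / p) ∈ U := by
  unfold QU
  rw [mem_filter]

open Classical in
lemma pointwise {b y x x1 X X' t n : ℕ} (hx : x ≤ x1) (hX : x1 ≤ X) (U : Set ℝ) (W : Finset ℕ)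
    (hW : W ⊆ Tp x1 X) :
    (1 - Vd (Tp y x) b t n) * Vd (Tp x1 X) b t n * (1 - Vd (Tp X X') b t n) ≤
      (if Gd b y x1 X X' t U n then 1 else 0) +
      ∑ p ∈ Tp y x1, ∑ q ∈ QU U p X X',
        (1 - Vd (Tp y x) b t n) * Lp b x1 t p n * Vd W b t n * XX q (n / b ^ (t - q)) := by
  have h1 : ∀ p ∈ Tp y x1, ∀ q ∈ QU U p X X',
      0 ≤ (1 - Vd (Tp y x) b t n) * Lp b x1 t p n * Vd W b t n * XX q (n / b ^ (t - q)) := by
    intro p _ q _
    have h2 := Vd_le_one (Tp y x) b t n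
    exact mul_nonneg (mul_nonneg (mul_nonneg (by linarith) (Lp_nonneg _ _ _ _ _)) (Vd_nonneg _ _ _ _))
      (XX_nonneg _ _)
  have h2 : 0 ≤ ∑ p ∈ Tp y x1, ∑ q ∈ QU U p X X',
        (1 - Vd (Tp y x) b t n) * Lp b x1 t p n * Vd W b t n * XX q (n / b ^ (t - q)) :=
    sum_nonneg fun p hp => sum_nonneg fun q hq => h1 p hp q hq
  have h3 : (0 : ℝ) ≤ (if Gd b y x1 X X' t U n then 1 else 0) := by split_ifs <;> norm_num
  rcases Vd_dich (Tp y x) b t n with hA | hA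
  · rw [Vd_eq_one hA, sub_self, zero_mul, zero_mul]
    simp only [Vd_eq_one hA] at h2
    simpa using add_nonneg h3 h2
  rcases Vd_dich (Tp x1 X) b t n with hB | hB
  swap
  · rw [Vd_eq_zero hB, mul_zero, zero_mul]
    exact add_nonneg h3 h2
  rcases Vd_dich (Tp X X') b t n with hC | hC
  · rw [Vd_eq_one hC, sub_self, mul_zero]
    exact add_nonneg h3 h2
  -- the main case
  obtain ⟨p0, hp0, hp0'⟩ := hA
  obtain ⟨p, hp, hp1, hp2⟩ := exists_last (b := b) (y := y) (x1 := x1) (t := t) (n := n)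
    ⟨p0, mem_Tp.2 ⟨⟨(mem_Tp.1 hp0).1.1, (mem_Tp.1 hp0).1.2.trans hx⟩, (mem_Tp.1 hp0).2⟩, hp0'⟩
  obtain ⟨q, hq, hq1, hq2⟩ := exists_first hC
  have hcons : ∀ s, s.Prime → p < s → s < q → XX s (n / b ^ (t - s)) = 0 := by
    intro s hs h4 h5
    rcases le_or_gt s x1 with h6 | h6
    · exact hp2 s (mem_Tp.2 ⟨⟨h4, h6⟩, hs⟩)
    · rcases le_or_gt s X with h7 | h7
      · exact hB s (mem_Tp.2 ⟨⟨h6, h7⟩, hs⟩)
      · exact hq2 s hs h7 h5
  have hAz : Vd (Tp y x) b t n = 0 := Vd_eq_zero ⟨p0, hp0, hp0'⟩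
  simp only [hAz] at h1 h2
  rw [hAz, Vd_eq_one hB, Vd_eq_zero hC]
  by_cases hU : Real.log ((q : ℝ) / p) ∈ U
  · have h4 : (1 - (0 : ℝ)) * Lp b x1 t p n * Vd W b t n * XX q (n / b ^ (t - q)) = 1 := by
      unfold Lp
      rw [hp1, hq1, Vd_eq_one hp2, Vd_eq_one (fun s hs => hB s (hW hs))]
      norm_num
    have h5 : (1 : ℝ) ≤ ∑ q ∈ QU U p X X',
        (1 - 0) * Lp b x1 t p n * Vd W b t n * XX q (n / b ^ (t - q)) := by
      refine h4.symm.le.trans ?_
      exact single_le_sum (f := fun q => (1 - (0 : ℝ)) * Lp b x1 t p n * Vd W b t n *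
        XX q (n / b ^ (t - q))) (fun q' hq' => h1 p hp q' hq') (mem_QU.2 ⟨hq, hU⟩)
    have h6 : ∑ q ∈ QU U p X X',
        (1 - 0) * Lp b x1 t p n * Vd W b t n * XX q (n / b ^ (t - q)) ≤
        ∑ p ∈ Tp y x1, ∑ q ∈ QU U p X X',
        (1 - 0) * Lp b x1 t p n * Vd W b t n * XX q (n / b ^ (t - q)) :=
      single_le_sum (f := fun p => ∑ q ∈ QU U p X X',
        (1 - (0 : ℝ)) * Lp b x1 t p n * Vd W b t n * XX q (n / b ^ (t - q)))
        (fun p' hp' => sum_nonneg fun q' hq' => h1 p' hp' q' hq') hp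
    linarith
  · have h4 : Gd b y x1 X X' t U n := ⟨p, hp, q, hq, hp1, hq1, hcons, hU⟩
    rw [if_pos h4]
    linarith

section

variable {b M : ℕ} {C δ : ℝ} {K P : ℕ} {D : ℕ} {η : ℝ} {Ph : ℕ}

open Classical in
/-- The number of the integers in a cell with consecutive exponents `p < q` in given windows and with
`log (q / p)` outside of a thin set `U`. -/
theorem event_cell (hc : Cst b M C δ K P) (hh : Hc b D η Ph) {θ : ℝ} (hθ : 8 * C * θ ≤ 3 * η)
    {y z0 j i : ℕ} (hi : 2 ≤ i) (hyP : P ≤ y) (hyPh : Ph ≤ y) (hz0 : K * z0 ≤ y) (hz0y : z0 + 1 ≤ y)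
    (hj1 : 1 ≤ j) (hj2 : j ≤ b ^ (2 * z0)) (U : Set ℝ)
    (hU : ∀ p ∈ Tp y (xs (rr M) (D * y) 1),
      ∑ q ∈ QU U p (xs (rr M) (D * y) i) (D * xs (rr M) (D * y) i), Real.log q / q ≤ θ) :
    (η / 2 * (η * (3 / 4) ^ i) - (5 * η + 2 * (D * y)) * Real.exp (-(δ * (D * y)))) *
      (b : ℝ) ^ (D * xs (rr M) (D * y) i - z0) ≤
    ∑ n ∈ cel b z0 (D * xs (rr M) (D * y) i) j,
      (if Gd b y (xs (rr M) (D * y) 1) (xs (rr M) (D * y) i) (D * xs (rr M) (D * y) i)
        (D * xs (rr M) (D * y) i) U n then (1 : ℝ) else 0) := by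
  have hM := hc.hM
  have hb := hh.hb
  have hD := hh.hD
  have hη := hh.h0
  have hη1 := hh.h1
  have hCpos := hc.hC
  have hmono := xs_mono (rr_gt hM).le (D * y)
  obtain ⟨x, hx⟩ : ∃ x, x = D * y := ⟨_, rfl⟩
  have hxr : (x : ℝ) = D * y := by rw [hx]; push_cast; rfl
  rw [← hx] at hU hmono ⊢
  rw [← hxr]
  obtain ⟨X, hX⟩ : ∃ X, X = xs (rr M) x i := ⟨_, rfl⟩
  obtain ⟨x1, hx1⟩ : ∃ x1, x1 = xs (rr M) x 1 := ⟨_, rfl⟩
  rw [← hX, ← hx1] at hU ⊢
  obtain ⟨t, ht⟩ : ∃ t, t = D * X := ⟨_, rfl⟩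
  rw [← ht] at hU ⊢
  have hyx : y ≤ x := by rw [hx]; exact Nat.le_mul_of_pos_left y (by omega)
  have hx0 : xs (rr M) x 0 = x := xs_zero _ _
  have hxx1 : x ≤ x1 := by
    have := hmono (Nat.zero_le 1)
    rw [hx0] at this
    omega
  have hx1X : x1 ≤ X := by
    have := hmono (show 1 ≤ i by omega)
    omega
  have hXt : X ≤ t := by rw [ht]; exact Nat.le_mul_of_pos_left X (by omega)
  have hxP : P ≤ x := hyP.trans hyx
  have hKx : K * z0 ≤ x := hz0.trans hyx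
  -- the function of level `x`
  set φ : ℕ → ℝ := fun m => 1 - Vd (Tp y x) b x m with hφ
  have hφ0 : ∀ n, 0 ≤ φ n := fun n => by
    have := Vd_le_one (Tp y x) b x n
    simp only [hφ]; linarith
  have hφ1 : ∀ n, φ n ≤ 1 := fun n => by
    have := Vd_nonneg (Tp y x) b x n
    simp only [hφ]; linarith
  have hφt : ∀ n, φ (n / b ^ (t - x)) = 1 - Vd (Tp y x) b t n := by
    intro n
    simp only [hφ]
    rw [Vd_level (fun p hp => (mem_Tp.1 hp).1.2) (by omega)]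
  set E := (b : ℝ) ^ (t - z0) * Real.exp (-(δ * x)) with hE
  have hE0 : 0 ≤ E := by positivity
  -- an exponent at the beginning
  have h0 : η * (b : ℝ) ^ (t - z0) ≤ ∑ n ∈ cel b z0 t j, φ (n / b ^ (t - x)) := by
    have h1 := hh.low (z0 := z0) (z := y) (t := t) (j := j) hyPh hz0y (by omega) hj1 hj2 (φ := fun _ => 1)
      (fun _ => zero_le_one)
    rw [sum_const, cel_card, nsmul_eq_mul, mul_one] at h1
    push_cast at h1
    refine h1.trans (le_of_eq ?_)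
    refine sum_congr rfl fun n _ => ?_
    rw [hφt, one_mul, hx]
  have hG := hc.low hxP hKx hj1 hj2 hφ0 hφ1 (t := t) i (by omega)
  rw [← hE] at hG
  have hG' := hc.step hxP hKx hj1 hj2 hφ0 hφ1 (t := t) (i - 1) (by
    have e : i - 1 + 1 = i := by omega
    rw [e]; omega)
  have ei : i - 1 + 1 = i := by omega
  rw [ei, ← hE] at hG'
  set G := GG M b z0 j t x φ i with hGd
  set G' := GG M b z0 j t x φ (i - 1) with hGd'
  have hGlow : η * (3 / 4) ^ i * (b : ℝ) ^ (t - z0) - 8 * E ≤ G := by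
    refine le_trans ?_ hG
    have : (3 / 4 : ℝ) ^ i * (η * (b : ℝ) ^ (t - z0)) ≤
        (3 / 4) ^ i * ∑ n ∈ cel b z0 t j, φ (n / b ^ (t - x)) :=
      mul_le_mul_of_nonneg_left h0 (by positivity)
    linarith
  -- an exponent at the end
  have hWn : Wn M x i = Tp x1 X := by unfold Wn; rw [← hX, ← hx1]
  have hend : η * G ≤ ∑ n ∈ cel b z0 t j, (1 - Vd (Tp y x) b t n) * Vd (Tp x1 X) b t n *
      (1 - Vd (Tp X t) b t n) := by
    have h1 := hh.low (z0 := z0) (z := X) (t := t) (j := j) (by omega) (by omega) (by omega) hj1 hj2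
      (φ := fun m => φ (m / b ^ (X - x)) * Vd (Tp x1 X) b X m)
      (fun m => mul_nonneg (hφ0 _) (Vd_nonneg _ _ _ _))
    have e : ∀ n, φ (n / b ^ (t - X) / b ^ (X - x)) * Vd (Tp x1 X) b X (n / b ^ (t - X)) =
        φ (n / b ^ (t - x)) * Vd (Tp x1 X) b t n := by
      intro n
      rw [Vd_level (fun p hp => (mem_Tp.1 hp).1.2) hXt, Nat.div_div_eq_div_mul, ← pow_add]
      have : t - X + (X - x) = t - x := by omega
      rw [this]
    simp only [e, ← ht] at h1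
    refine le_trans (le_of_eq ?_) (h1.trans (le_of_eq ?_))
    · rw [hGd]
      unfold GG
      rw [hWn]
    · refine sum_congr rfl fun n _ => ?_
      rw [hφt]
  -- the bad pairs
  set z := xs (rr M) x (i - 1) with hz
  have hx1z : x1 ≤ z := by
    have := hmono (show 1 ≤ i - 1 by omega)
    omega
  have hzX : z ≤ X := by
    have := hmono (show i - 1 ≤ i by omega)
    omega
  have hWsub : Wn M x (i - 1) ⊆ Tp x1 X := by
    rw [← hWn]
    exact Wn_mono hM (by omega)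
  have hbad : ∀ p ∈ Tp y x1, ∀ q ∈ QU U p X t,
      ∑ n ∈ cel b z0 t j, (1 - Vd (Tp y x) b t n) * Lp b x1 t p n * Vd (Wn M x (i - 1)) b t n *
        XX q (n / b ^ (t - q)) ≤
      C * (Real.log q / q) * ∑ n ∈ cel b z0 t j,
        (1 - Vd (Tp y x) b t n) * Lp b x1 t p n * Vd (Wn M x (i - 1)) b t n +
        (b : ℝ) ^ (t - z0) * Real.exp (-(2 * δ * q)) := by
    intro p hp q hq
    have hq' := (mem_QU.1 hq).1
    have hq1 := (mem_Tp.1 hq').1
    have hp1 := (mem_Tp.1 hp).1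
    have hlev : xs (rr M) x (i - 1 + 1) < q := by rw [ei, ← hX]; exact hq1.1
    have h4 := hc.dc q (by omega) z (level_ok hM hlev) z0 (by omega) (by omega) j hj1 hj2
      (fun m => φ (m / b ^ (z - x)) * (XX p (m / b ^ (z - p)) * Vd (Tp p x1) b z m) *
        Vd (Wn M x (i - 1)) b z m)
      (fun m => mul_nonneg (mul_nonneg (hφ0 _) (mul_nonneg (XX_nonneg _ _) (Vd_nonneg _ _ _ _)))
        (Vd_nonneg _ _ _ _))
      (fun m => mul_le_one₀ (mul_le_one₀ (hφ1 _) (mul_nonneg (XX_nonneg _ _) (Vd_nonneg _ _ _ _))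
        (mul_le_one₀ (XX_le_one _ _) (Vd_nonneg _ _ _ _) (Vd_le_one _ _ _ _)))
        (Vd_nonneg _ _ _ _) (Vd_le_one _ _ _ _)) t hq1.2
    have e : ∀ n, φ (n / b ^ (t - z) / b ^ (z - x)) *
        (XX p (n / b ^ (t - z) / b ^ (z - p)) * Vd (Tp p x1) b z (n / b ^ (t - z))) *
        Vd (Wn M x (i - 1)) b z (n / b ^ (t - z)) =
        (1 - Vd (Tp y x) b t n) * Lp b x1 t p n * Vd (Wn M x (i - 1)) b t n := by
      intro n
      rw [Vd_level (A := Wn M x (i - 1)) (fun p hp => by have := Wn_le hp; omega) (by omega),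
        Vd_level (A := Tp p x1) (fun p hp => by have := (mem_Tp.1 hp).1.2; omega) (by omega),
        Nat.div_div_eq_div_mul, Nat.div_div_eq_div_mul, ← pow_add, ← pow_add]
      have e1 : t - z + (z - x) = t - x := by omega
      have e2 : t - z + (z - p) = t - p := by omega
      rw [e1, e2, hφt]
      rfl
    simp only [e] at h4
    exact h4
  have hsumbad : ∑ n ∈ cel b z0 t j, ∑ p ∈ Tp y x1, ∑ q ∈ QU U p X t,
      (1 - Vd (Tp y x) b t n) * Lp b x1 t p n * Vd (Wn M x (i - 1)) b t n *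
        XX q (n / b ^ (t - q)) ≤ C * θ * G' + 2 * x * E := by
    rw [sum_comm]
    have h1 : ∀ p ∈ Tp y x1, ∑ n ∈ cel b z0 t j, ∑ q ∈ QU U p X t,
      (1 - Vd (Tp y x) b t n) * Lp b x1 t p n * Vd (Wn M x (i - 1)) b t n *
        XX q (n / b ^ (t - q)) ≤
        C * θ * ∑ n ∈ cel b z0 t j,
        (1 - Vd (Tp y x) b t n) * Lp b x1 t p n * Vd (Wn M x (i - 1)) b t n + E := by
      intro p hp
      rw [sum_comm]
      refine (sum_le_sum fun q hq => hbad p hp q hq).trans ?_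
      rw [sum_add_distrib, ← sum_mul, ← mul_sum, ← mul_sum]
      have h2 : 0 ≤ ∑ n ∈ cel b z0 t j,
          (1 - Vd (Tp y x) b t n) * Lp b x1 t p n * Vd (Wn M x (i - 1)) b t n := by
        refine sum_nonneg fun n _ => ?_
        have := Vd_le_one (Tp y x) b t n
        exact mul_nonneg (mul_nonneg (by linarith) (Lp_nonneg _ _ _ _ _)) (Vd_nonneg _ _ _ _)
      refine add_le_add ?_ ?_
      · refine mul_le_mul_of_nonneg_right ?_ h2
        exact mul_le_mul_of_nonneg_left (hU p hp) hCpos.le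
      · rw [hE]
        refine mul_le_mul_of_nonneg_left ?_ (by positivity)
        refine hc.err x hxP _ fun q hq => ?_
        have := (mem_Tp.1 (mem_QU.1 hq).1).1.1
        omega
    refine (sum_le_sum h1).trans ?_
    rw [sum_add_distrib, ← mul_sum, sum_comm, sum_const, nsmul_eq_mul]
    have hθ0 : 0 ≤ θ := by
      by_cases hne : (Tp y x1).Nonempty
      · obtain ⟨p, hp⟩ := hne
        refine le_trans ?_ (hU p hp)
        exact sum_nonneg fun q _ => by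
          have := Real.log_natCast_nonneg q
          positivity
      · exfalso
        -- there is a prime in `(y, 2 y]`
        obtain ⟨p, hp, h5, h6⟩ := Nat.exists_prime_lt_and_le_two_mul y (by omega)
        apply hne
        refine ⟨p, mem_Tp.2 ⟨⟨h5, ?_⟩, hp⟩⟩
        have : 2 * y ≤ D * y := Nat.mul_le_mul_right y hD
        omega
    refine add_le_add ?_ ?_
    · refine mul_le_mul_of_nonneg_left ?_ (by positivity)
      rw [hGd']
      unfold GG
      refine sum_le_sum fun n _ => ?_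
      have e2 : ∑ p ∈ Tp y x1, (1 - Vd (Tp y x) b t n) * Lp b x1 t p n * Vd (Wn M x (i - 1)) b t n =
          (1 - Vd (Tp y x) b t n) * Vd (Wn M x (i - 1)) b t n * ∑ p ∈ Tp y x1, Lp b x1 t p n := by
        rw [mul_sum]
        exact sum_congr rfl fun p _ => by ring
      rw [e2, hφt]
      have h3 := sum_Lp (b := b) (y := y) (x1 := x1) (t := t) (n := n)
      have h4 : 0 ≤ (1 - Vd (Tp y x) b t n) * Vd (Wn M x (i - 1)) b t n := by
        have := Vd_le_one (Tp y x) b t n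
        exact mul_nonneg (by linarith) (Vd_nonneg _ _ _ _)
      calc _ ≤ (1 - Vd (Tp y x) b t n) * Vd (Wn M x (i - 1)) b t n * 1 :=
            mul_le_mul_of_nonneg_left h3 h4
        _ = _ := by rw [mul_one]
    · refine mul_le_mul_of_nonneg_right ?_ hE0
      have h5 : (Tp y x1).card ≤ x1 := by
        calc (Tp y x1).card ≤ (Ioc y x1).card := card_filter_le _ _
          _ ≤ x1 := by rw [Nat.card_Ioc]; omega
      have h6 : (x1 : ℝ) ≤ 2 * x := by
        have h7 := xs_le (r := rr M) (by linarith [rr_gt hM]) x 1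
        rw [← hx1, pow_one] at h7
        have h8 := rr_le hM
        have h9 : (0 : ℝ) ≤ x := Nat.cast_nonneg x
        nlinarith
      have h7 : ((Tp y x1).card : ℝ) ≤ x1 := by exact_mod_cast h5
      linarith
  -- the sum of the pointwise inequality
  have hpt : ∑ n ∈ cel b z0 t j, (1 - Vd (Tp y x) b t n) * Vd (Tp x1 X) b t n *
      (1 - Vd (Tp X t) b t n) ≤
      ∑ n ∈ cel b z0 t j, (if Gd b y x1 X t t U n then (1 : ℝ) else 0) +
      ∑ n ∈ cel b z0 t j, ∑ p ∈ Tp y x1, ∑ q ∈ QU U p X t,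
      (1 - Vd (Tp y x) b t n) * Lp b x1 t p n * Vd (Wn M x (i - 1)) b t n *
        XX q (n / b ^ (t - q)) := by
    rw [← sum_add_distrib]
    exact sum_le_sum fun n _ => pointwise hxx1 hx1X U (Wn M x (i - 1)) hWsub
  have hG'0 : 0 ≤ G' := GG_nonneg hφ0 (i - 1)
  have h10 : C * θ * G' ≤ 3 * η / 8 * G' := by
    refine mul_le_mul_of_nonneg_right ?_ hG'0
    linarith
  have hmain : η * G - 3 * η / 8 * G' - 2 * x * E ≤
      ∑ n ∈ cel b z0 t j, (if Gd b y x1 X t t U n then (1 : ℝ) else 0) := by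
    linarith
  have h11 : 3 * η / 8 * G' ≤ η / 2 * G + η * E := by
    have h12 : 3 / 4 * G' ≤ G + 2 * E := by linarith
    have h13 := mul_le_mul_of_nonneg_left h12 (show 0 ≤ η / 2 by positivity)
    linarith
  have h12 : η / 2 * (η * (3 / 4) ^ i * (b : ℝ) ^ (t - z0) - 8 * E) ≤ η / 2 * G :=
    mul_le_mul_of_nonneg_left hGlow (by positivity)
  refine le_trans (le_of_eq ?_) (le_trans (show η / 2 * (η * (3 / 4) ^ i * (b : ℝ) ^ (t - z0) - 8 * E) -
    η * E - 2 * x * E ≤ _ by linarith) hmain)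
  rw [hE]
  ring

end

end Pool.Agent.Run7.h129.LG
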