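import Mathlib
import Pool.Agent.Run7.h129.LG.Ev
import Pool.Agent.Run7.h129.LG.Null

set_option autoImplicit false

/-!
# The measure of the amplitudes with given digits
-/

namespace Pool.Agent.Run7.h129.LG

open Finset Filter Topology MeasureTheory
open Pool.Agent.H305R2 (roughPart)
open Pool.Agent.N176.GP (cnt XX XX_nonneg cnt_eq bexp NB NB_spec NB_div)

lemma NB_const {b : ℕ} (hb : 2 ≤ b) {t n : ℕ} {β : ℝ} (h1 : (n : ℝ) / (b : ℝ) ^ t < β)
    (h2 : β ≤ ((n : ℝ) + 1) / (b : ℝ) ^ t) : NB b β t = n := by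
  have hb0 : (0 : ℝ) < b := by positivity
  have h3 : (0 : ℝ) < (b : ℝ) ^ t := by positivity
  rw [div_lt_iff₀ h3] at h1
  rw [le_div_iff₀ h3] at h2
  unfold NB
  have h4 : ⌈β * (b : ℝ) ^ t⌉₊ = n + 1 := by
    rw [Nat.ceil_eq_iff (by omega)]
    constructor
    · rw [Nat.add_sub_cancel]; exact h1
    · push_cast; exact h2
  omega

lemma measurable_NB (b t : ℕ) : Measurable (fun β : ℝ => NB b β t) := by
  unfold NB
  exact (measurable_of_countable (fun k : ℕ => k - 1)).comp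
    (Nat.measurable_ceil.comp (measurable_id.mul_const _))

lemma measurableSet_NB (b t : ℕ) (Pr : ℕ → Prop) : MeasurableSet {β : ℝ | Pr (NB b β t)} :=
  (measurable_NB b t) (MeasurableSet.of_discrete (s := {n | Pr n}))

lemma cell_mem {b : ℕ} (hb : 2 ≤ b) {z t j : ℕ} (hzt : z ≤ t) {β : ℝ}
    (h1 : (j : ℝ) / (b : ℝ) ^ z < β) (h2 : β ≤ ((j : ℝ) + 1) / (b : ℝ) ^ z) : NB b β t ∈ cel b z t j := by
  have hb0 : (0 : ℝ) < b := by positivity
  have hβ : 0 < β := lt_of_le_of_lt (by positivity) h1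
  have h3 : NB b β z = j := NB_const hb h1 h2
  have h4 := NB_div hb hβ hzt
  rw [h3] at h4
  have h5 := mem_cel hb (u := z) (t := t) (n := NB b β t)
  rwa [h4] at h5

lemma vol_cell {b : ℕ} (hb : 2 ≤ b) {z t j : ℕ} (hzt : z ≤ t) (Pr : ℕ → Prop) [DecidablePred Pr] (Q : ℝ)
    (hQ : (((cel b z t j).filter Pr).card : ℝ) ≤ Q * (b : ℝ) ^ t) :
    volume {β : ℝ | (j : ℝ) / (b : ℝ) ^ z < β ∧ β ≤ ((j : ℝ) + 1) / (b : ℝ) ^ z ∧ Pr (NB b β t)} ≤
      ENNReal.ofReal Q := by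
  have hb0 : (0 : ℝ) < b := by positivity
  have hbt : (0 : ℝ) < (b : ℝ) ^ t := by positivity
  set F := (cel b z t j).filter Pr with hF
  have hcover : {β : ℝ | (j : ℝ) / (b : ℝ) ^ z < β ∧ β ≤ ((j : ℝ) + 1) / (b : ℝ) ^ z ∧ Pr (NB b β t)} ⊆
      ⋃ n ∈ F, Set.Ioc ((n : ℝ) / (b : ℝ) ^ t) (((n : ℝ) + 1) / (b : ℝ) ^ t) := by
    rintro β ⟨h1, h2, h3⟩
    have hβ : 0 < β := lt_of_le_of_lt (by positivity) h1
    obtain ⟨h4, h5⟩ := NB_spec hb hβ t
    rw [Set.mem_iUnion₂]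
    refine ⟨NB b β t, mem_filter.2 ⟨cell_mem hb hzt h1 h2, h3⟩, ?_, ?_⟩
    · rw [div_lt_iff₀ hbt]; exact h4
    · rw [le_div_iff₀ hbt]; exact h5
  refine (measure_mono hcover).trans ((measure_biUnion_finset_le _ _).trans ?_)
  have h6 : ∀ n ∈ F, volume (Set.Ioc ((n : ℝ) / (b : ℝ) ^ t) (((n : ℝ) + 1) / (b : ℝ) ^ t)) =
      ENNReal.ofReal ((b : ℝ) ^ t)⁻¹ := by
    intro n _
    rw [Real.volume_Ioc]
    congr 1
    field_simp
    ring
  rw [Finset.sum_congr rfl h6, sum_const, nsmul_eq_mul]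
  rw [← ENNReal.ofReal_natCast, ← ENNReal.ofReal_mul (Nat.cast_nonneg _)]
  refine ENNReal.ofReal_le_ofReal ?_
  rw [← div_eq_mul_inv, div_le_iff₀ hbt]
  exact hQ

/-- the exponents of `β` in base `b` -/
def Ex (b : ℕ) (β : ℝ) (p : ℕ) : Prop := p.Prime ∧ (roughPart p (NB b β p)).Prime

lemma XX_one_iff {b : ℕ} (hb : 2 ≤ b) {β : ℝ} (hβ : 0 < β) {p t : ℕ} (hpt : p ≤ t) :
    XX p (NB b β t / b ^ (t - p)) = 1 ↔ (roughPart p (NB b β p)).Prime := by
  rw [NB_div hb hβ hpt]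
  unfold XX
  constructor
  · intro h
    by_contra h1
    rw [if_neg h1] at h
    exact zero_ne_one h
  · intro h
    rw [if_pos h]

section

variable {b M : ℕ} {C δ : ℝ} {K P : ℕ} {D : ℕ} {η : ℝ} {Ph : ℕ}

/-- the event `Gd` for the amplitude `β` -/
def GdB (b M D i : ℕ) (U : Set ℝ) (y : ℕ) (β : ℝ) : Prop :=
  Gd b y (xs (rr M) (D * y) 1) (xs (rr M) (D * y) i) (D * xs (rr M) (D * y) i)
        (D * xs (rr M) (D * y) i) U (NB b β (D * xs (rr M) (D * y) i))

theorem ae_event (hc : Cst b M C δ K P) (hh : Hc b D η Ph) {θ : ℝ} (hθ : 8 * C * θ ≤ 3 * η) {i : ℕ}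
    (hi : 2 ≤ i) (U : Set ℝ) (hU : ∃ Y : ℕ, ∀ y ≥ Y, ∀ p ∈ Tp y (xs (rr M) (D * y) 1),
      ∑ q ∈ QU U p (xs (rr M) (D * y) i) (D * xs (rr M) (D * y) i), Real.log q / q ≤ θ) :
    ∀ᵐ β : ℝ, 0 < β → ∃ᶠ y : ℕ in atTop, GdB b M D i U y β := by
  classical
  have hb := hh.hb
  have hD := hh.hD
  have hη := hh.h0
  have hη1 := hh.h1
  have hδ := hc.hδ
  have hM := hc.hM
  obtain ⟨Y, hY⟩ := hU
  set v : ℝ := η ^ 2 / 4 * (3 / 4) ^ i with hv
  have hv0 : 0 < v := by positivity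
  have hv1 : v < 1 := by
    have h1 : (3 / 4 : ℝ) ^ i ≤ 1 := pow_le_one₀ (by norm_num) (by norm_num)
    have h2 : η ^ 2 < 1 := by nlinarith
    have h3 : (0 : ℝ) ≤ (3 / 4 : ℝ) ^ i := by positivity
    rw [hv]
    nlinarith
  have hD0 : (0 : ℝ) < D := by
    have : 0 < D := by omega
    exact_mod_cast this
  -- the error is small
  have herr : ∀ᶠ y : ℕ in atTop, (5 * η + 2 * (D * y)) * Real.exp (-(δ * (D * y))) ≤ v := by
    have h1 := (Real.tendsto_pow_mul_exp_neg_atTop_nhds_zero 1)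
    have h2 := (Real.tendsto_exp_neg_atTop_nhds_zero)
    have h3 : Tendsto (fun y : ℕ => δ * ((D : ℝ) * y)) atTop atTop :=
      ((tendsto_natCast_atTop_atTop (R := ℝ)).const_mul_atTop hD0).const_mul_atTop hδ
    have h4 := ((h2.comp h3).const_mul (5 * η)).add ((h1.comp h3).const_mul (2 / δ))
    rw [mul_zero, mul_zero, add_zero] at h4
    filter_upwards [h4.eventually_lt_const hv0] with y hy
    simp only [Function.comp, pow_one] at hy
    refine le_trans (le_of_eq ?_) hy.le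
    field_simp
  obtain ⟨Y2, hY2⟩ := eventually_atTop.1 herr
  set Bad : ℕ → Set ℝ := fun m => {β | 0 < β ∧ ∀ y : ℕ, m ≤ y → ¬ GdB b M D i U y β} with hBad
  have hBadm : ∀ m, MeasurableSet (Bad m) := by
    intro m
    have e : Bad m = Set.Ioi 0 ∩ ⋂ y : ℕ, ⋂ _ : m ≤ y, {β | ¬ GdB b M D i U y β} := by
      ext β
      simp only [hBad, Set.mem_ofPred_eq, Set.mem_inter_iff, Set.mem_Ioi, Set.mem_iInter]
    rw [e]
    refine measurableSet_Ioi.inter (MeasurableSet.iInter fun y => MeasurableSet.iInter fun _ => ?_)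
    exact measurableSet_NB b _ (fun n => ¬ Gd b y (xs (rr M) (D * y) 1) (xs (rr M) (D * y) i)
      (D * xs (rr M) (D * y) i) (D * xs (rr M) (D * y) i) U n)
  have hnull : ∀ m, volume (Bad m) = 0 := by
    intro m
    refine null_of_cells hb (hBadm m) (fun x hx => hx.1) (θ := 1 - v) (by linarith) (by linarith)
      fun z j hj1 hj2 => ?_
    obtain ⟨y, hy⟩ : ∃ y, y = max (max (max Y Y2) (max P Ph)) (max m (K * z + (z + 1))) := ⟨_, rfl⟩
    have hyY : Y ≤ y := by
      rw [hy]; exact ((le_max_left _ _).trans (le_max_left _ _)).trans (le_max_left _ _)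
    have hyY2 : Y2 ≤ y := by
      rw [hy]; exact ((le_max_right _ _).trans (le_max_left _ _)).trans (le_max_left _ _)
    have hyP : P ≤ y := by
      rw [hy]; exact ((le_max_left _ _).trans (le_max_right _ _)).trans (le_max_left _ _)
    have hyPh : Ph ≤ y := by
      rw [hy]; exact ((le_max_right _ _).trans (le_max_right _ _)).trans (le_max_left _ _)
    have hym : m ≤ y := by
      rw [hy]; exact (le_max_left _ _).trans (le_max_right _ _)
    have hyz : K * z + (z + 1) ≤ y := by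
      rw [hy]; exact (le_max_right _ _).trans (le_max_right _ _)
    have hev := event_cell hc hh hθ hi hyP hyPh (show K * z ≤ y by omega) (show z + 1 ≤ y by omega)
      hj1 hj2 U (hY y hyY)
    have hey := hY2 y hyY2
    obtain ⟨t, ht⟩ : ∃ t, t = D * xs (rr M) (D * y) i := ⟨_, rfl⟩
    have hyt : y ≤ t := by
      have h1 := xs_mono (rr_gt hM).le (D * y) (Nat.zero_le i)
      rw [xs_zero] at h1
      have h2 : y ≤ D * y := Nat.le_mul_of_pos_left y (by omega)
      have h3 : xs (rr M) (D * y) i ≤ t := by rw [ht]; exact Nat.le_mul_of_pos_left _ (by omega)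
      omega
    have hzt : z ≤ t := by omega
    have hGdB : ∀ β, GdB b M D i U y β ↔ Gd b y (xs (rr M) (D * y) 1) (xs (rr M) (D * y) i) t t U
        (NB b β t) := by
      intro β
      unfold GdB
      rw [← ht]
    rw [← ht] at hev
    set A : ℕ → Prop := fun n => Gd b y (xs (rr M) (D * y) 1) (xs (rr M) (D * y) i) t t U n with hA
    have hcard : (((cel b z t j).filter (fun n => ¬ A n)).card : ℝ) ≤
        (1 - v) * ((b : ℝ) ^ z)⁻¹ * (b : ℝ) ^ t := by
      have h1 : (((cel b z t j).filter (fun n => ¬ A n)).card : ℝ) +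
          ∑ n ∈ cel b z t j, (if A n then (1 : ℝ) else 0) = (b : ℝ) ^ (t - z) := by
        rw [← sum_filter, sum_const, nsmul_eq_mul, mul_one]
        have h2 := card_filter_add_card_filter_not (s := cel b z t j) (p := A)
        rw [cel_card] at h2
        have h3 : (((cel b z t j).filter A).card : ℝ) + (((cel b z t j).filter (fun n => ¬ A n)).card : ℝ) =
            (b : ℝ) ^ (t - z) := by exact_mod_cast h2
        linarith
      have h2 : (1 - v) * ((b : ℝ) ^ z)⁻¹ * (b : ℝ) ^ t = (1 - v) * (b : ℝ) ^ (t - z) := by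
        have hb0 : (0 : ℝ) < b := by positivity
        rw [pow_sub₀ _ hb0.ne' hzt]
        ring
      rw [h2]
      have h3 : (0 : ℝ) < (b : ℝ) ^ (t - z) := by
        have hb0 : (0 : ℝ) < b := by positivity
        positivity
      have h4 : v ≤ η / 2 * (η * (3 / 4) ^ i) - (5 * η + 2 * (D * y)) * Real.exp (-(δ * (D * y))) := by
        have : η / 2 * (η * (3 / 4) ^ i) = 2 * v := by rw [hv]; ring
        linarith
      have h5 := mul_le_mul_of_nonneg_right h4 h3.le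
      linarith
    have hvol := vol_cell hb hzt (fun n => ¬ A n) ((1 - v) * ((b : ℝ) ^ z)⁻¹) hcard
    refine (measure_mono ?_).trans hvol
    rintro β ⟨hβ, hβc⟩
    refine ⟨hβc.1, hβc.2, ?_⟩
    rw [hA]
    exact fun h => hβ.2 y hym ((hGdB β).2 h)
  have hall : ∀ᵐ β : ℝ, ∀ m, β ∉ Bad m := by
    rw [ae_all_iff]
    intro m
    rw [ae_iff]
    simpa using hnull m
  filter_upwards [hall] with β hβ hβ0
  rw [frequently_atTop]
  intro m
  have h1 := hβ m
  simp only [hBad, Set.mem_ofPred_eq, not_and] at h1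
  have h2 := h1 hβ0
  push Not at h2
  obtain ⟨y, hy1, hy2⟩ := h2
  exact ⟨y, hy1, hy2⟩

end

end Pool.Agent.Run7.h129.LG
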