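import Mathlib
import Pool.Agent.Run7.h129.LG.Meas
import Pool.Agent.Run7.h129.Mer.Lim
import Pool.Agent.Y122.PC.Sum

set_option autoImplicit false

/-!
# The limit points of the logarithms of the ratios of consecutive exponents
-/

namespace Pool.Agent.Run7.h129.LG

open Finset Filter Topology MeasureTheory
open Pool.Agent.H305R2 (roughPart)
open Pool.Agent.N176.GP (cnt XX XX_nonneg cnt_eq bexp NB NB_spec NB_div)
open Pool.Agent.Run7.h129.Mer (Consec LimSet gap LogDens grid)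

lemma sum_biU {ι : Type*} (s : Finset ι) (f : ι → Finset ℕ) (g : ℕ → ℝ) (hg : ∀ q, 0 ≤ g q) :
    ∑ q ∈ s.biUnion f, g q ≤ ∑ k ∈ s, ∑ q ∈ f k, g q := by
  classical
  induction s using Finset.induction_on with
  | empty => simp
  | insert a s ha ih =>
    rw [biUnion_insert, sum_insert ha]
    have h1 := sum_union_inter (s₁ := f a) (s₂ := s.biUnion f) (f := g)
    have h2 : 0 ≤ ∑ q ∈ f a ∩ s.biUnion f, g q := sum_nonneg fun q _ => hg q
    linarith

/-- thin sets of ratios -/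
lemma thin {ι : Type*} (s : Finset ι) (u v : ι → ℝ) {ε : ℝ} (hε : 0 < ε) : ∃ P : ℕ, ∀ p ≥ P, ∀ X X' : ℕ,
    ∑ q ∈ QU {x | ∃ k ∈ s, u k < x ∧ x ≤ v k} p X X', Real.log q / q ≤
      ∑ k ∈ s, max 0 (v k - u k) + ε := by
  classical
  have key : ∀ k ∈ s, ∃ P : ℕ, ∀ p ≥ P, ∑ q ∈ Pool.Agent.Y122.PC.Pr (Real.exp (u k) * p)
      (Real.exp (v k) * p), Real.log q / q ≤ max 0 (v k - u k) + ε / (s.card + 1) := by
    intro k _
    have hε' : 0 < ε / (s.card + 1) := by positivity
    rcases lt_or_ge (u k) (v k) with huv | huv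
    · have hab : Real.exp (u k) < Real.exp (v k) := Real.exp_lt_exp.2 huv
      have h1 := Pool.Agent.Y122.PC.mertens (Real.exp_pos (u k)) hab
      have h2 : Real.log (Real.exp (v k) / Real.exp (u k)) = v k - u k := by
        rw [← Real.exp_sub, Real.log_exp]
      rw [h2] at h1
      have h3 := (h1.comp tendsto_natCast_atTop_atTop).eventually
        (gt_mem_nhds (show v k - u k < v k - u k + ε / (s.card + 1) by linarith))
      obtain ⟨P, hP⟩ := h3.exists_forall_of_atTop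
      refine ⟨P, fun p hp => ?_⟩
      have h4 := (hP p hp).le
      simp only [Function.comp, Pool.Agent.Y122.PC.w] at h4
      have := le_max_right 0 (v k - u k)
      linarith
    · refine ⟨0, fun p _ => ?_⟩
      have e : Pool.Agent.Y122.PC.Pr (Real.exp (u k) * p) (Real.exp (v k) * p) = ∅ := by
        rw [eq_empty_iff_forall_notMem]
        intro q hq
        rw [Pool.Agent.Y122.PC.mem_Pr (by positivity) (by positivity)] at hq
        have h1 : Real.exp (v k) * p ≤ Real.exp (u k) * p :=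
          mul_le_mul_of_nonneg_right (Real.exp_le_exp.2 huv) (Nat.cast_nonneg p)
        linarith [hq.2.1, hq.2.2]
      rw [e, sum_empty]
      have := le_max_left 0 (v k - u k)
      linarith
  choose! Pk hPk using key
  refine ⟨∑ k ∈ s, Pk k + 1, fun p hp X X' => ?_⟩
  have hp0 : (0 : ℝ) < p := by
    have : 0 < p := by omega
    exact_mod_cast this
  have hsub : QU {x | ∃ k ∈ s, u k < x ∧ x ≤ v k} p X X' ⊆
      s.biUnion (fun k => Pool.Agent.Y122.PC.Pr (Real.exp (u k) * p) (Real.exp (v k) * p)) := by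
    intro q hq
    obtain ⟨h1, k, hk, h2, h3⟩ := mem_QU.1 hq
    have hpr := (mem_Tp.1 h1).2
    rw [mem_biUnion]
    refine ⟨k, hk, ?_⟩
    have hq0 : (0 : ℝ) < (q : ℝ) / p := by
      have : (0 : ℝ) < q := by exact_mod_cast hpr.pos
      positivity
    rw [Pool.Agent.Y122.PC.mem_Pr (by positivity) (by positivity)]
    refine ⟨hpr, ?_, ?_⟩
    · rw [← lt_div_iff₀ hp0]
      exact (Real.lt_log_iff_exp_lt hq0).1 h2
    · rw [← div_le_iff₀ hp0]
      exact (Real.log_le_iff_le_exp hq0).1 h3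
  have hnn : ∀ q : ℕ, 0 ≤ Real.log q / q := fun q => by
    have := Real.log_natCast_nonneg q
    positivity
  calc ∑ q ∈ QU {x | ∃ k ∈ s, u k < x ∧ x ≤ v k} p X X', Real.log q / q
      ≤ ∑ q ∈ s.biUnion (fun k => Pool.Agent.Y122.PC.Pr (Real.exp (u k) * p) (Real.exp (v k) * p)),
        Real.log q / q := sum_le_sum_of_subset_of_nonneg hsub fun q _ _ => hnn q
    _ ≤ ∑ k ∈ s, ∑ q ∈ Pool.Agent.Y122.PC.Pr (Real.exp (u k) * p) (Real.exp (v k) * p), Real.log q / q :=
        sum_biU s _ _ hnn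
    _ ≤ ∑ k ∈ s, (max 0 (v k - u k) + ε / (s.card + 1)) := by
        refine sum_le_sum fun k hk => hPk k hk p ?_
        have := single_le_sum (f := Pk) (fun _ _ => Nat.zero_le _) hk
        omega
    _ ≤ _ := by
        rw [sum_add_distrib, sum_const, nsmul_eq_mul]
        refine add_le_add le_rfl ?_
        rw [← mul_div_assoc, div_le_iff₀ (by positivity)]
        have : (0 : ℝ) ≤ s.card := Nat.cast_nonneg _
        nlinarith

section

variable {b M : ℕ} {C δ : ℝ} {K P : ℕ} {D : ℕ} {η : ℝ} {Ph : ℕ}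

/-- consecutive exponents from the event -/
lemma consec_of_event (hc : Cst b M C δ K P) (hh : Hc b D η Ph) {i : ℕ} (hi : 2 ≤ i) (U : Set ℝ) :
    ∀ᶠ y : ℕ in atTop, ∀ β : ℝ, 0 < β → GdB b M D i U y β → ∃ p q : ℕ, y < p ∧ Consec (Ex b β) p q ∧
      ((i : ℝ) - 2) * Real.log (rr M) < Real.log ((q : ℝ) / p) ∧
      Real.log ((q : ℝ) / p) ≤ i * Real.log (rr M) + 2 * Real.log D ∧ Real.log ((q : ℝ) / p) ∉ U := by
  have hb := hh.hb
  have hM := hc.hM
  have hr := rr_gt hM
  have hr0 : 0 < rr M := by linarith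
  have hD2 : (2 : ℝ) ≤ D := by exact_mod_cast hh.hD
  filter_upwards [mul_large (rr M - 1) (by linarith) 2, eventually_ge_atTop 1] with y hy hy1 β hβ hG
  obtain ⟨p, hp, q, hq, h1, h2, h3, h4⟩ := hG
  obtain ⟨⟨hp1, hp2⟩, hp3⟩ := mem_Tp.1 hp
  obtain ⟨⟨hq1, hq2⟩, hq3⟩ := mem_Tp.1 hq
  have hmono := xs_mono hr.le (D * y)
  have hx1X : xs (rr M) (D * y) 1 ≤ xs (rr M) (D * y) i := hmono (by omega)
  have hpq : p < q := by omega
  have hpt : p ≤ D * xs (rr M) (D * y) i := by omega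
  have hp0 : (0 : ℝ) < p := by exact_mod_cast hp3.pos
  have hq0 : (0 : ℝ) < q := by exact_mod_cast hq3.pos
  have hy0 : (1 : ℝ) ≤ y := by exact_mod_cast hy1
  refine ⟨p, q, hp1, ⟨⟨hp3, (XX_one_iff hb hβ hpt).1 h1⟩, ⟨hq3, (XX_one_iff hb hβ hq2).1 h2⟩, hpq,
    fun s hs1 hs2 hs => ?_⟩, ?_, ?_, h4⟩
  · have h5 := h3 s hs.1 hs1 hs2
    have h6 := (XX_one_iff hb hβ (show s ≤ D * xs (rr M) (D * y) i by omega)).2 hs.2
    rw [h6] at h5
    exact one_ne_zero h5
  · -- lower bound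
    have e1 : ((i : ℝ) - 2) * Real.log (rr M) = Real.log (rr M ^ (i - 2)) := by
      rw [Real.log_pow, Nat.cast_sub hi]
      push_cast
      ring
    rw [e1]
    refine Real.log_lt_log (by positivity) ?_
    rw [lt_div_iff₀ hp0]
    have h5 : (p : ℝ) ≤ (D * y : ℕ) * rr M ^ 1 := by
      have : (p : ℝ) ≤ xs (rr M) (D * y) 1 := by exact_mod_cast hp2
      exact this.trans (xs_le hr0.le _ _)
    have h6 : ((D * y : ℕ) : ℝ) * rr M ^ i < q := by
      have h7 := lt_xs (rr M) (D * y) i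
      have h8 : (xs (rr M) (D * y) i : ℝ) + 1 ≤ q := by exact_mod_cast hq1
      linarith
    refine lt_of_le_of_lt ?_ h6
    have h7 : rr M ^ i = rr M ^ (i - 2) * (rr M * rr M) := by
      rw [← sq, ← pow_add]
      congr 1
      omega
    have h8 : (0 : ℝ) ≤ ((D * y : ℕ) : ℝ) := Nat.cast_nonneg _
    calc rr M ^ (i - 2) * (p : ℝ) ≤ rr M ^ (i - 2) * (((D * y : ℕ) : ℝ) * rr M ^ 1) := by gcongr
      _ = ((D * y : ℕ) : ℝ) * (rr M ^ (i - 2) * (rr M * 1)) := by ring
      _ ≤ ((D * y : ℕ) : ℝ) * (rr M ^ (i - 2) * (rr M * rr M)) := by gcongr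
      _ = _ := by rw [h7]
  · have e1 : i * Real.log (rr M) + 2 * Real.log D = Real.log (rr M ^ i * (D : ℝ) ^ 2) := by
      rw [Real.log_mul (by positivity) (by positivity), Real.log_pow, Real.log_pow]
      push_cast
      ring
    rw [e1]
    refine Real.log_le_log (by positivity) ?_
    rw [div_le_iff₀ hp0]
    have h5 : (q : ℝ) ≤ D * (D * y * rr M ^ i) := by
      have h6 : (q : ℝ) ≤ D * xs (rr M) (D * y) i := by exact_mod_cast hq2
      have h7 := xs_le hr0.le (D * y) i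
      push_cast at h7
      refine h6.trans (mul_le_mul_of_nonneg_left h7 (by linarith))
    have h6 : (y : ℝ) ≤ p := by exact_mod_cast hp1.le
    calc (q : ℝ) ≤ D * (D * y * rr M ^ i) := h5
      _ = rr M ^ i * (D : ℝ) ^ 2 * y := by ring
      _ ≤ _ := by gcongr

/-- for almost every amplitude there are infinitely many consecutive exponents with the logarithm of
the ratio in a given long interval and outside of given intervals of small total length -/
theorem ae_limit (hc : Cst b M C δ K P) (hh : Hc b D η Ph) {i : ℕ} (hi : 2 ≤ i) {ι : Type*}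
    (s : Finset ι) (u v : ι → ℝ) (hs : ∑ k ∈ s, max 0 (v k - u k) ≤ 3 * η / (16 * C)) :
    ∀ᵐ β : ℝ, 0 < β → ∃ᶠ p : ℕ in atTop, ∃ q : ℕ, Consec (Ex b β) p q ∧
      ((i : ℝ) - 2) * Real.log (rr M) < Real.log ((q : ℝ) / p) ∧
      Real.log ((q : ℝ) / p) ≤ i * Real.log (rr M) + 2 * Real.log D ∧
      ∀ k ∈ s, ¬ (u k < Real.log ((q : ℝ) / p) ∧ Real.log ((q : ℝ) / p) ≤ v k) := by
  have hη := hh.h0
  have hC := hc.hC
  set θ : ℝ := 3 * η / (8 * C) with hθ
  obtain ⟨Y, hY⟩ := thin s u v (show 0 < 3 * η / (16 * C) by positivity)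
  have hae := ae_event hc hh (θ := θ) (by rw [hθ]; field_simp; norm_num) hi
    {x | ∃ k ∈ s, u k < x ∧ x ≤ v k} ⟨Y, fun y hy p hp => by
      refine (hY p (by
        have := (mem_Tp.1 hp).1.1
        omega) _ _).trans ?_
      rw [hθ]
      have : 3 * η / (8 * C) = 3 * η / (16 * C) + 3 * η / (16 * C) := by field_simp; norm_num
      linarith⟩
  obtain ⟨Y2, hY2⟩ := eventually_atTop.1 (consec_of_event hc hh hi {x | ∃ k ∈ s, u k < x ∧ x ≤ v k})
  filter_upwards [hae] with β hβ hβ0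
  rw [frequently_atTop]
  intro m
  obtain ⟨y, hy, hG⟩ := frequently_atTop.1 (hβ hβ0) (max m Y2)
  obtain ⟨p, q, h1, h2, h3, h4, h5⟩ := hY2 y ((le_max_right _ _).trans hy) β hβ0 hG
  refine ⟨p, by have := (le_max_left m Y2).trans hy; omega, q, h2, h3, h4, fun k hk hcon => ?_⟩
  exact h5 ⟨k, hk, hcon⟩

end

end Pool.Agent.Run7.h129.LG
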