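import Mathlib
import Pool.Agent.W66.ST
import Pool.Agent.Run7.h129.LG.Lim2

set_option autoImplicit false

/-!
# The limit points of the logarithms of the ratios have positive lower density
-/

namespace Pool.Agent.Run7.h129.LG

open Finset Filter Topology MeasureTheory
open Pool.Agent.H305R2 (roughPart)
open Pool.Agent.N176.GP (cnt XX XX_nonneg cnt_eq bexp NB NB_spec NB_div)
open Pool.Agent.Run7.h129.Mer (Consec LimSet gap LogDens grid)

noncomputable instance (b : ℕ) (β : ℝ) : DecidablePred (Ex b β) := fun _ => Classical.propDecidable _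

/-- the law, as logarithmic density -/
lemma ae_dens {b : ℕ} (hb : 2 ≤ b) : ∀ᵐ β : ℝ, 0 < β →
    LogDens (Ex b β) (Real.exp Real.eulerMascheroniConstant / Real.log b) := by
  have h := Pool.Agent.W66S.law_base (b := b) hb
  have hb1 : (1 : ℝ) < b := by exact_mod_cast hb
  filter_upwards [h] with β hβ hβ0
  have h1 := hβ hβ0
  refine ⟨div_pos (Real.exp_pos _) (Real.log_pos hb1), fun h0 => Nat.not_prime_zero h0.1, ?_⟩
  refine h1.congr fun n => ?_
  congr 1
  rw [Nat.count_eq_card_filter_range]
  norm_cast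
  unfold Pool.Agent.W66S.cnt
  refine congrArg Finset.card ?_
  refine Finset.filter_congr fun p _ => ?_
  unfold Ex NB
  rfl

section

variable {E : ℕ → Prop} [DecidablePred E] {κ : ℝ}

/-- consecutive elements are consecutive in the enumeration -/
lemma gap_count {p q : ℕ} (h : Consec E p q) :
    gap E (Nat.count E p) = Real.log ((q : ℝ) / p) := by
  obtain ⟨hp, hq, hpq, hno⟩ := h
  have h1 : Nat.nth E (Nat.count E p) = p := Nat.nth_count hp
  have h2 : Nat.count E q = Nat.count E p + 1 := by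
    have e : Nat.count E q = Nat.count E (p + 1) := by
      obtain ⟨d, rfl⟩ : ∃ d, q = p + 1 + d := ⟨q - (p + 1), by omega⟩
      rw [Nat.count_add]
      have h3 : Nat.count (fun k => E (p + 1 + k)) d = 0 := by
        rw [Nat.count_eq_card_filter_range, card_eq_zero, filter_eq_empty_iff]
        intro k hk
        rw [mem_range] at hk
        exact hno (p + 1 + k) (by omega) (by omega)
      rw [h3, add_zero]
    rw [e, Nat.count_succ, if_pos hp]
  have h3 : Nat.nth E (Nat.count E p + 1) = q := by rw [← h2]; exact Nat.nth_count hq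
  unfold gap
  rw [h1, h3]

lemma freq_gap (h : LogDens E κ) {R : ℝ → Prop}
    (hf : ∃ᶠ p : ℕ in atTop, ∃ q : ℕ, Consec E p q ∧ R (Real.log ((q : ℝ) / p))) :
    ∃ᶠ j in atTop, R (gap E j) := by
  have h1 : Tendsto (fun p : ℕ => Nat.count E p) atTop atTop :=
    (tendsto_add_atTop_iff_nat 1).1 h.count_atTop
  refine h1.frequently (hf.mono ?_)
  rintro p ⟨q, h2, h3⟩
  rw [gap_count h2]
  exact h3

end

/-- the parts of an interval in consecutive blocks -/
lemma clamp_sum {W : ℝ} (hW : 0 < W) {u v : ℝ} (huv : u ≤ v) (n : ℕ) :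
    ∑ k ∈ range n, max 0 (min v (((k : ℝ) + 1) * W) - max u (k * W)) ≤ v - u := by
  have key : ∀ n : ℕ, ∑ k ∈ range n, max 0 (min v (((k : ℝ) + 1) * W) - max u (k * W)) ≤
      max 0 (min v ((n : ℝ) * W) - u) := by
    intro n
    induction n with
    | zero => simp
    | succ n ih =>
      rw [sum_range_succ]
      push_cast
      have hn : (n : ℝ) * W ≤ ((n : ℝ) + 1) * W := by nlinarith
      set a := (n : ℝ) * W
      set c := ((n : ℝ) + 1) * W
      rcases le_total v a with h1 | h1
      · -- v ≤ a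
        have h2 : min v a = v := min_eq_left h1
        have h3 : min v c = v := min_eq_left (h1.trans hn)
        have h4 : max 0 (min v c - max u a) = 0 := by
          rw [h3]
          refine max_eq_left ?_
          have := le_max_right u a
          linarith
        rw [h4, add_zero, h3]
        rw [h2] at ih
        exact ih
      · have h2 : min v a = a := min_eq_right h1
        rw [h2] at ih
        rcases le_total u a with h5 | h5
        · have h6 : max u a = a := max_eq_right h5
          have h7 : max 0 (a - u) = a - u := max_eq_right (by linarith)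
          have h8 : a ≤ min v c := le_min h1 hn
          have h9 : max 0 (min v c - max u a) = min v c - a := by
            rw [h6]; exact max_eq_right (by linarith)
          rw [h9]
          rw [h7] at ih
          refine le_trans ?_ (le_max_right _ _)
          linarith
        · have h6 : max u a = u := max_eq_left h5
          have h7 : max 0 (a - u) = 0 := max_eq_left (by linarith)
          rw [h6]
          rw [h7] at ih
          linarith
  refine (key n).trans (max_le (by linarith) ?_)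
  have := min_le_left v ((n : ℝ) * W)
  linarith

/-- **The set of the limit points has positive lower density.** -/
theorem density {b : ℕ} (hb : 2 ≤ b) : ∃ c T0 : ℝ, 0 < c ∧ 0 < T0 ∧ ∀ᵐ β : ℝ, 0 < β →
    ∀ T : ℝ, T0 ≤ T → ENNReal.ofReal (c * T) ≤ volume (LimSet (Ex b β) ∩ Set.Icc 0 T) := by
  classical
  obtain ⟨M, C, δ, K, P, hc⟩ := exists_cst hb
  obtain ⟨D, η, Ph, hD, hη0, hη1, hcell⟩ := hit_cell hb
  have hh : Hc b D η Ph := ⟨hb, hD, hη0, hη1, hcell⟩
  have hC := hc.hC
  have hr := rr_gt hc.hM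
  set lr := Real.log (rr M) with hlr
  have hlr0 : 0 < lr := Real.log_pos hr
  set ld := Real.log (D : ℝ) with hld
  have hld0 : 0 < ld := Real.log_pos (by exact_mod_cast hD)
  set s0 : ℕ := ⌈(2 * lr + 2 * ld) / lr⌉₊ with hs0
  have hs1 : 2 * lr + 2 * ld ≤ s0 * lr := by
    have := Nat.le_ceil ((2 * lr + 2 * ld) / lr)
    rwa [div_le_iff₀ hlr0] at this
  set W : ℝ := s0 * lr with hWdef
  have hW : 0 < W := by linarith
  set θ : ℝ := 3 * η / (16 * C) with hθ
  have hθ0 : 0 < θ := by positivity
  refine ⟨θ / (2 * W), 2 + 2 * W, by positivity, by positivity, ?_⟩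
  have hall : ∀ᵐ β : ℝ, ∀ (N m : ℕ) (T : Finset ℕ), 0 < m → T ⊆ range m →
      ∑ _i ∈ T, (N : ℝ) / (m : ℝ) < (⌊(N : ℝ) / W⌋₊ : ℝ) * θ → 0 < β →
      ∃ᶠ p : ℕ in atTop, ∃ q : ℕ, Consec (Ex b β) p q ∧
        (Real.log ((q : ℝ) / p) ∉ (⋃ i ∈ T, grid N m i) ∧ Real.log ((q : ℝ) / p) ≤ N) := by
    rw [ae_all_iff]
    intro N
    rw [ae_all_iff]
    intro m
    rw [ae_all_iff]
    intro T
    by_cases hm : 0 < m
    swap
    · exact Eventually.of_forall fun β h1 => absurd h1 hm
    by_cases hsum : ∑ _i ∈ T, (N : ℝ) / (m : ℝ) < (⌊(N : ℝ) / W⌋₊ : ℝ) * θ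
    swap
    · exact Eventually.of_forall fun β _ _ h1 => absurd h1 hsum
    have hm0 : (0 : ℝ) < m := by exact_mod_cast hm
    have hN0 : (0 : ℝ) ≤ N := Nat.cast_nonneg N
    set n := ⌊(N : ℝ) / W⌋₊ with hn
    have hnW : (n : ℝ) * W ≤ N := by
      have := Nat.floor_le (show 0 ≤ (N : ℝ) / W by positivity)
      rwa [← hn, le_div_iff₀ hW] at this
    set u : ℕ → ℝ := fun i => i * ((N : ℝ) / m) with hu
    set v : ℕ → ℝ := fun i => (i + 1) * ((N : ℝ) / m) with hv
    have huv : ∀ i, v i - u i = (N : ℝ) / m := fun i => by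
      simp only [hu, hv]
      ring
    have hNm : 0 ≤ (N : ℝ) / m := by positivity
    obtain ⟨k, hk, hk2⟩ : ∃ k ∈ range n, ∑ i ∈ T,
        max 0 (min (v i) (((k : ℝ) + 1) * W) - max (u i) (k * W)) ≤ θ := by
      by_contra hcon
      push Not at hcon
      have h1 : ∑ _k ∈ range n, θ ≤ ∑ k ∈ range n, ∑ i ∈ T,
          max 0 (min (v i) (((k : ℝ) + 1) * W) - max (u i) (k * W)) :=
        sum_le_sum fun k hk => (hcon k hk).le
      rw [sum_const, card_range, nsmul_eq_mul, sum_comm] at h1
      have h2 : ∑ i ∈ T, ∑ k ∈ range n, max 0 (min (v i) (((k : ℝ) + 1) * W) - max (u i) (k * W)) ≤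
          ∑ _i ∈ T, (N : ℝ) / (m : ℝ) := by
        refine sum_le_sum fun i _ => ?_
        have h3 := clamp_sum hW (u := u i) (v := v i) (by
          have := huv i
          linarith) n
        rw [huv i] at h3
        exact h3
      linarith
    rw [mem_range] at hk
    have hlim := ae_limit hc hh (i := 2 + s0 * k) (by omega) T (fun i => max (u i) (k * W))
      (fun i => min (v i) (((k : ℝ) + 1) * W)) hk2
    filter_upwards [hlim] with β hβ _ _ _ hβ0
    refine (hβ hβ0).mono ?_
    rintro p ⟨q, h1, h2, h3, h4⟩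
    have h5 : (k : ℝ) * W < Real.log ((q : ℝ) / p) := by
      refine lt_of_le_of_lt (le_of_eq ?_) h2
      push_cast
      rw [hWdef]
      ring
    have h6 : Real.log ((q : ℝ) / p) ≤ ((k : ℝ) + 1) * W := by
      refine h3.trans ?_
      push_cast
      rw [← hlr, ← hld]
      have : ((k : ℝ) + 1) * W = (s0 * k) * lr + s0 * lr := by rw [hWdef]; ring
      rw [this]
      nlinarith
    refine ⟨q, h1, ?_, ?_⟩
    · rw [Set.mem_iUnion₂]
      rintro ⟨i, hi, hgi⟩
      refine h4 i hi ⟨max_lt ?_ h5, le_min ?_ h6⟩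
      · exact hgi.1
      · exact hgi.2
    · refine h6.trans (le_trans ?_ hnW)
      have : ((k : ℝ) + 1) ≤ n := by exact_mod_cast hk
      exact mul_le_mul_of_nonneg_right this hW.le
  filter_upwards [hall, ae_dens hb] with β hβ hdens hβ0 T hT
  have hd := hdens hβ0
  set N := ⌊T⌋₊ with hNdef
  have hT0 : 0 ≤ T := by linarith
  have hNT : (N : ℝ) ≤ T := Nat.floor_le hT0
  have hNT2 : T < N + 1 := Nat.lt_floor_add_one T
  have hNpos : (0 : ℝ) < N := by linarith
  have hvol := hd.volume_LimSet (L := (N : ℝ)) (c := (⌊(N : ℝ) / W⌋₊ : ℝ) * θ) hNpos (by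
    intro m hm S hS hsum
    exact freq_gap hd (R := fun x => x ∉ (⋃ i ∈ S, grid N m i) ∧ x ≤ N) (hβ N m S hm hS hsum hβ0))
  refine (ENNReal.ofReal_le_ofReal ?_).trans (hvol.trans (measure_mono (Set.inter_subset_inter_right _
    (Set.Icc_subset_Icc_right hNT))))
  have h1 : (N : ℝ) / W < ⌊(N : ℝ) / W⌋₊ + 1 := Nat.lt_floor_add_one _
  rw [div_lt_iff₀ hW] at h1
  rw [div_mul_eq_mul_div, div_le_iff₀ (by positivity)]
  have h2 : T ≤ 2 * W * (⌊(N : ℝ) / W⌋₊ : ℝ) := by nlinarith
  nlinarith

end Pool.Agent.Run7.h129.LG
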