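import Mathlib
import Pool.Agent.Run7.h129.LG.Dens

set_option autoImplicit false

/-!
# The longest gaps between the exponents: the lower bound
-/

namespace Pool.Agent.Run7.h129.LG

open Finset Filter Topology MeasureTheory
open Pool.Agent.H305R2 (roughPart)
open Pool.Agent.N176.GP (cnt XX XX_nonneg cnt_eq bexp NB NB_spec NB_div)
open Pool.Agent.Run7.h129.Mer (Consec LimSet gap LogDens grid)

section

variable {b M : ℕ} {C δ : ℝ} {K P : ℕ}

/-- many windows: one of them has no exponents -/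
theorem windows (hb : 2 ≤ b) (hc : Cst b M C δ K P) {z0 j I t X : ℕ} (hj1 : 1 ≤ j)
    (hj2 : j ≤ b ^ (2 * z0)) (x : ℕ → ℕ) (hX : P ≤ X) (hXz : K * z0 ≤ X) (hx : ∀ l, X ≤ x l)
    (hst : ∀ l, xs (rr M) (x l) I ≤ x (l + 1)) (hmono : Monotone x) : ∀ l, x l ≤ t →
    ∑ n ∈ cel b z0 t j, ∏ k ∈ range l, (1 - Vd (Wn M (x k) I) b t n) ≤
      ((1 - (3 / 4) ^ I) ^ l + 8 * l * Real.exp (-(δ * X))) * (b : ℝ) ^ (t - z0) := by
  have hb0 : (0 : ℝ) < b := by positivity
  have hB : (0 : ℝ) < (b : ℝ) ^ (t - z0) := by positivity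
  intro l
  induction l with
  | zero =>
    intro _
    simp [cel_card]
  | succ l ih =>
    intro hlt
    have hl : x l ≤ t := (hmono (Nat.le_succ l)).trans hlt
    have h1 := ih hl
    set φ : ℕ → ℝ := fun m => ∏ k ∈ range l, (1 - Vd (Wn M (x k) I) b (x l) m) with hφ
    have hφ0 : ∀ m, 0 ≤ φ m := fun m => prod_nonneg fun k _ => by
      have := Vd_le_one (Wn M (x k) I) b (x l) m
      linarith
    have hφ1 : ∀ m, φ m ≤ 1 := fun m => prod_le_one (fun k _ => by
      have := Vd_le_one (Wn M (x k) I) b (x l) m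
      linarith) fun k _ => by
      have := Vd_nonneg (Wn M (x k) I) b (x l) m
      linarith
    have e1 : ∀ n, φ (n / b ^ (t - x l)) = ∏ k ∈ range l, (1 - Vd (Wn M (x k) I) b t n) := by
      intro n
      rw [hφ]
      refine prod_congr rfl fun k hk => ?_
      rw [mem_range] at hk
      rw [Vd_level (fun p hp => (Wn_le hp).trans ((hst k).trans (hmono hk))) hl]
    have hI : xs (rr M) (x l) I ≤ t := (hst l).trans hlt
    have h2 := hc.low (x := x l) (hX.trans (hx l)) (z0 := z0) (hXz.trans (hx l)) hj1 hj2 hφ0 hφ1 I hI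
    unfold GG at h2
    simp only [e1] at h2
    have e2 : ∑ n ∈ cel b z0 t j, ∏ k ∈ range (l + 1), (1 - Vd (Wn M (x k) I) b t n) =
        ∑ n ∈ cel b z0 t j, ∏ k ∈ range l, (1 - Vd (Wn M (x k) I) b t n) -
        ∑ n ∈ cel b z0 t j, (∏ k ∈ range l, (1 - Vd (Wn M (x k) I) b t n)) *
          Vd (Wn M (x l) I) b t n := by
      rw [← sum_sub_distrib]
      refine sum_congr rfl fun n _ => ?_
      rw [prod_range_succ]
      ring
    rw [e2]
    set A := ∑ n ∈ cel b z0 t j, ∏ k ∈ range l, (1 - Vd (Wn M (x k) I) b t n) with hA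
    have hv0 : (0 : ℝ) ≤ (3 / 4 : ℝ) ^ I := by positivity
    have hv1 : (3 / 4 : ℝ) ^ I ≤ 1 := pow_le_one₀ (by norm_num) (by norm_num)
    have h3 : Real.exp (-(δ * (x l : ℝ))) ≤ Real.exp (-(δ * X)) := by
      rw [Real.exp_le_exp, neg_le_neg_iff]
      exact mul_le_mul_of_nonneg_left (by exact_mod_cast hx l) hc.hδ.le
    have h4 : (1 - (3 / 4 : ℝ) ^ I) * A ≤ (1 - (3 / 4) ^ I) *
        (((1 - (3 / 4) ^ I) ^ l + 8 * l * Real.exp (-(δ * X))) * (b : ℝ) ^ (t - z0)) :=
      mul_le_mul_of_nonneg_left h1 (by linarith)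
    have h5 : (b : ℝ) ^ (t - z0) * Real.exp (-(δ * (x l : ℝ))) ≤
        (b : ℝ) ^ (t - z0) * Real.exp (-(δ * X)) := mul_le_mul_of_nonneg_left h3 hB.le
    have h6 : (1 - (3 / 4 : ℝ) ^ I) * (8 * l * Real.exp (-(δ * X)) * (b : ℝ) ^ (t - z0)) ≤
        8 * l * Real.exp (-(δ * X)) * (b : ℝ) ^ (t - z0) := by
      refine mul_le_of_le_one_left (by positivity) (by linarith)
    push_cast
    calc A - ∑ n ∈ cel b z0 t j, (∏ k ∈ range l, (1 - Vd (Wn M (x k) I) b t n)) *
          Vd (Wn M (x l) I) b t n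
        ≤ (1 - (3 / 4 : ℝ) ^ I) * A + 8 * ((b : ℝ) ^ (t - z0) * Real.exp (-(δ * (x l : ℝ)))) := by
          linarith
      _ ≤ (1 - (3 / 4) ^ I) ^ (l + 1) * (b : ℝ) ^ (t - z0) +
          (1 - (3 / 4 : ℝ) ^ I) * (8 * l * Real.exp (-(δ * X)) * (b : ℝ) ^ (t - z0)) +
          8 * ((b : ℝ) ^ (t - z0) * Real.exp (-(δ * X))) := by
          rw [pow_succ]
          linarith
      _ ≤ _ := by linarith

end

/-- the starting points of the windows of the stage `s` -/
def st (s l : ℕ) : ℕ := 2 ^ ((s + 1) * (4 ^ s + l))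

lemma st_mono (s : ℕ) : Monotone (st s) := fun a c h => by
  unfold st
  exact Nat.pow_le_pow_right (by norm_num) (Nat.mul_le_mul_left _ (by omega))

lemma st_step {M : ℕ} (hM : 1 ≤ M) (s l : ℕ) : xs (rr M) (st s l) s ≤ st s (l + 1) := by
  have h1 := xs_le (r := rr M) (by linarith [rr_gt hM]) (st s l) s
  have h2 : rr M ^ s ≤ 2 ^ s := pow_le_pow_left₀ (by linarith [rr_gt hM]) (rr_le hM) s
  have h3 : (xs (rr M) (st s l) s : ℝ) ≤ (st s (l + 1) : ℕ) := by
    refine h1.trans ?_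
    calc (st s l : ℝ) * rr M ^ s ≤ st s l * 2 ^ s := mul_le_mul_of_nonneg_left h2 (Nat.cast_nonneg _)
      _ ≤ st s l * 2 ^ (s + 1) := by
          refine mul_le_mul_of_nonneg_left ?_ (Nat.cast_nonneg _)
          exact pow_le_pow_right₀ (by norm_num) (by omega)
      _ = (st s (l + 1) : ℕ) := by
          unfold st
          push_cast
          rw [← pow_add]
          congr 1
  exact_mod_cast h3

lemma st_ge (s : ℕ) : 8 ^ s ≤ st s 0 := by
  unfold st
  have : (8 : ℕ) ^ s = 2 ^ (3 * s) := by rw [pow_mul]; norm_num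
  rw [this]
  refine Nat.pow_le_pow_right (by norm_num) ?_
  rcases Nat.eq_zero_or_pos s with h | h
  · subst h; simp
  · have h1 : 4 ^ 1 ≤ 4 ^ s := Nat.pow_le_pow_right (by norm_num) h
    nlinarith

lemma tendsto_st : Tendsto (fun s => st s 0) atTop atTop :=
  tendsto_atTop_mono st_ge (tendsto_pow_atTop_atTop_of_one_lt (by norm_num))

/-- the bound of the exceptional set is summable -/
lemma bound_le {δ : ℝ} (hδ : 0 < δ) (s : ℕ) :
    (1 - (3 / 4 : ℝ) ^ s) ^ (4 ^ s) + 8 * ((4 ^ s : ℕ) : ℝ) * Real.exp (-(δ * (st s 0 : ℕ))) ≤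
      (1 / 3) ^ s + 8 / δ * (1 / 2) ^ s := by
  have hv1 : (3 / 4 : ℝ) ^ s ≤ 1 := pow_le_one₀ (by norm_num) (by norm_num)
  have hexp : ∀ y : ℝ, 0 < y → Real.exp (-y) ≤ 1 / y := by
    intro y hy
    rw [Real.exp_neg, ← one_div]
    refine one_div_le_one_div_of_le hy ?_
    have := Real.add_one_le_exp y
    linarith
  refine add_le_add ?_ ?_
  · calc (1 - (3 / 4 : ℝ) ^ s) ^ (4 ^ s) ≤ (Real.exp (-(3 / 4 : ℝ) ^ s)) ^ (4 ^ s) :=
          pow_le_pow_left₀ (by linarith) (Real.one_sub_le_exp_neg _) _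
      _ = Real.exp (-(3 : ℝ) ^ s) := by
          rw [← Real.exp_nat_mul]
          congr 1
          push_cast
          rw [mul_neg, ← mul_pow]
          norm_num
      _ ≤ 1 / (3 : ℝ) ^ s := hexp _ (by positivity)
      _ = _ := by rw [one_div_pow]
  · have h1 : (8 : ℝ) ^ s ≤ (st s 0 : ℕ) := by exact_mod_cast st_ge s
    have h80 : (0 : ℝ) < (8 : ℝ) ^ s := by positivity
    have h2 := hexp (δ * (8 : ℝ) ^ s) (by positivity)
    have h3 : Real.exp (-(δ * (st s 0 : ℕ))) ≤ Real.exp (-(δ * (8 : ℝ) ^ s)) := by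
      rw [Real.exp_le_exp, neg_le_neg_iff]
      exact mul_le_mul_of_nonneg_left h1 hδ.le
    calc 8 * ((4 ^ s : ℕ) : ℝ) * Real.exp (-(δ * (st s 0 : ℕ)))
        ≤ 8 * ((4 ^ s : ℕ) : ℝ) * (1 / (δ * (8 : ℝ) ^ s)) :=
          mul_le_mul_of_nonneg_left (h3.trans h2) (by positivity)
      _ = 8 / δ * (4 / 8 : ℝ) ^ s := by
          push_cast
          rw [div_pow]
          field_simp
      _ = _ := by norm_num

section

variable {b M : ℕ} {C δ : ℝ} {K P : ℕ}

/-- almost every amplitude has for all large `s` a void window of the stage `s` -/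
theorem ae_void (hb : 2 ≤ b) (hc : Cst b M C δ K P) : ∀ᵐ β : ℝ, 0 < β → ∀ᶠ s : ℕ in atTop,
    ∃ l < 4 ^ s, ∀ p ∈ Wn M (st s l) s, ¬ (roughPart p (NB b β p)).Prime := by
  classical
  have hb0 : (0 : ℝ) < b := by positivity
  have hδ := hc.hδ
  have hae : ∀ m0 : ℕ, ∀ᵐ β : ℝ, ((b : ℝ) ^ m0)⁻¹ < β → β ≤ (b : ℝ) ^ m0 → ∀ᶠ s : ℕ in atTop,
      ∃ l < 4 ^ s, ∀ p ∈ Wn M (st s l) s, ¬ (roughPart p (NB b β p)).Prime := by
    intro m0
    set p : ℕ → ℝ → Prop := fun s β => P ≤ st s 0 ∧ K * m0 ≤ st s 0 ∧ m0 ≤ st s 0 ∧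
      ((b : ℝ) ^ m0)⁻¹ < β ∧ β ≤ (b : ℝ) ^ m0 ∧
      ¬ ∃ l < 4 ^ s, ∀ p ∈ Wn M (st s l) s, ¬ (roughPart p (NB b β p)).Prime with hp
    have hmeas : ∀ s : ℕ, volume {β : ℝ | p s β} ≤
        ENNReal.ofReal ((b : ℝ) ^ m0 * ((1 / 3) ^ s + 8 / δ * (1 / 2) ^ s)) := by
      intro s
      by_cases hs : P ≤ st s 0 ∧ K * m0 ≤ st s 0 ∧ m0 ≤ st s 0
      · obtain ⟨hs1, hs2, hs3⟩ := hs
        obtain ⟨t, ht⟩ : ∃ t, t = st s (4 ^ s) := ⟨_, rfl⟩
        have ht0 : ∀ l ≤ 4 ^ s, st s l ≤ t := fun l hl => by rw [ht]; exact st_mono s hl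
        have hm0t : m0 ≤ t := hs3.trans (ht0 0 (Nat.zero_le _))
        set A : ℕ → Prop := fun n => ∀ l < 4 ^ s, Vd (Wn M (st s l) s) b t n = 0 with hA
        set Q : ℝ := ((1 / 3) ^ s + 8 / δ * (1 / 2) ^ s) * ((b : ℝ) ^ m0)⁻¹ with hQ
        have hcard : ∀ j, 1 ≤ j → j ≤ b ^ (2 * m0) →
            (((cel b m0 t j).filter A).card : ℝ) ≤ Q * (b : ℝ) ^ t := by
          intro j hj1 hj2
          have h1 := windows hb hc hj1 hj2 (I := s) (t := t) (st s) hs1 hs2
            (fun l => st_mono s (Nat.zero_le l)) (st_step hc.hM s) (st_mono s) (4 ^ s)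
            (ht0 _ le_rfl)
          have h2 : (((cel b m0 t j).filter A).card : ℝ) ≤
              ∑ n ∈ cel b m0 t j, ∏ k ∈ range (4 ^ s), (1 - Vd (Wn M (st s k) s) b t n) := by
            have e : (((cel b m0 t j).filter A).card : ℝ) =
                ∑ n ∈ (cel b m0 t j).filter A, ∏ k ∈ range (4 ^ s), (1 - Vd (Wn M (st s k) s) b t n) := by
              rw [card_eq_sum_ones, Nat.cast_sum]
              refine sum_congr rfl fun n hn => ?_
              rw [mem_filter] at hn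
              rw [prod_eq_one fun k hk => by rw [hn.2 k (mem_range.1 hk), sub_zero]]
              norm_num
            rw [e]
            refine sum_le_sum_of_subset_of_nonneg (filter_subset _ _) fun n _ _ => ?_
            refine prod_nonneg fun k _ => ?_
            have := Vd_le_one (Wn M (st s k) s) b t n
            linarith
          refine h2.trans (h1.trans ?_)
          have h3 : Q * (b : ℝ) ^ t = ((1 / 3) ^ s + 8 / δ * (1 / 2) ^ s) * (b : ℝ) ^ (t - m0) := by
            rw [hQ, pow_sub₀ _ hb0.ne' hm0t]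
            ring
          rw [h3]
          refine mul_le_mul_of_nonneg_right ?_ (by positivity)
          exact bound_le hδ s
        have hcover : {β : ℝ | p s β} ⊆ ⋃ j ∈ Ico 1 (b ^ (2 * m0)),
            {β : ℝ | (j : ℝ) / (b : ℝ) ^ m0 < β ∧ β ≤ ((j : ℝ) + 1) / (b : ℝ) ^ m0 ∧ A (NB b β t)} := by
          rintro β ⟨_, _, _, h4, h5, h6⟩
          have hβ : 0 < β := lt_trans (by positivity) h4
          have hbm : (0 : ℝ) < (b : ℝ) ^ m0 := by positivity
          obtain ⟨h7, h8⟩ := NB_spec hb hβ m0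
          have h9 : 1 ≤ NB b β m0 := by
            by_contra hcon
            have h10 : NB b β m0 = 0 := by omega
            rw [h10] at h8
            have h11 : ((b : ℝ) ^ m0)⁻¹ * (b : ℝ) ^ m0 < β * (b : ℝ) ^ m0 :=
              mul_lt_mul_of_pos_right h4 hbm
            rw [inv_mul_cancel₀ hbm.ne'] at h11
            push_cast at h8
            linarith
          have h10 : NB b β m0 < b ^ (2 * m0) := by
            have h11 : β * (b : ℝ) ^ m0 ≤ (b : ℝ) ^ m0 * (b : ℝ) ^ m0 :=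
              mul_le_mul_of_nonneg_right h5 hbm.le
            have h12 : ((NB b β m0 : ℕ) : ℝ) < (b : ℝ) ^ (2 * m0) := by
              rw [two_mul, pow_add]
              linarith
            exact_mod_cast h12
          rw [Set.mem_iUnion₂]
          refine ⟨NB b β m0, mem_Ico.2 ⟨h9, h10⟩, ?_, ?_, ?_⟩
          · rw [div_lt_iff₀ hbm]; exact h7
          · rw [le_div_iff₀ hbm]; exact h8
          · intro l hl
            push Not at h6
            obtain ⟨q, hq, hq2⟩ := h6 l hl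
            refine Vd_eq_zero ⟨q, hq, ?_⟩
            have hqt : q ≤ t := (Wn_le hq).trans ((st_step hc.hM s l).trans (ht0 _ (by omega)))
            exact (XX_one_iff hb hβ hqt).2 hq2
        refine (measure_mono hcover).trans ((measure_biUnion_finset_le _ _).trans ?_)
        have h20 : ∀ j ∈ Ico 1 (b ^ (2 * m0)), volume {β : ℝ | (j : ℝ) / (b : ℝ) ^ m0 < β ∧
            β ≤ ((j : ℝ) + 1) / (b : ℝ) ^ m0 ∧ A (NB b β t)} ≤ ENNReal.ofReal Q := by
          intro j hj
          rw [mem_Ico] at hj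
          exact vol_cell hb hm0t A Q (hcard j hj.1 hj.2.le)
        have hQ0 : 0 ≤ Q := by positivity
        refine (sum_le_sum h20).trans ?_
        rw [sum_const, nsmul_eq_mul, Nat.card_Ico, ← ENNReal.ofReal_natCast,
          ← ENNReal.ofReal_mul (Nat.cast_nonneg _)]
        refine ENNReal.ofReal_le_ofReal ?_
        have h21 : ((b ^ (2 * m0) - 1 : ℕ) : ℝ) ≤ (b : ℝ) ^ m0 * (b : ℝ) ^ m0 := by
          have : b ^ (2 * m0) - 1 ≤ b ^ (2 * m0) := Nat.sub_le _ _
          have h22 : ((b ^ (2 * m0) - 1 : ℕ) : ℝ) ≤ ((b ^ (2 * m0) : ℕ) : ℝ) := by exact_mod_cast this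
          refine h22.trans (le_of_eq ?_)
          push_cast
          rw [← pow_add]
          congr 1
          ring
        refine (mul_le_mul_of_nonneg_right h21 hQ0).trans (le_of_eq ?_)
        rw [hQ]
        field_simp
      · have : {β : ℝ | p s β} = ∅ := by
          rw [Set.eq_empty_iff_forall_notMem]
          rintro β ⟨h1, h2, h3, _⟩
          exact hs ⟨h1, h2, h3⟩
        rw [this, measure_empty]
        exact zero_le
    have hsum : ∑' s : ℕ, volume {β : ℝ | p s β} ≠ ⊤ := by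
      refine ne_top_of_le_ne_top ?_ (ENNReal.tsum_le_tsum hmeas)
      have hs : Summable fun s : ℕ => (b : ℝ) ^ m0 * ((1 / 3 : ℝ) ^ s + 8 / δ * (1 / 2) ^ s) := by
        refine Summable.mul_left _ (Summable.add ?_ (Summable.mul_left _ ?_))
        · exact summable_geometric_of_lt_one (by norm_num) (by norm_num)
        · exact summable_geometric_of_lt_one (by norm_num) (by norm_num)
      rw [← ENNReal.ofReal_tsum_of_nonneg (fun i => by positivity) hs]
      exact ENNReal.ofReal_ne_top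
    have hfr := measure_setOfPred_frequently_eq_zero hsum
    have hae1 : ∀ᵐ β : ℝ, ¬ ∃ᶠ i in atTop, p i β := by
      rw [ae_iff]
      simpa only [not_not] using hfr
    filter_upwards [hae1] with β hβ h1 h2
    rw [not_frequently] at hβ
    filter_upwards [hβ, tendsto_st.eventually_ge_atTop P, tendsto_st.eventually_ge_atTop (K * m0),
      tendsto_st.eventually_ge_atTop m0] with s h3 h4 h5 h6
    by_contra hcon
    exact h3 ⟨h4, h5, h6, h1, h2, hcon⟩
  have hall := ae_all_iff.2 hae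
  filter_upwards [hall] with β hβ hβ0
  have hb1 : (1 : ℝ) < b := by exact_mod_cast hb
  obtain ⟨m1, hm1⟩ := pow_unbounded_of_one_lt β hb1
  obtain ⟨m2, hm2⟩ := pow_unbounded_of_one_lt β⁻¹ hb1
  set m0 := max m1 m2 with hm0
  have h1 : β ≤ (b : ℝ) ^ m0 := hm1.le.trans (pow_le_pow_right₀ hb1.le (le_max_left _ _))
  have h2 : β⁻¹ < (b : ℝ) ^ m0 := hm2.trans_le (pow_le_pow_right₀ hb1.le (le_max_right _ _))
  have h3 : ((b : ℝ) ^ m0)⁻¹ < β := by
    rw [inv_lt_comm₀ (by positivity) hβ0]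
    exact h2
  exact hβ m0 h3 h1

end

section

variable {E : ℕ → Prop} [DecidablePred E] {κ : ℝ}

/-- there is an element in `(X, X ^ 2]` -/
lemma hit_sq (h : LogDens E κ) : ∀ᶠ X : ℕ in atTop, ∃ p, X < p ∧ p ≤ X ^ 2 ∧ E p := by
  have h1 := h.lim
  have hsq : Tendsto (fun X : ℕ => X ^ 2) atTop atTop := tendsto_pow_atTop (by norm_num)
  have h2 := h1.comp hsq
  have h3 : Tendsto (fun X : ℕ => 2 * ((Nat.count E (X ^ 2 + 1) : ℝ) / Real.log ((X ^ 2 : ℕ) : ℝ)) -
      (Nat.count E (X + 1) : ℝ) / Real.log X) atTop (𝓝 (2 * κ - κ)) := (h2.const_mul 2).sub h1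
  have h4 : 0 < 2 * κ - κ := by
    have := h.pos
    linarith
  filter_upwards [h3.eventually_const_lt h4, eventually_ge_atTop 2] with X hX hX2
  by_contra hcon
  push Not at hcon
  have hX2r : (2 : ℝ) ≤ X := by exact_mod_cast hX2
  have hlog : 0 < Real.log X := Real.log_pos (by linarith)
  have e : Nat.count E (X ^ 2 + 1) = Nat.count E (X + 1) := by
    have h5 : X ≤ X ^ 2 := by nlinarith
    obtain ⟨d, hd⟩ : ∃ d, X ^ 2 + 1 = X + 1 + d := ⟨X ^ 2 + 1 - (X + 1), by omega⟩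
    rw [hd, Nat.count_add]
    have h3 : Nat.count (fun k => E (X + 1 + k)) d = 0 := by
      rw [Nat.count_eq_card_filter_range, card_eq_zero, filter_eq_empty_iff]
      intro k hk
      rw [mem_range] at hk
      exact hcon (X + 1 + k) (by omega) (by omega)
    rw [h3, add_zero]
  rw [e] at hX
  push_cast at hX
  rw [Real.log_pow] at hX
  push_cast at hX
  have e2 : 2 * ((Nat.count E (X + 1) : ℝ) / (2 * Real.log X)) - (Nat.count E (X + 1) : ℝ) / Real.log X = 0 := by
    field_simp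
    ring
  linarith

/-- the consecutive elements around a void interval -/
lemma around {A B : ℕ} (hAB : A ≤ B) (hA : ∃ p ≤ A, E p) (hB : ∃ q, B < q ∧ q ≤ B ^ 2 ∧ E q)
    (hno : ∀ s, A < s → s ≤ B → ¬ E s) : ∃ p q, Consec E p q ∧ p ≤ A ∧ B < q ∧ q ≤ B ^ 2 := by
  have hex : ∃ q, B < q ∧ E q := by
    obtain ⟨q, h1, _, h2⟩ := hB
    exact ⟨q, h1, h2⟩
  obtain ⟨q0, h1, h2, h3⟩ := hB
  obtain ⟨p0, h4, h5⟩ := hA
  have hq := Nat.find_spec hex
  have hq2 : Nat.find hex ≤ q0 := Nat.find_min' hex ⟨h1, h3⟩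
  have hp := Nat.findGreatest_spec (P := E) h4 h5
  have hp2 := Nat.findGreatest_le (P := E) A
  refine ⟨Nat.findGreatest E A, Nat.find hex, ⟨hp, hq.2, by omega, fun s hs1 hs2 hs => ?_⟩, hp2, hq.1,
    hq2.trans h2⟩
  rcases le_or_gt s A with h6 | h6
  · have := Nat.le_findGreatest h6 hs
    omega
  · rcases le_or_gt s B with h7 | h7
    · exact hno s h6 h7 hs
    · exact Nat.find_min hex hs2 ⟨h7, hs⟩

end

/-- the stage of `n` -/
lemma exists_stage {S0 n : ℕ} (hS0 : 1 ≤ S0) (hn : 2 ^ ((S0 + 1) * 4 ^ (S0 + 1)) ≤ n) :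
    ∃ s, S0 ≤ s ∧ 2 ^ ((s + 1) * 4 ^ (s + 1)) ≤ n ∧ n < 2 ^ ((s + 2) * 4 ^ (s + 2)) := by
  have hex : ∃ s, n < 2 ^ ((s + 2) * 4 ^ (s + 2)) := by
    refine ⟨n, Nat.lt_two_pow_self.trans_le (Nat.pow_le_pow_right (by norm_num) ?_)⟩
    have : 1 ≤ 4 ^ (n + 2) := Nat.one_le_pow _ _ (by norm_num)
    nlinarith
  have hmono : ∀ a c : ℕ, a ≤ c → 2 ^ (a * 4 ^ a) ≤ 2 ^ (c * 4 ^ c) := fun a c h =>
    Nat.pow_le_pow_right (by norm_num) (Nat.mul_le_mul h (Nat.pow_le_pow_right (by norm_num) h))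
  have h1 := Nat.find_spec hex
  set s := Nat.find hex with hs
  have h2 : S0 ≤ s := by
    by_contra hcon
    have h3 := hmono (s + 2) (S0 + 1) (by omega)
    omega
  refine ⟨s, h2, ?_, h1⟩
  have h3 := Nat.find_min hex (show s - 1 < Nat.find hex by omega)
  have e : s - 1 + 2 = s + 1 := by omega
  rw [e] at h3
  omega

/-- **The longest gaps: the lower bound.** -/
theorem longest {b : ℕ} (hb : 2 ≤ b) : ∃ c : ℝ, 0 < c ∧ ∀ᵐ β : ℝ, 0 < β → ∀ᶠ n : ℕ in atTop,
    ∃ p q, Consec (Ex b β) p q ∧ q ≤ n ∧ c * Real.log (Real.log n) ≤ Real.log ((q : ℝ) / p) := by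
  classical
  obtain ⟨M, C, δ, K, P, hc⟩ := exists_cst hb
  have hM := hc.hM
  have hr := rr_gt hM
  have hlr0 : 0 < Real.log (rr M) := Real.log_pos hr
  refine ⟨Real.log (rr M) / 6, by positivity, ?_⟩
  filter_upwards [ae_void hb hc, ae_dens hb] with β hβ hdens hβ0
  have hd := hdens hβ0
  obtain ⟨S1, hS1⟩ := eventually_atTop.1 (hβ hβ0)
  obtain ⟨X1, hX1⟩ := eventually_atTop.1 (hit_sq hd)
  obtain ⟨p1, hp1⟩ : ∃ p, Ex b β p := ⟨_, hd.mem 0⟩
  obtain ⟨S2, hS2⟩ := eventually_atTop.1 (tendsto_st.eventually_ge_atTop (max X1 p1))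
  set S0 := max (max S1 S2) 4 with hS0
  filter_upwards [eventually_ge_atTop (2 ^ ((S0 + 1) * 4 ^ (S0 + 1)))] with n hn
  obtain ⟨s, hs, hs1, hs2⟩ := exists_stage (by omega) hn
  have hsS1 : S1 ≤ s := by omega
  have hsS2 : S2 ≤ s := by omega
  have hs4 : 4 ≤ s := by omega
  obtain ⟨l, hl, hvoid⟩ := hS1 s hsS1
  have hst := hS2 s hsS2
  set x := st s l with hx
  have hx0 : st s 0 ≤ x := st_mono s (Nat.zero_le l)
  set A := xs (rr M) x 1 with hA
  set B := xs (rr M) x s with hB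
  have hmono := xs_mono hr.le x
  have hxA : x ≤ A := by
    have := hmono (Nat.zero_le 1)
    rwa [xs_zero] at this
  have hAB : A ≤ B := hmono (by omega)
  have hX1x : X1 ≤ x := ((le_max_left _ _).trans hst).trans hx0
  have hp1x : p1 ≤ x := ((le_max_right _ _).trans hst).trans hx0
  obtain ⟨p, q, h1, h2, h3, h4⟩ := around (E := Ex b β) hAB ⟨p1, hp1x.trans hxA, hp1⟩
    (hX1 B (hX1x.trans (hxA.trans hAB))) (fun t ht1 ht2 ht => by
      refine hvoid t ?_ ht.2
      unfold Wn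
      exact mem_Tp.2 ⟨⟨ht1, ht2⟩, ht.1⟩)
  refine ⟨p, q, h1, ?_, ?_⟩
  · -- q ≤ n
    refine h4.trans (le_trans ?_ hs1)
    have h5 : B ≤ st s (4 ^ s) := (st_step hM s l).trans (st_mono s (by omega))
    calc B ^ 2 ≤ (st s (4 ^ s)) ^ 2 := Nat.pow_le_pow_left h5 2
      _ = 2 ^ ((s + 1) * 4 ^ (s + 1)) := by
          unfold st
          rw [← pow_mul]
          congr 1
          rw [pow_succ 4 s]
          ring
  · have hp0 : (0 : ℝ) < p := by exact_mod_cast h1.1.1.pos
    have hq0 : (0 : ℝ) < q := by exact_mod_cast h1.2.1.1.pos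
    -- the gap
    have hgap : ((s : ℝ) - 1) * Real.log (rr M) ≤ Real.log ((q : ℝ) / p) := by
      have e1 : ((s : ℝ) - 1) * Real.log (rr M) = Real.log (rr M ^ (s - 1)) := by
        rw [Real.log_pow, Nat.cast_sub (by omega)]
        push_cast
        ring
      rw [e1]
      refine Real.log_le_log (by positivity) ?_
      rw [le_div_iff₀ hp0]
      have h5 : (p : ℝ) ≤ x * rr M ^ 1 := by
        have : (p : ℝ) ≤ A := by exact_mod_cast h2
        exact this.trans (xs_le (by linarith) _ _)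
      have h6 : (x : ℝ) * rr M ^ s < q := by
        have h7 := lt_xs (rr M) x s
        have h8 : (B : ℝ) + 1 ≤ q := by exact_mod_cast h3
        linarith
      have h7 : rr M ^ s = rr M ^ (s - 1) * rr M := by
        rw [← pow_succ]
        congr 1
        omega
      have hx1 : (0 : ℝ) ≤ x := Nat.cast_nonneg _
      calc rr M ^ (s - 1) * (p : ℝ) ≤ rr M ^ (s - 1) * (x * rr M ^ 1) := by gcongr
        _ = x * rr M ^ s := by rw [h7]; ring
        _ ≤ q := h6.le
    refine le_trans ?_ hgap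
    -- log log n
    have hn2 : (2 : ℝ) ≤ n := by
      have h5 : 2 ^ 1 ≤ 2 ^ ((s + 1) * 4 ^ (s + 1)) := Nat.pow_le_pow_right (by norm_num)
        (Nat.mul_pos (by omega) (by positivity))
      exact_mod_cast (h5.trans hs1)
    have hlogn : 0 < Real.log n := Real.log_pos (by linarith)
    have h5 : Real.log n ≤ ((s : ℝ) + 2) * 4 ^ (s + 2) * Real.log 2 := by
      have h6 : (n : ℝ) ≤ (2 : ℝ) ^ ((s + 2) * 4 ^ (s + 2)) := by exact_mod_cast hs2.le
      have h7 := Real.log_le_log (by linarith) h6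
      rw [Real.log_pow] at h7
      push_cast at h7
      exact h7
    have hl2 : Real.log 2 < 1 := by
      have := Real.log_two_lt_d9
      linarith
    have hl20 : 0 < Real.log 2 := Real.log_pos (by norm_num)
    have hs0 : (0 : ℝ) ≤ s := Nat.cast_nonneg s
    have h6 : Real.log (Real.log n) ≤ 3 * ((s : ℝ) + 2) := by
      have h7 : Real.log n ≤ ((s : ℝ) + 2) * 4 ^ (s + 2) := by
        refine h5.trans (mul_le_of_le_one_right (by positivity) hl2.le)
      have h8 := Real.log_le_log hlogn h7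
      rw [Real.log_mul (by positivity) (by positivity), Real.log_pow] at h8
      have h9 : Real.log ((s : ℝ) + 2) ≤ s + 2 := (Real.log_le_self (by linarith))
      have h10 : Real.log 4 ≤ 2 := by
        have : (4 : ℝ) = 2 ^ 2 := by norm_num
        rw [this, Real.log_pow]
        push_cast
        linarith
      push_cast at h8
      nlinarith
    have hs4r : (4 : ℝ) ≤ s := by exact_mod_cast hs4
    have h7 : Real.log (rr M) / 6 * Real.log (Real.log n) ≤ Real.log (rr M) / 6 * (3 * ((s : ℝ) + 2)) :=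
      mul_le_mul_of_nonneg_left h6 (by positivity)
    refine h7.trans ?_
    nlinarith

end Pool.Agent.Run7.h129.LG
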