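import Mathlib
import Pool.Agent.Run7.h129.LG.Gap

set_option autoImplicit false

/-!
# The longest gaps between the exponents: the upper bound
-/

namespace Pool.Agent.Run7.h129.LG

open Finset Filter Topology MeasureTheory
open Pool.Agent.H305R2 (roughPart)
open Pool.Agent.N176.GP (cnt XX XX_nonneg cnt_eq bexp NB NB_spec NB_div MB)
open Pool.Agent.Run7.h129.Mer (Consec LimSet gap LogDens grid)

lemma card_filter_void (Q : ℕ → Prop) [DecidablePred Q] (m m' : ℕ)
    (h : ∀ p, m < p → p ≤ m' → ¬ Q p) :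
    ((range (m' + 1)).filter Q).card ≤ ((range (m + 1)).filter Q).card := by
  refine card_le_card fun p hp => ?_
  rw [mem_filter, mem_range] at hp ⊢
  refine ⟨?_, hp.2⟩
  by_contra h5
  exact h p (by omega) (by omega) hp.2

/-- **The longest gaps: the upper bound.** It follows from the starting theorem `N176.GP.main2`. -/
theorem longest_le {b : ℕ} (hb : 2 ≤ b) : ∃ C : ℝ, 0 < C ∧ ∀ᵐ β : ℝ, 0 < β → ∀ᶠ n : ℕ in atTop,
    ∀ p q, Consec (Ex b β) p q → q ≤ n → Real.log ((q : ℝ) / p) ≤ C * Real.log (Real.log n) := by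
  classical
  obtain ⟨A, hA⟩ := Pool.Agent.N176.GP.thick_univ
  obtain ⟨C1, c, hc, hmain⟩ := Pool.Agent.N176.GP.main2 hb 1 one_pos A
  set C2 := max C1 1 with hC2
  have hC21 : 1 ≤ C2 := le_max_right _ _
  refine ⟨C2 + 1, by linarith, ?_⟩
  filter_upwards [hmain Set.univ ⟨1, fun x hx => by convert hA x hx⟩] with β hβ hβ0
  obtain ⟨N1, hN1⟩ := eventually_atTop.1 (hβ hβ0)
  -- an exponent in `(m, m']`
  have hhit : ∀ m : ℕ, N1 ≤ m → 3 ≤ m → ∀ m' : ℕ, (m : ℝ) * (Real.log m) ^ C2 ≤ m' → m < m' →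
      ∃ p, m < p ∧ p ≤ m' ∧ Ex b β p := by
    intro m hm hm3 m' hm' hmm
    have hm3r : (3 : ℝ) ≤ m := by exact_mod_cast hm3
    have hm0 : (0 : ℝ) < m := by linarith
    have hlog1 : 1 ≤ Real.log m := by
      rw [Real.le_log_iff_exp_le hm0]
      have := Real.exp_one_lt_d9
      linarith
    have h1 : (m : ℝ) * (Real.log m) ^ C1 ≤ m' := by
      refine le_trans (mul_le_mul_of_nonneg_left ?_ hm0.le) hm'
      exact Real.rpow_le_rpow_of_exponent_le hlog1 (le_max_left _ _)
    have h2 := hN1 m hm m' h1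
    have hmmr : (m : ℝ) < m' := by exact_mod_cast hmm
    have h3 : 0 < Real.log ((m' : ℝ) / m) := Real.log_pos (by rw [lt_div_iff₀ hm0]; linarith)
    by_contra hcon
    push Not at hcon
    have h4 : MB b Set.univ β m' ≤ MB b Set.univ β m := by
      have h7 := card_filter_void (fun p => p.Prime ∧ p ∈ (Set.univ : Set ℕ) ∧
        (roughPart p (NB b β p)).Prime) m m' (fun p h5 h6 hp2 => hcon p h5 h6 ⟨hp2.1, hp2.2.2⟩)
      unfold MB
      convert h7
    have h5 : (MB b Set.univ β m' : ℝ) ≤ MB b Set.univ β m := by exact_mod_cast h4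
    have h6 : 0 < c * Real.log ((m' : ℝ) / m) := mul_pos hc h3
    linarith
  -- an exponent larger than the threshold
  obtain ⟨N2, hN2⟩ : ∃ N2, N2 = max N1 3 := ⟨_, rfl⟩
  obtain ⟨q0, hq0, hq0E⟩ : ∃ q0, N2 < q0 ∧ Ex b β q0 := by
    obtain ⟨p, h1, _, h3⟩ := hhit N2 (by omega) (by omega)
      (max (⌈(N2 : ℝ) * (Real.log N2) ^ C2⌉₊) (N2 + 1))
      (by
        push_cast
        exact (Nat.le_ceil _).trans (le_max_left _ _)) (by omega)
    exact ⟨p, h1, h3⟩
  have hll : Tendsto (fun n : ℕ => Real.log (Real.log n)) atTop atTop :=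
    Real.tendsto_log_atTop.comp (Real.tendsto_log_atTop.comp tendsto_natCast_atTop_atTop)
  filter_upwards [hll.eventually_ge_atTop (Real.log q0), hll.eventually_ge_atTop (Real.log 2),
    eventually_ge_atTop 3] with n hn1 hn2 hn3 p q hpq hqn
  have hl2 : 0 < Real.log 2 := Real.log_pos (by norm_num)
  have hp0 : (0 : ℝ) < p := by exact_mod_cast hpq.1.1.pos
  have hp1 : (1 : ℝ) ≤ p := by exact_mod_cast hpq.1.1.pos
  have hq0r : (0 : ℝ) < q := by exact_mod_cast hpq.2.1.1.pos
  have hllpos : 0 < Real.log (Real.log n) := by linarith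
  rcases lt_or_ge p N2 with hpN | hpN
  · -- `q ≤ q0`
    have h1 : q ≤ q0 := by
      by_contra h2
      exact hpq.2.2.2 q0 (by omega) (by omega) hq0E
    have h2 : Real.log ((q : ℝ) / p) ≤ Real.log q0 := by
      refine Real.log_le_log (by positivity) ?_
      rw [div_le_iff₀ hp0]
      have h3 : (q : ℝ) ≤ q0 := by exact_mod_cast h1
      have h4 : (0 : ℝ) ≤ q0 := Nat.cast_nonneg _
      nlinarith
    refine h2.trans (hn1.trans ?_)
    nlinarith
  · have hp3 : 3 ≤ p := by omega
    have hp3r : (3 : ℝ) ≤ p := by exact_mod_cast hp3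
    have hlog1 : 1 ≤ Real.log p := by
      rw [Real.le_log_iff_exp_le hp0]
      have := Real.exp_one_lt_d9
      linarith
    have hpow1 : 1 ≤ (Real.log p) ^ C2 := Real.one_le_rpow hlog1 (by linarith)
    -- `q - 1 ≤ p (log p) ^ C2`
    have h1 : (q : ℝ) ≤ 2 * (p * (Real.log p) ^ C2) := by
      by_contra hcon
      push Not at hcon
      have h2 : (p : ℝ) * (Real.log p) ^ C2 ≤ ((q - 1 : ℕ) : ℝ) := by
        rw [Nat.cast_sub hpq.2.1.1.pos]
        push_cast
        have : 1 ≤ (p : ℝ) * (Real.log p) ^ C2 := by nlinarith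
        linarith
      have h3 : p < q - 1 := by
        have h4 : (p : ℝ) ≤ p * (Real.log p) ^ C2 := by nlinarith
        have h5 : (2 : ℝ) * p < q := by linarith
        have h6 : 2 * p < q := by exact_mod_cast h5
        omega
      obtain ⟨s, hs1, hs2, hs3⟩ := hhit p (by omega) hp3 (q - 1) h2 h3
      exact hpq.2.2.2 s hs1 (by omega) hs3
    have h2 : Real.log ((q : ℝ) / p) ≤ Real.log (2 * (Real.log p) ^ C2) := by
      refine Real.log_le_log (by positivity) ?_
      rw [div_le_iff₀ hp0]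
      linarith
    have hpn : (p : ℝ) ≤ n := by exact_mod_cast hpq.2.2.1.le.trans hqn
    have h3 : Real.log (Real.log p) ≤ Real.log (Real.log n) :=
      Real.log_le_log (by linarith) (Real.log_le_log hp0 hpn)
    rw [Real.log_mul (by norm_num) (by positivity), Real.log_rpow (by linarith)] at h2
    have h4 : C2 * Real.log (Real.log p) ≤ C2 * Real.log (Real.log n) :=
      mul_le_mul_of_nonneg_left h3 (by linarith)
    linarith

end Pool.Agent.Run7.h129.LG
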